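import Pool.Agent.AGQ.Rec

/-!
# AGQ: asymptotic inequalities
-/

open Finset Real Filter Topology

namespace AGQ

theorem ev_pow {a b : ℝ} (hb : 0 < b) (hab : a < b) (A B D : ℝ) :
    ∀ᶠ l : ℝ in atTop, A + B * log l + D * l ^ a ≤ l ^ b := by
  have h1 : ∀ᶠ l : ℝ in atTop, 3 * A ≤ l ^ b := (tendsto_rpow_atTop hb).eventually_ge_atTop _
  have h2 : ∀ᶠ l : ℝ in atTop, |B| * log l ≤ 1 / 3 * l ^ b := by
    have h3 : (fun l : ℝ => |B| * log l) =o[atTop] fun l : ℝ => l ^ b :=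
      (isLittleO_log_rpow_atTop hb).const_mul_left |B|
    have h4 := h3.bound (c := 1 / 3) (by norm_num)
    filter_upwards [h4, eventually_ge_atTop 1] with l h4 h5
    rw [Real.norm_of_nonneg (mul_nonneg (abs_nonneg _) (Real.log_nonneg h5)),
      Real.norm_of_nonneg (by positivity)] at h4
    exact h4
  have h3 : ∀ᶠ l : ℝ in atTop, 3 * |D| ≤ l ^ (b - a) :=
    (tendsto_rpow_atTop (by linarith)).eventually_ge_atTop _
  filter_upwards [h1, h2, h3, eventually_ge_atTop 1] with l h1 h2 h3 h4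
  have h5 : l ^ b = l ^ (b - a) * l ^ a := by
    rw [← Real.rpow_add (by linarith)]
    congr 1
    ring
  have h6 : 3 * |D| * l ^ a ≤ l ^ b := by
    rw [h5]
    exact mul_le_mul_of_nonneg_right h3 (by positivity)
  have h7 : D * l ^ a ≤ |D| * l ^ a := mul_le_mul_of_nonneg_right (le_abs_self D) (by positivity)
  have h8 : B * log l ≤ |B| * log l :=
    mul_le_mul_of_nonneg_right (le_abs_self B) (Real.log_nonneg h4)
  linarith

theorem P1_range {α : ℝ} (l₀ : ℕ) (hl₀ : 0 < l₀) (hα : 0 < α) :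
    ∀ᶠ l : ℝ in atTop, α / (4 * (l₀ : ℝ)) * log l ≤ ∑ q ∈ P1 l₀ ⌊exp (l ^ α)⌋₊, 1 / (q : ℝ) := by
  obtain ⟨C, hC⟩ := P1_lower l₀ hl₀
  have hl₀' : (0 : ℝ) < l₀ := by exact_mod_cast hl₀
  have hφ : (0 : ℝ) < l₀.totient := by exact_mod_cast Nat.totient_pos.2 hl₀
  have hφl : (l₀.totient : ℝ) ≤ l₀ := by exact_mod_cast Nat.totient_le l₀
  have h1 : ∀ᶠ l : ℝ in atTop, 3 ≤ l ^ α := (tendsto_rpow_atTop hα).eventually_ge_atTop _
  have h2 : ∀ᶠ l : ℝ in atTop, |C| + 1 / (2 * (l₀ : ℝ)) * log 2 ≤ α / (4 * (l₀ : ℝ)) * log l :=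
    (Tendsto.const_mul_atTop (by positivity) Real.tendsto_log_atTop).eventually_ge_atTop _
  have h3 : ∀ᶠ l : ℝ in atTop, log 2 ≤ α * log l :=
    (Tendsto.const_mul_atTop (by positivity) Real.tendsto_log_atTop).eventually_ge_atTop _
  filter_upwards [h1, h2, h3, eventually_ge_atTop 1] with l h1 h2 h3 h4
  have hl0 : 0 < l := by linarith
  obtain ⟨b, hb⟩ : ∃ b : ℝ, b = l ^ α := ⟨_, rfl⟩
  rw [← hb] at h1 ⊢
  have h8 : (⌊exp b⌋₊ : ℝ) ≤ exp b := Nat.floor_le (by positivity)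
  have h9 : exp b < (⌊exp b⌋₊ : ℝ) + 1 := Nat.lt_floor_add_one _
  have heb : b + 1 ≤ exp b := Real.add_one_le_exp b
  have hN : 3 ≤ ⌊exp b⌋₊ := by
    apply Nat.le_floor
    push_cast
    linarith
  have g6 : α * log l - log 2 ≤ log (log ⌊exp b⌋₊) := by
    have k1 : b / 2 ≤ log (⌊exp b⌋₊ : ℝ) := by
      have k2 : exp (b / 2) ≤ (⌊exp b⌋₊ : ℝ) := by
        have k3 : exp b = exp (b / 2) * exp (b / 2) := by rw [← Real.exp_add]; congr 1; ring
        have k4 : 1 + b / 2 ≤ exp (b / 2) := by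
          have := Real.add_one_le_exp (b / 2)
          linarith
        nlinarith
      have := Real.log_le_log (by positivity) k2
      rwa [Real.log_exp] at this
    have k4 := Real.log_le_log (by linarith) k1
    rw [Real.log_div (by linarith) (by norm_num), hb, Real.log_rpow hl0] at k4
    rwa [← hb] at k4
  have g7 := hC _ hN
  have g8 : 1 / (2 * (l₀ : ℝ)) * (α * log l - log 2) ≤
      1 / (2 * (l₀.totient : ℝ)) * log (log ⌊exp b⌋₊) := by
    apply mul_le_mul _ g6 (by linarith) (by positivity)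
    apply one_div_le_one_div_of_le (by positivity)
    linarith
  have g9 : 1 / (2 * (l₀ : ℝ)) * (α * log l - log 2) =
      α / (4 * (l₀ : ℝ)) * log l + (α / (4 * (l₀ : ℝ)) * log l - 1 / (2 * (l₀ : ℝ)) * log 2) := by
    field_simp
    ring
  have g10 := le_abs_self C
  linarith

end AGQ
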