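import Mathlib

/-!
# AGQ: bases of a prime power with `l ^ (n - 1) = 1`
-/

open Finset Real Filter Topology

namespace AGQ

/-- the order of such a base divides `p - 1` -/
theorem teich_pow {p a q : ℕ} (hp : p.Prime) (ha : 2 ≤ a) (hq0 : 0 < q)
    (h : p ^ a ∣ q ^ (p ^ a - 1) - 1) :
    q.Coprime p ∧ ((q : ℕ) : ZMod (p ^ a)) ^ (p - 1) = 1 := by
  have hpa : 0 < p ^ a := pow_pos hp.pos a
  have hpa2 : 2 ≤ p ^ a := by
    calc 2 ≤ p := hp.two_le
      _ ≤ p ^ a := Nat.le_self_pow (by omega) p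
  have hpd : p ∣ p ^ a := dvd_pow_self p (by omega)
  have hq1 : 1 ≤ q ^ (p ^ a - 1) := Nat.one_le_pow _ _ hq0
  have hcop : q.Coprime p := by
    rw [Nat.coprime_comm, Nat.Prime.coprime_iff_not_dvd hp]
    intro h0
    have h1 : p ∣ q ^ (p ^ a - 1) := h0.trans (dvd_pow_self q (by omega))
    have h2 : p ∣ q ^ (p ^ a - 1) - (q ^ (p ^ a - 1) - 1) := Nat.dvd_sub h1 (hpd.trans h)
    rw [Nat.sub_sub_self hq1] at h2
    exact hp.one_lt.ne' (Nat.dvd_one.1 h2)
  refine ⟨hcop, ?_⟩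
  have h1 : ((q : ℕ) : ZMod (p ^ a)) ^ (p ^ a - 1) = 1 := by
    have h3 := (ZMod.natCast_eq_zero_iff _ _).2 h
    rw [Nat.cast_sub hq1] at h3
    push_cast at h3
    exact sub_eq_zero.1 h3
  have h2 : ((q : ℕ) : ZMod (p ^ a)) ^ (p ^ (a - 1) * (p - 1)) = 1 := by
    have h3 := Nat.ModEq.pow_totient (Nat.Coprime.pow_right a hcop)
    rw [Nat.totient_prime_pow hp (by omega)] at h3
    have h4 := (ZMod.natCast_eq_natCast_iff _ _ _).2 h3
    push_cast at h4
    exact h4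
  have h3 := orderOf_dvd_of_pow_eq_one h1
  have h4 := orderOf_dvd_of_pow_eq_one h2
  have h5 : (orderOf ((q : ℕ) : ZMod (p ^ a))).Coprime p := by
    rw [Nat.coprime_comm, Nat.Prime.coprime_iff_not_dvd hp]
    intro h6
    have h7 : p ∣ p ^ a - 1 := h6.trans h3
    have h9 : p ∣ p ^ a - (p ^ a - 1) := Nat.dvd_sub hpd h7
    rw [Nat.sub_sub_self hpa] at h9
    exact hp.one_lt.ne' (Nat.dvd_one.1 h9)
  have h6 : orderOf ((q : ℕ) : ZMod (p ^ a)) ∣ p - 1 :=
    (h5.pow_right (a - 1)).dvd_of_dvd_mul_left h4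
  exact orderOf_dvd_iff_pow_eq_one.1 h6

/-- few solutions -/
theorem card_teich {p a : ℕ} (hp : p.Prime) [NeZero (p ^ a)] :
    (Finset.univ.filter fun x : (ZMod (p ^ a))ˣ => x ^ (p - 1) = 1).card ≤ p - 1 := by
  classical
  rcases eq_or_ne p 2 with h | h
  · subst h
    have h1 : (Finset.univ.filter fun x : (ZMod (2 ^ a))ˣ => x ^ (2 - 1) = 1) = {1} := by
      ext x
      simp
    rw [h1, Finset.card_singleton]
  · have : IsCyclic (ZMod (p ^ a))ˣ := ZMod.isCyclic_units_of_prime_pow p hp h a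
    exact IsCyclic.card_pow_eq_one_le (by have := hp.two_le; omega)

/-- the primes up to `Y` with `n ∣ q ^ (n - 1) - 1` -/
noncomputable def TS (n Y : ℕ) : Finset ℕ :=
  (Icc 1 Y).filter fun q => q.Prime ∧ n ∣ q ^ (n - 1) - 1

theorem choose_TS {p a u Y : ℕ} (hp : p.Prime) (ha : 2 ≤ a) (hyu : Y ^ u < p ^ a) :
    (TS (p ^ a) Y).card.choose u ≤ p - 1 := by
  classical
  obtain ⟨Q, hQ⟩ : ∃ Q : Finset ℕ, Q = TS (p ^ a) Y := ⟨_, rfl⟩
  rw [← hQ]
  have hQm : ∀ q ∈ Q, q.Prime ∧ q ≤ Y ∧ p ^ a ∣ q ^ (p ^ a - 1) - 1 := by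
    intro q hq
    rw [hQ, TS, Finset.mem_filter, Finset.mem_Icc] at hq
    exact ⟨hq.2.1, hq.1.2, hq.2.2⟩
  have hp2' : 0 < p ^ a := pow_pos hp.pos a
  have : NeZero (p ^ a) := ⟨hp2'.ne'⟩
  have hcop : ∀ A : Finset ℕ, A ⊆ Q → (∏ q ∈ A, q).Coprime (p ^ a) := by
    intro A hA
    apply Nat.Coprime.prod_left
    intro q hq
    apply Nat.Coprime.pow_right
    obtain ⟨h1, h2, h3⟩ := hQm q (hA hq)
    exact (teich_pow hp ha h1.pos h3).1
  let f : Finset ℕ → (ZMod (p ^ a))ˣ := fun A =>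
    if hA : A ⊆ Q then ZMod.unitOfCoprime (∏ q ∈ A, q) (hcop A hA) else 1
  have hf : ∀ A : Finset ℕ, A ⊆ Q → ((f A : (ZMod (p ^ a))ˣ) : ZMod (p ^ a)) =
      ((∏ q ∈ A, q : ℕ) : ZMod (p ^ a)) := by
    intro A hA
    simp only [f, dif_pos hA, ZMod.coe_unitOfCoprime]
  refine le_trans ?_ (card_teich (a := a) hp)
  rw [← Finset.card_powersetCard]
  apply Finset.card_le_card_of_injOn f
  · intro A hA
    rw [Finset.mem_coe, Finset.mem_powersetCard] at hA
    rw [Finset.mem_coe, Finset.mem_filter]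
    refine ⟨Finset.mem_univ _, ?_⟩
    apply Units.ext
    rw [Units.val_pow_eq_pow_val, hf A hA.1, Units.val_one]
    push_cast
    rw [← Finset.prod_pow]
    refine Finset.prod_eq_one fun q hq => ?_
    obtain ⟨h1, h2, h3⟩ := hQm q (hA.1 hq)
    have h4 := (teich_pow hp ha h1.pos h3).2
    exact h4
  · intro A hA A' hA' he
    rw [Finset.mem_coe, Finset.mem_powersetCard] at hA hA'
    have hlt : ∀ B : Finset ℕ, B ⊆ Q → B.card = u → ∏ q ∈ B, q < p ^ a := by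
      intro B hB hBc
      refine lt_of_le_of_lt ?_ hyu
      rw [← hBc]
      exact Finset.prod_le_pow_card B (fun q => q) Y fun q hq => (hQm q (hB hq)).2.1
    have h2 := congrArg (fun x : (ZMod (p ^ a))ˣ => (x : ZMod (p ^ a))) he
    simp only [hf A hA.1, hf A' hA'.1] at h2
    rw [ZMod.natCast_eq_natCast_iff] at h2
    have h3 := Nat.ModEq.eq_of_lt_of_lt h2 (hlt A hA.1 hA.2) (hlt A' hA'.1 hA'.2)
    rw [← Nat.primeFactors_prod fun q hq => (hQm q (hA.1 hq)).1, h3,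
      Nat.primeFactors_prod fun q hq => (hQm q (hA'.1 hq)).1]

/-- few such primes -/
theorem TS_card {p a Y n : ℕ} (hp : p.Prime) (ha : 2 ≤ a) (hn : n = p ^ a) (hY : 2 ≤ Y)
    (hY3 : Y ^ 3 ≤ n) (hl : 4 * Real.log n ≤ (Y : ℝ) ^ (1 / 20 : ℝ)) :
    ((TS n Y).card : ℝ) ≤ (Y : ℝ) ^ (4 / 5 : ℝ) := by
  subst hn
  obtain ⟨n, hn⟩ : ∃ n, n = p ^ a := ⟨_, rfl⟩
  rw [← hn] at hY3 hl ⊢
  have hY0 : (0 : ℝ) < Y := by
    have : 0 < Y := by omega
    exact_mod_cast this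
  have hY2 : (2 : ℝ) ≤ Y := by exact_mod_cast hY
  have hlY : 0 < Real.log Y := Real.log_pos (by linarith)
  have hYn : Y ^ 2 ≤ n - 1 := by
    have h1 : Y ^ 2 * 2 ≤ Y ^ 3 := by
      rw [pow_succ Y 2]
      exact Nat.mul_le_mul_left _ hY
    have h2 : 1 ≤ Y ^ 2 := Nat.one_le_pow _ _ (by omega)
    omega
  have hn0 : n - 1 ≠ 0 := by
    have : 1 ≤ Y ^ 2 := Nat.one_le_pow _ _ (by omega)
    omega
  obtain ⟨u, hu⟩ : ∃ u : ℕ, u = Nat.log Y (n - 1) := ⟨_, rfl⟩
  have hu1 : Y ^ u ≤ n - 1 := by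
    rw [hu]
    exact Nat.pow_log_le_self Y hn0
  have hu2 : n - 1 < Y ^ (u + 1) := by
    rw [hu]
    exact Nat.lt_pow_succ_log_self (by omega) _
  have hu3 : 2 ≤ u := by
    rw [hu]
    exact Nat.le_log_of_pow_le (by omega) hYn
  have hch : (TS n Y).card.choose u ≤ p - 1 := by
    rw [hn]
    apply choose_TS hp ha
    omega
  obtain ⟨k, hk⟩ : ∃ k, k = (TS n Y).card := ⟨_, rfl⟩
  rw [← hk] at hch ⊢
  -- `u` is small
  have hun : (u : ℝ) ≤ 2 * Real.log n := by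
    have h1 : 2 ^ u ≤ n := by
      calc 2 ^ u ≤ Y ^ u := Nat.pow_le_pow_left hY u
        _ ≤ n := by omega
    have h2 : ((2 : ℝ)) ^ u ≤ n := by exact_mod_cast h1
    have h3 := Real.log_le_log (by positivity) h2
    rw [Real.log_pow] at h3
    have h4 := Real.log_two_gt_d9
    have h5 : (0 : ℝ) ≤ u := Nat.cast_nonneg u
    nlinarith
  have hu0 : (0 : ℝ) < u := by
    have : 0 < u := by omega
    exact_mod_cast this
  have hYpow : (1 : ℝ) ≤ (Y : ℝ) ^ (3 / 4 : ℝ) := Real.one_le_rpow (by linarith) (by norm_num)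
  have hfin : ∀ v : ℝ, v ≤ 2 * u * (Y : ℝ) ^ (3 / 4 : ℝ) → v ≤ (Y : ℝ) ^ (4 / 5 : ℝ) := by
    intro v hv
    have h1 : (Y : ℝ) ^ (4 / 5 : ℝ) = (Y : ℝ) ^ (1 / 20 : ℝ) * (Y : ℝ) ^ (3 / 4 : ℝ) := by
      rw [← Real.rpow_add hY0]
      norm_num
    rw [h1]
    refine hv.trans (mul_le_mul_of_nonneg_right ?_ (by positivity))
    linarith
  by_cases hku : k < u
  · apply hfin
    have h1 : (k : ℝ) < u := by exact_mod_cast hku
    nlinarith
  · push Not at hku
    have h1 := Nat.pow_le_choose (α := ℝ) u k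
    rw [div_le_iff₀ (by positivity)] at h1
    obtain ⟨b, hb⟩ : ∃ b : ℝ, b = ((k + 1 - u : ℕ) : ℝ) / u := ⟨_, rfl⟩
    have hku1 : 1 ≤ k + 1 - u := by omega
    have hku2 : (1 : ℝ) ≤ ((k + 1 - u : ℕ) : ℝ) := by exact_mod_cast hku1
    have hb0 : 0 < b := by
      rw [hb]
      positivity
    have h2 : b ^ u ≤ (k.choose u : ℝ) := by
      rw [hb, div_pow, div_le_iff₀ (by positivity)]
      refine h1.trans ?_
      have h4 : ((u.factorial : ℕ) : ℝ) ≤ (u : ℝ) ^ u := by exact_mod_cast Nat.factorial_le_pow u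
      exact mul_le_mul_of_nonneg_left h4 (by positivity)
    -- `C(k,u)^2 < p^2 ≤ n ≤ Y^(u+1)`
    have h3 : (k.choose u : ℝ) ^ 2 ≤ (Y : ℝ) ^ (u + 1) := by
      have h4 : (k.choose u) ^ 2 ≤ Y ^ (u + 1) := by
        calc (k.choose u) ^ 2 ≤ p ^ 2 := Nat.pow_le_pow_left (hch.trans (Nat.sub_le _ _)) 2
          _ ≤ p ^ a := Nat.pow_le_pow_right hp.pos ha
          _ = n := hn.symm
          _ ≤ Y ^ (u + 1) := by omega
      exact_mod_cast h4
    have h4 : b ≤ (Y : ℝ) ^ (3 / 4 : ℝ) := by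
      rw [← Real.log_le_log_iff hb0 (by positivity), Real.log_rpow hY0]
      have h5 : (b ^ u) ^ 2 ≤ (Y : ℝ) ^ (u + 1) :=
        (pow_le_pow_left₀ (by positivity) h2 2).trans h3
      have h6 := Real.log_le_log (by positivity) h5
      rw [← pow_mul, Real.log_pow, Real.log_pow] at h6
      push_cast at h6
      have h7 : (2 : ℝ) ≤ u := by exact_mod_cast hu3
      have h8 : ((u : ℝ) + 1) * Real.log Y ≤ (3 / 2 * u) * Real.log Y :=
        mul_le_mul_of_nonneg_right (by linarith) hlY.le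
      have h9 : (u : ℝ) * 2 * Real.log b ≤ (u : ℝ) * 2 * (3 / 4 * Real.log Y) := by
        calc (u : ℝ) * 2 * Real.log b ≤ ((u : ℝ) + 1) * Real.log Y := h6
          _ ≤ (3 / 2 * u) * Real.log Y := h8
          _ = (u : ℝ) * 2 * (3 / 4 * Real.log Y) := by ring
      exact le_of_mul_le_mul_left h9 (by positivity)
    apply hfin
    rw [hb, div_le_iff₀ hu0] at h4
    rw [Nat.cast_sub (by omega)] at h4
    push_cast at h4
    nlinarith

/-- a sparse set has a small reciprocal sum -/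
theorem recip_sparse : ∃ C : ℝ, ∀ T : Finset ℕ, (∀ q ∈ T, 0 < q ∧
    (((T.filter fun q' => q' ≤ q).card : ℕ) : ℝ) ≤ (q : ℝ) ^ (4 / 5 : ℝ)) →
    ∑ q ∈ T, 1 / (q : ℝ) ≤ C := by
  have hsum : Summable fun i : ℕ => (i : ℝ) ^ (-(5 / 4) : ℝ) :=
    Real.summable_nat_rpow.2 (by norm_num)
  refine ⟨∑' i : ℕ, (i : ℝ) ^ (-(5 / 4) : ℝ), fun T hT => ?_⟩
  have key : ∀ T : Finset ℕ, (∀ q ∈ T, 0 < q ∧
      (((T.filter fun q' => q' ≤ q).card : ℕ) : ℝ) ≤ (q : ℝ) ^ (4 / 5 : ℝ)) →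
      ∑ q ∈ T, 1 / (q : ℝ) ≤ ∑ i ∈ range (T.card + 1), (i : ℝ) ^ (-(5 / 4) : ℝ) := by
    intro T
    induction T using Finset.induction_on_max with
    | empty =>
      intro _
      rw [sum_empty]
      exact sum_nonneg fun i _ => by positivity
    | insert a s hs ih =>
      intro hT
      have ha : a ∉ s := fun h => lt_irrefl _ (hs a h)
      rw [sum_insert ha, card_insert_of_notMem ha, sum_range_succ, add_comm]
      apply add_le_add
      · apply ih
        intro q hq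
        obtain ⟨h1, h2⟩ := hT q (mem_insert_of_mem hq)
        refine ⟨h1, le_trans ?_ h2⟩
        exact_mod_cast card_le_card (filter_subset_filter _ (subset_insert a s))
      · obtain ⟨h1, h2⟩ := hT a (mem_insert_self a s)
        have h3 : (insert a s).filter (fun q' => q' ≤ a) = insert a s := by
          apply filter_true_of_mem
          intro q hq
          rcases mem_insert.1 hq with h | h
          · exact h.le
          · exact (hs q h).le
        rw [h3, card_insert_of_notMem ha] at h2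
        have ha0 : (0 : ℝ) < a := by exact_mod_cast h1
        have hc0 : (0 : ℝ) < ((s.card + 1 : ℕ) : ℝ) := by positivity
        have h4 : ((s.card + 1 : ℕ) : ℝ) ^ (5 / 4 : ℝ) ≤ a := by
          have h5 := Real.rpow_le_rpow hc0.le h2 (by norm_num : (0 : ℝ) ≤ 5 / 4)
          rw [← Real.rpow_mul ha0.le] at h5
          norm_num at h5 ⊢
          exact h5
        rw [Real.rpow_neg hc0.le, ← one_div]
        exact one_div_le_one_div_of_le (by positivity) h4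
  refine (key T hT).trans ?_
  exact hsum.sum_le_tsum _ fun i _ => by positivity

end AGQ
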