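import Pool.Agent.AGQ.Tur2
import Pool.Agent.AGQ.Asy

/-!
# AGQ: few numbers have few prime factors in a given set, asymptotic form
-/

open Finset Real Filter Topology

namespace AGQ

theorem few_asy {κ β ε : ℝ} (hκ : 0 < κ) (hβ : 0 < β) (hβε : β < ε) : ∀ᶠ l : ℝ in atTop,
    ∀ (x W : ℕ) (P : Finset ℕ), (∀ q ∈ P, q.Prime ∧ q ≤ W) → (W : ℝ) ≤ exp (l ^ β) →
      κ * log l ≤ ∑ q ∈ P, 1 / (q : ℝ) → exp (l ^ ε) ≤ x →
      (((Icc 1 x).filter fun r => 2 * om P r < ⌊κ / 17 * log l⌋₊).card : ℝ) ≤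
        x / l ^ (κ / 34) := by
  have hlog2 := Real.log_two_gt_d9
  have e1 : ∀ᶠ l : ℝ in atTop, 1 + κ / 17 * log l + 0 * l ^ (0 : ℝ) ≤ l ^ ((ε - β) / 2) :=
    ev_pow (by linarith) (by linarith) _ _ _
  have e2 : ∀ᶠ l : ℝ in atTop, log 2 + κ / 34 * log l + 3 * l ^ ((ε + β) / 2) ≤ l ^ ε :=
    ev_pow (by linarith) (by linarith) _ _ _
  have e3 : ∀ᶠ l : ℝ in atTop, 2 * log 2 ≤ κ * (log 2 / 17 - 1 / 34) * log l :=
    (Tendsto.const_mul_atTop (mul_pos hκ (by linarith))
      Real.tendsto_log_atTop).eventually_ge_atTop _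
  filter_upwards [e1, e2, e3, eventually_ge_atTop 3] with l e1 e2 e3 e4
  intro x W P hP hW hsum hx
  rw [zero_mul, add_zero] at e1
  have hl0 : 0 < l := by linarith
  have hl1 : 1 ≤ l := by linarith
  have hll : 0 < log l := Real.log_pos (by linarith)
  have hlb : 1 ≤ l ^ β := Real.one_le_rpow hl1 hβ.le
  obtain ⟨J, hJ⟩ : ∃ J : ℕ, J = ⌊κ / 17 * log l⌋₊ := ⟨_, rfl⟩
  rw [← hJ]
  have hJ1 : (J : ℝ) ≤ κ / 17 * log l := by
    rw [hJ]
    exact Nat.floor_le (by positivity)
  have hJ2 : κ / 17 * log l - 1 ≤ J := by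
    rw [hJ]
    exact (Nat.sub_one_lt_floor _).le
  have hfew := few P W hP J (by linarith) x
  refine hfew.trans ?_
  have hlk : 0 < l ^ (κ / 34) := by positivity
  have hxpos : (0 : ℝ) < x := lt_of_lt_of_le (Real.exp_pos _) hx
  have hlk' : l ^ (κ / 34) = exp (κ / 34 * log l) := by
    rw [Real.rpow_def_of_pos hl0, mul_comm]
  have h1 : (x : ℝ) / 2 ^ J ≤ x / l ^ (κ / 34) / 2 := by
    rw [div_div]
    apply div_le_div_of_nonneg_left hxpos.le (by positivity)
    have h2 : l ^ (κ / 34) * 2 = exp (κ / 34 * log l + log 2) := by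
      rw [Real.exp_add, Real.exp_log (by norm_num), hlk']
    have h3 : (2 : ℝ) ^ J = exp (J * log 2) := by
      rw [mul_comm, ← Real.rpow_def_of_pos (by norm_num), Real.rpow_natCast]
    rw [h2, h3]
    apply Real.exp_le_exp.2
    have h4 := mul_le_mul_of_nonneg_right hJ2 (by linarith : 0 ≤ log 2)
    linarith
  have h2 : (2 : ℝ) ^ J * (1 + W) ^ (J + 1) ≤ x / l ^ (κ / 34) / 2 := by
    have hW0 : (0 : ℝ) ≤ W := Nat.cast_nonneg W
    have h3 : 2 * (1 + (W : ℝ)) ≤ exp (3 * l ^ β) := by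
      have h4 : 1 ≤ exp (l ^ β) := Real.one_le_exp (by linarith)
      have h5 : 4 ≤ exp (2 * l ^ β) := by
        have h6 : (2 : ℝ) ≤ exp (l ^ β) := by
          have := Real.add_one_le_exp (l ^ β)
          linarith
        have h7 : exp (2 * l ^ β) = exp (l ^ β) * exp (l ^ β) := by
          rw [← Real.exp_add]
          congr 1
          ring
        rw [h7]
        nlinarith
      have h8 : exp (3 * l ^ β) = exp (2 * l ^ β) * exp (l ^ β) := by
        rw [← Real.exp_add]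
        congr 1
        ring
      rw [h8]
      nlinarith
    have h4 : (2 : ℝ) ^ J * (1 + W) ^ (J + 1) ≤ exp (3 * l ^ ((ε + β) / 2)) := by
      calc (2 : ℝ) ^ J * (1 + W) ^ (J + 1) ≤ 2 ^ (J + 1) * (1 + W) ^ (J + 1) := by
            apply mul_le_mul_of_nonneg_right _ (by positivity)
            exact pow_le_pow_right₀ (by norm_num) (Nat.le_succ J)
        _ = (2 * (1 + (W : ℝ))) ^ (J + 1) := by rw [mul_pow]
        _ ≤ (exp (3 * l ^ β)) ^ (J + 1) := pow_le_pow_left₀ (by positivity) h3 _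
        _ = exp ((J + 1 : ℕ) * (3 * l ^ β)) := by rw [← Real.exp_nat_mul]
        _ ≤ exp (3 * l ^ ((ε + β) / 2)) := by
            apply Real.exp_le_exp.2
            have h5 : l ^ ((ε + β) / 2) = l ^ ((ε - β) / 2) * l ^ β := by
              rw [← Real.rpow_add hl0]
              congr 1
              ring
            rw [h5]
            push_cast
            have h6 : (J : ℝ) + 1 ≤ l ^ ((ε - β) / 2) := by linarith
            have h7 := mul_le_mul_of_nonneg_right h6 (by linarith : 0 ≤ 3 * l ^ β)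
            linarith
    refine h4.trans ?_
    rw [div_div, le_div_iff₀ (by positivity)]
    refine le_trans (le_of_eq ?_) ((Real.exp_le_exp.2 e2).trans hx)
    rw [Real.exp_add, Real.exp_add, Real.exp_log (by norm_num), hlk']
    ring
  linarith

end AGQ
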