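import Pool.Agent.AGQ.Rec
import Pool.Agent.AGQ.Tpp
import Pool.Agent.AGQ.Tur3
import Pool.Agent.AKR.Nrm

/-!
# AGQ: theorem B for prime powers
-/

open Finset Real Filter Topology

namespace AGQ

theorem star_dvd {n r q : ℕ} (h : AKR.Star n r) (hq : q ∣ r) : AKR.Star n q := by
  refine dvd_trans ?_ h
  obtain ⟨k, rfl⟩ := hq
  have h4 := sub_dvd_pow_sub_pow (Polynomial.X ^ q : Polynomial (ZMod n)) 1 k
  rwa [one_pow, ← pow_mul] at h4

theorem bpp {ε : ℝ} (hε : 0 < ε) (hε1 : ε ≤ 1) : ∃ c : ℝ, 0 < c ∧ ∃ n₁ : ℕ, ∀ n : ℕ, n₁ ≤ n →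
    ∀ p a : ℕ, p.Prime → 2 ≤ a → n = p ^ a → ∀ x : ℕ, exp ((log n) ^ ε) ≤ x →
    ∀ S : Finset ℕ, (∀ r ∈ S, 0 < r ∧ r ≤ x ∧ n.Coprime r ∧ AKR.Star n r) →
      (S.card : ℝ) ≤ x / (log n) ^ c := by
  classical
  obtain ⟨C1, hC1⟩ := range_sum (α := ε / 4) (β := ε / 2) (by positivity) (by linarith)
  obtain ⟨C2, hC2⟩ := recip_sparse
  have hlog : Tendsto (fun n : ℕ => Real.log n) atTop atTop :=
    Real.tendsto_log_atTop.comp tendsto_natCast_atTop_atTop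
  have hev1 : ∀ᶠ l : ℝ in atTop, 20 * log (4 * l) ≤ l ^ (ε / 4) := by
    have h1 : (fun l : ℝ => log l) =o[atTop] fun l : ℝ => l ^ (ε / 4) :=
      isLittleO_log_rpow_atTop (by positivity)
    have h2 := h1.bound (c := 1 / 40) (by norm_num)
    have h3 := (tendsto_rpow_atTop (by positivity : 0 < ε / 4)).eventually_ge_atTop (40 * log 4)
    filter_upwards [h2, h3, eventually_ge_atTop 1] with l h2 h3 h4
    rw [Real.norm_of_nonneg (Real.log_nonneg h4), Real.norm_of_nonneg (by positivity)] at h2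
    rw [Real.log_mul (by norm_num) (by linarith)]
    linarith
  have hev2 : ∀ᶠ l : ℝ in atTop, 3 * l ^ (ε / 2) ≤ l := by
    have h3 := (tendsto_rpow_atTop (by linarith : 0 < 1 - ε / 2)).eventually_ge_atTop 3
    filter_upwards [h3, eventually_ge_atTop 1] with l h3 h4
    have h5 : l = l ^ (1 - ε / 2) * l ^ (ε / 2) := by
      rw [← Real.rpow_add (by linarith)]
      norm_num
    calc 3 * l ^ (ε / 2) ≤ l ^ (1 - ε / 2) * l ^ (ε / 2) :=
          mul_le_mul_of_nonneg_right h3 (by positivity)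
      _ = l := h5.symm
  have hev3 : ∀ᶠ l : ℝ in atTop, C1 + C2 ≤ ε / 8 * log l :=
    (Tendsto.const_mul_atTop (by positivity) Real.tendsto_log_atTop).eventually_ge_atTop _
  have hev4 : ∀ᶠ l : ℝ in atTop, 0 < log l := by
    filter_upwards [eventually_gt_atTop 1] with l hl
    exact Real.log_pos hl
  have hev5 := few_asy (κ := ε / 8) (β := ε / 2) (ε := ε) (by positivity) (by positivity)
    (by linarith)
  have hev6 : ∀ᶠ l : ℝ in atTop, (1 : ℝ) + 1 ≤ ε / 8 / 17 * log l :=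
    (Tendsto.const_mul_atTop (by positivity) Real.tendsto_log_atTop).eventually_ge_atTop _
  obtain ⟨n₁, hn₁⟩ := eventually_atTop.1 (hlog.eventually
    (hC1.and (hev1.and (hev2.and (hev3.and (hev4.and ((eventually_ge_atTop 1).and
      (hev5.and hev6))))))))
  refine ⟨ε / 8 / 34, by positivity, n₁, ?_⟩
  intro n hn p a hp ha hnpa x hx S hS
  obtain ⟨⟨g1, g2, g3⟩, g4, g5, g6, g7, g8, g9, g10⟩ := hn₁ n hn
  obtain ⟨l, hl⟩ : ∃ l : ℝ, l = log n := ⟨_, rfl⟩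
  rw [← hl] at g1 g2 g3 g4 g5 g6 g7 g8 g9 g10 hx ⊢
  obtain ⟨Z1, hZ1⟩ : ∃ Z1 : ℕ, Z1 = ⌈exp (l ^ (ε / 4))⌉₊ := ⟨_, rfl⟩
  obtain ⟨Z2, hZ2⟩ : ∃ Z2 : ℕ, Z2 = ⌊exp (l ^ (ε / 2))⌋₊ := ⟨_, rfl⟩
  rw [← hZ1] at g1
  rw [← hZ1, ← hZ2] at g2 g3
  have hn0 : 0 < n := by
    rw [hnpa]
    exact pow_pos hp.pos a
  have hn0' : (0 : ℝ) < n := by exact_mod_cast hn0
  have hel : exp l = n := by rw [hl, Real.exp_log hn0']
  have hZ1' : exp (l ^ (ε / 4)) ≤ Z1 := by rw [hZ1]; exact Nat.le_ceil _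
  have hZ2' : (Z2 : ℝ) ≤ exp (l ^ (ε / 2)) := by rw [hZ2]; exact Nat.floor_le (by positivity)
  obtain ⟨T, hT⟩ : ∃ T : Finset ℕ,
      T = (Pool.Agent.RG.prm Z1 Z2).filter fun q => n ∣ q ^ (n - 1) - 1 := ⟨_, rfl⟩
  obtain ⟨P, hP⟩ : ∃ P : Finset ℕ,
      P = (Pool.Agent.RG.prm Z1 Z2).filter fun q => ¬ n ∣ q ^ (n - 1) - 1 := ⟨_, rfl⟩
  have hTsum : ∑ q ∈ T, 1 / (q : ℝ) ≤ C2 := by
    apply hC2
    intro q hq
    rw [hT, mem_filter, Pool.Agent.RG.mem_prm] at hq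
    obtain ⟨⟨⟨h1, h2⟩, h3⟩, h4⟩ := hq
    refine ⟨h3.pos, ?_⟩
    have h5 : (((T.filter fun q' => q' ≤ q).card : ℕ) : ℝ) ≤ ((TS n q).card : ℝ) := by
      have h6 : T.filter (fun q' => q' ≤ q) ⊆ TS n q := by
        intro q' hq'
        rw [mem_filter, hT, mem_filter, Pool.Agent.RG.mem_prm] at hq'
        obtain ⟨⟨⟨⟨k1, k2⟩, k3⟩, k4⟩, k5⟩ := hq'
        rw [TS, mem_filter, mem_Icc]
        exact ⟨⟨k3.one_le, k5⟩, k3, k4⟩
      exact_mod_cast card_le_card h6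
    refine h5.trans (TS_card hp ha hnpa h3.two_le ?_ ?_)
    · have h6 : ((q : ℝ)) ^ 3 ≤ n := by
        calc ((q : ℝ)) ^ 3 ≤ (exp (l ^ (ε / 2))) ^ 3 := by
              apply pow_le_pow_left₀ (by positivity)
              refine le_trans ?_ hZ2'
              exact_mod_cast h2
          _ = exp (3 * l ^ (ε / 2)) := by
              rw [← Real.exp_nat_mul]
              norm_num
          _ ≤ exp l := Real.exp_le_exp.2 g5
          _ = n := hel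
      exact_mod_cast h6
    · rw [← hl]
      have h6 : exp (l ^ (ε / 4)) ≤ q := by
        refine hZ1'.trans ?_
        exact_mod_cast h1.le
      have h7 : 4 * l = exp (log (4 * l)) := (Real.exp_log (by linarith)).symm
      rw [h7]
      calc exp (log (4 * l)) ≤ exp (l ^ (ε / 4) * (1 / 20)) := Real.exp_le_exp.2 (by linarith)
        _ = (exp (l ^ (ε / 4))) ^ (1 / 20 : ℝ) := by rw [← Real.exp_mul]
        _ ≤ (q : ℝ) ^ (1 / 20 : ℝ) := Real.rpow_le_rpow (by positivity) h6 (by norm_num)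
  obtain ⟨E, hE⟩ : ∃ E : ℝ, E = ∑ q ∈ P, 1 / (q : ℝ) := ⟨_, rfl⟩
  have hEl : ε / 8 * log l ≤ E := by
    have h1 : ∑ q ∈ Pool.Agent.RG.prm Z1 Z2, 1 / (q : ℝ) =
        ∑ q ∈ T, 1 / (q : ℝ) + ∑ q ∈ P, 1 / (q : ℝ) := by
      rw [hT, hP]
      exact (sum_filter_add_sum_filter_not _ _ _).symm
    rw [h1, ← hE] at g3
    linarith
  have hPp : ∀ q ∈ P, q.Prime := by
    intro q hq
    rw [hP, mem_filter, Pool.Agent.RG.mem_prm] at hq
    exact hq.1.2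
  have hPW : ∀ q ∈ P, q.Prime ∧ q ≤ Z2 := by
    intro q hq
    have hq' := hq
    rw [hP, mem_filter, Pool.Agent.RG.mem_prm] at hq'
    exact ⟨hPp q hq, hq'.1.1.2⟩
  have hfew := g9 x Z2 P hPW hZ2' (by rw [← hE]; exact hEl) hx
  obtain ⟨J, hJ⟩ : ∃ J : ℕ, J = ⌊ε / 8 / 17 * log l⌋₊ := ⟨_, rfl⟩
  have hJ1 : 0 < J := by
    have h1 : ε / 8 / 17 * log l - 1 < J := by
      rw [hJ]
      exact Nat.sub_one_lt_floor _
    have h2 : (0 : ℝ) < J := by linarith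
    exact_mod_cast h2
  rw [← hJ] at hfew
  refine le_trans ?_ hfew
  have hsub : S ⊆ (Icc 1 x).filter fun r => 2 * om P r < J := by
    intro r hr
    obtain ⟨h1, h2, h3, h4⟩ := hS r hr
    rw [mem_filter, mem_Icc]
    refine ⟨⟨h1, h2⟩, ?_⟩
    have h5 : om P r = 0 := by
      unfold om
      rw [card_eq_zero, filter_eq_empty_iff]
      intro q hq hqr
      have hq' := hq
      rw [hP, mem_filter, Pool.Agent.RG.mem_prm] at hq'
      apply hq'.2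
      exact AKR.fermat_of_star hn0 (hPp q hq) (h3.coprime_dvd_right hqr) (star_dvd h4 hqr)
    omega
  exact_mod_cast card_le_card hsub

end AGQ
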