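import Pool.Agent.AGQ.Col2

/-!
# AGQ: the index of a subgroup generated by two elements
-/

namespace AGQ

/-- a group generated by two elements of exponent `E` has at most `E ^ 2` elements -/
theorem two_gen_card {G : Type} [CommGroup G] (a b : G) {E : ℕ} (hE : 0 < E)
    (ha : a ^ E = 1) (hb : b ^ E = 1) [Finite G] :
    Nat.card (Subgroup.closure {a, b} : Subgroup G) ≤ E ^ 2 := by
  classical
  have hsub : ((Subgroup.closure {a, b} : Subgroup G) : Set G) ⊆
      ((Finset.range E ×ˢ Finset.range E).image fun q : ℕ × ℕ => a ^ q.1 * b ^ q.2 : Finset G) := by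
    intro y hy
    obtain ⟨i, j, hij⟩ := grp_rep hy
    rw [Finset.coe_image]
    refine ⟨(i % E, j % E), ?_, ?_⟩
    · rw [Finset.mem_coe, Finset.mem_product, Finset.mem_range, Finset.mem_range]
      exact ⟨Nat.mod_lt _ hE, Nat.mod_lt _ hE⟩
    · have e1 : ∀ {x : G} (_ : x ^ E = 1) (k : ℕ), x ^ (k % E) = x ^ k := by
        intro x hx k
        conv_rhs => rw [← Nat.div_add_mod k E, pow_add, pow_mul, hx, one_pow, one_mul]
      rw [hij]
      simp only [e1 ha, e1 hb]
  have h4 : Nat.card (Subgroup.closure {a, b} : Subgroup G) ≤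
      ((Finset.range E ×ˢ Finset.range E).image
        fun q : ℕ × ℕ => a ^ q.1 * b ^ q.2 : Finset G).card := by
    rw [← Set.ncard_coe_finset, ← Nat.card_coe_set_eq]
    exact Nat.card_mono (Finset.finite_toSet _) hsub
  refine h4.trans (Finset.card_image_le.trans ?_)
  rw [Finset.card_product, Finset.card_range, sq]

variable {m p R s : ℕ}

theorem map_HH (hsR : s ∣ R) (hmR : m.Coprime R) (hpR : p.Coprime R) :
    (HH R hmR hpR).map (ZMod.unitsMap hsR) =
      Subgroup.closure {ZMod.unitOfCoprime m (hmR.coprime_dvd_right hsR),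
        ZMod.unitOfCoprime p (hpR.coprime_dvd_right hsR)} := by
  have h : ∀ {x : ℕ} (hx : x.Coprime R), ZMod.unitsMap hsR (ZMod.unitOfCoprime x hx) =
      ZMod.unitOfCoprime x (hx.coprime_dvd_right hsR) := by
    intro x hx
    apply Units.ext
    rw [ZMod.unitsMap_val, ZMod.coe_unitOfCoprime, ZMod.coe_unitOfCoprime, ZMod.cast_natCast hsR]
  unfold HH
  rw [MonoidHom.map_closure, Set.image_pair, h, h]

/-- first bound: exponent -/
theorem card_map_exp (hsR : s ∣ R) (hmR : m.Coprime R) (hpR : p.Coprime R) (hs : 0 < s) {E : ℕ}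
    (hE : 0 < E) (hx : ∀ x : (ZMod s)ˣ, x ^ E = 1) :
    Nat.card ((HH R hmR hpR).map (ZMod.unitsMap hsR)) ≤ E ^ 2 := by
  have : NeZero s := ⟨hs.ne'⟩
  rw [map_HH]
  exact two_gen_card _ _ hE (hx _) (hx _)

theorem modEq_prod (S : Finset ℕ) (hS : ∀ q ∈ S, q.Prime) {a b : ℕ}
    (h : ∀ q ∈ S, a ≡ b [MOD q]) : a ≡ b [MOD ∏ q ∈ S, q] := by
  wlog hab : a ≤ b generalizing a b
  · exact (this (fun q hq => (h q hq).symm) (by omega)).symm
  · rw [Nat.modEq_iff_dvd' hab]
    refine Finset.prod_primes_dvd _ (fun q hq => (hS q hq).prime) fun q hq => ?_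
    exact (Nat.modEq_iff_dvd' hab).1 (h q hq)

/-- second bound: many small common divisors with the `q - 1` -/
theorem card_map_idx (hsR : s ∣ R) (hmR : m.Coprime R) (hpR : p.Coprime R) {Q : ℕ} (hQ : 0 < Q)
    (S : Finset ℕ) (hS : ∀ q ∈ S, q.Prime) (hs : s = ∏ q ∈ S, q) :
    Nat.card ((HH R hmR hpR).map (ZMod.unitsMap hsR)) ≤
      Q ^ 2 * ∏ q ∈ S, ((q - 1) / Nat.gcd (q - 1) Q) := by
  classical
  have hspos : 0 < s := by
    rw [hs]
    exact Finset.prod_pos fun q hq => (hS q hq).pos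
  have : NeZero s := ⟨hspos.ne'⟩
  have hqs : ∀ q : {q // q ∈ S}, (q : ℕ) ∣ s := by
    intro q
    rw [hs]
    exact Finset.dvd_prod_of_mem (fun q => q) q.2
  have hfact : ∀ q : {q // q ∈ S}, Fact (q : ℕ).Prime := fun q => ⟨hS q q.2⟩
  rw [map_HH]
  obtain ⟨a, ha⟩ : ∃ a, a = ZMod.unitOfCoprime m (hmR.coprime_dvd_right hsR) := ⟨_, rfl⟩
  obtain ⟨b, hb⟩ : ∃ b, b = ZMod.unitOfCoprime p (hpR.coprime_dvd_right hsR) := ⟨_, rfl⟩
  rw [← ha, ← hb]
  let e : {q // q ∈ S} → ℕ := fun q => ((q : ℕ) - 1) / Nat.gcd ((q : ℕ) - 1) Q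
  let Θ : (ZMod s)ˣ →* ((q : {q // q ∈ S}) → (ZMod (q : ℕ))ˣ) :=
    MonoidHom.pi fun q => (powMonoidHom (e q)).comp (ZMod.unitsMap (hqs q))
  have hΘ : ∀ (x : (ZMod s)ˣ) (q : {q // q ∈ S}), Θ x q = (ZMod.unitsMap (hqs q) x) ^ e q :=
    fun x q => rfl
  have hexp : ∀ x : (ZMod s)ˣ, (Θ x) ^ Q = 1 := by
    intro x
    funext q
    rw [Pi.pow_apply, hΘ, ← pow_mul, Pi.one_apply]
    have hq := hS q q.2
    have h1 : ((q : ℕ) - 1) ∣ e q * Q := by
      obtain ⟨c, hc⟩ := Nat.gcd_dvd_left ((q : ℕ) - 1) Q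
      obtain ⟨d, hd⟩ := Nat.gcd_dvd_right ((q : ℕ) - 1) Q
      have hg : 0 < Nat.gcd ((q : ℕ) - 1) Q := Nat.gcd_pos_of_pos_right _ hQ
      have h2 : e q = c := by
        exact Nat.div_eq_of_eq_mul_right hg hc
      rw [h2]
      refine ⟨d, ?_⟩
      calc c * Q = c * (Nat.gcd ((q : ℕ) - 1) Q * d) := by rw [← hd]
        _ = (Nat.gcd ((q : ℕ) - 1) Q * c) * d := by ring
        _ = ((q : ℕ) - 1) * d := by rw [← hc]
    obtain ⟨k, hk⟩ := h1
    have := hfact q
    rw [hk, pow_mul, ZMod.units_pow_card_sub_one_eq_one, one_pow]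
  rw [card_split _ Θ, mul_comm]
  apply Nat.mul_le_mul
  · rw [MonoidHom.map_closure, Set.image_pair]
    exact two_gen_card _ _ hQ (hexp _) (hexp _)
  · have h1 : Nat.card (Subgroup.closure {a, b} ⊓ Θ.ker : Subgroup (ZMod s)ˣ) ≤
        Nat.card Θ.ker := Nat.card_mono (Set.toFinite _) inf_le_right
    refine h1.trans ?_
    have h2 : ∀ x ∈ Θ.ker, ∀ q : {q // q ∈ S}, (ZMod.unitsMap (hqs q) x) ^ e q = 1 := by
      intro x hx q
      rw [← hΘ]
      have : Θ x = 1 := hx
      rw [this, Pi.one_apply]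
    obtain ⟨W, hW⟩ : ∃ W : (q : {q // q ∈ S}) → Finset (ZMod (q : ℕ))ˣ,
        W = fun q => Finset.univ.filter fun y => y ^ e q = 1 := ⟨_, rfl⟩
    have h3 : Nat.card Θ.ker ≤ (Fintype.piFinset W).card := by
      rw [← Fintype.card_coe, ← Nat.card_eq_fintype_card]
      let f : Θ.ker → {g // g ∈ Fintype.piFinset W} := fun x =>
        ⟨fun q => ZMod.unitsMap (hqs q) x, by
          rw [Fintype.mem_piFinset]
          intro q
          rw [hW]
          simp only [Finset.mem_filter, Finset.mem_univ, true_and]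
          exact h2 x x.2 q⟩
      apply Nat.card_le_card_of_injective f
      intro x y hxy
      have h4 : ∀ q : {q // q ∈ S}, ZMod.unitsMap (hqs q) (x : (ZMod s)ˣ) =
          ZMod.unitsMap (hqs q) (y : (ZMod s)ˣ) := fun q =>
        congrFun (congrArg Subtype.val hxy) q
      apply Subtype.ext
      apply Units.ext
      apply ZMod.val_injective s
      have h5 : (((x : (ZMod s)ˣ) : ZMod s)).val ≡ (((y : (ZMod s)ˣ) : ZMod s)).val [MOD s] := by
        have h7 : ∀ c d : ℕ, (∀ q ∈ S, c ≡ d [MOD q]) → c ≡ d [MOD s] := by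
          intro c d h
          rw [hs]
          exact modEq_prod S hS h
        apply h7
        intro q hq
        have h6 := congrArg (fun u : (ZMod q)ˣ => (u : ZMod q)) (h4 ⟨q, hq⟩)
        simp only [ZMod.unitsMap_val] at h6
        rw [← ZMod.natCast_eq_natCast_iff, ZMod.natCast_val, ZMod.natCast_val]
        exact h6
      exact Nat.ModEq.eq_of_lt_of_lt h5 (ZMod.val_lt _) (ZMod.val_lt _)
    refine h3.trans ?_
    rw [Fintype.card_piFinset, ← Finset.prod_coe_sort S]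
    refine Finset.prod_le_prod' fun q _ => ?_
    rw [hW]
    have := hfact q
    refine IsCyclic.card_pow_eq_one_le ?_
    have hq := (hS q q.2).two_le
    exact Nat.div_pos (Nat.le_of_dvd (by omega) (Nat.gcd_dvd_left _ _))
      (Nat.gcd_pos_of_pos_right _ hQ)

end AGQ
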