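import Mathlib

/-!
# AGQ: a small prime modulo which `n` has large order
-/

open Real

namespace AGQ

theorem theta_half : ∃ R0 : ℕ, ∀ R : ℕ, R0 ≤ R → (R : ℝ) / 2 ≤ Chebyshev.theta R := by
  have h1 : (fun x : ℝ => Real.log (x + 1)) =o[Filter.atTop] (fun x : ℝ => x) := by
    have h2 : (fun x : ℝ => Real.log (x + 1)) =O[Filter.atTop] (fun x : ℝ => Real.log x) := by
      rw [Asymptotics.isBigO_iff]
      refine ⟨2, ?_⟩
      filter_upwards [Filter.eventually_ge_atTop (2 : ℝ)] with x hx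
      have h3 : 0 ≤ Real.log (x + 1) := Real.log_nonneg (by linarith)
      have h4 : 0 ≤ Real.log x := Real.log_nonneg (by linarith)
      rw [Real.norm_of_nonneg h3, Real.norm_of_nonneg h4]
      have h5 : Real.log (x + 1) ≤ Real.log (x ^ 2) := Real.log_le_log (by linarith) (by nlinarith)
      rw [Real.log_pow] at h5
      exact_mod_cast h5
    exact h2.trans_isLittleO Real.isLittleO_log_id_atTop
  have h2 : (fun x : ℝ => 2 * √x * Real.log x) =o[Filter.atTop] (fun x : ℝ => x) := by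
    have h3 : (fun x : ℝ => Real.log x) =o[Filter.atTop] (fun x : ℝ => x ^ (1 / 2 : ℝ)) :=
      isLittleO_log_rpow_atTop (by norm_num)
    have h4 : (fun x : ℝ => 2 * √x * Real.log x) =o[Filter.atTop]
        (fun x : ℝ => 2 * √x * x ^ (1 / 2 : ℝ)) :=
      (Asymptotics.isBigO_refl (fun x : ℝ => 2 * √x) _).mul_isLittleO h3
    refine h4.trans_isBigO ?_
    rw [Asymptotics.isBigO_iff]
    refine ⟨2, ?_⟩
    filter_upwards [Filter.eventually_ge_atTop (0 : ℝ)] with x hx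
    rw [← Real.sqrt_eq_rpow, mul_assoc, Real.mul_self_sqrt hx, norm_mul]
    norm_num
  have h3 := (h1.add h2).bound (c := 1 / 10) (by norm_num)
  obtain ⟨x0, hx0⟩ := Filter.eventually_atTop.1 (h3.and (Filter.eventually_ge_atTop 1))
  refine ⟨⌈x0⌉₊, fun R hR => ?_⟩
  obtain ⟨h4, h5⟩ := hx0 R (Nat.ceil_le.1 hR)
  have h6 := Chebyshev.theta_ge R
  have h7 := le_trans (le_abs_self _) h4
  rw [Real.norm_of_nonneg (by linarith)] at h7
  have h8 := Real.log_two_gt_d9
  nlinarith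

theorem exr : ∃ R0 : ℕ, ∀ n y : ℕ, 2 ≤ n → 1 ≤ y → ∃ r : ℕ, r.Prime ∧
    (r : ℝ) ≤ 2 * (y : ℝ) ^ 2 * Real.log n + R0 + 1 ∧ ¬ r ∣ n ∧ y ≤ orderOf ((n : ℕ) : ZMod r) := by
  obtain ⟨R0, hR0⟩ := theta_half
  refine ⟨R0, fun n y hn hy => ?_⟩
  have hn' : (2 : ℝ) ≤ n := by exact_mod_cast hn
  have hln : 0 < Real.log n := Real.log_pos (by linarith)
  by_contra hcon
  push Not at hcon
  obtain ⟨R, hR⟩ : ∃ R : ℕ, R = R0 + ⌊2 * (y : ℝ) ^ 2 * Real.log n⌋₊ + 1 := ⟨_, rfl⟩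
  have hfl : (⌊2 * (y : ℝ) ^ 2 * Real.log n⌋₊ : ℝ) ≤ 2 * (y : ℝ) ^ 2 * Real.log n :=
    Nat.floor_le (by positivity)
  have hfl2 : 2 * (y : ℝ) ^ 2 * Real.log n < (⌊2 * (y : ℝ) ^ 2 * Real.log n⌋₊ : ℝ) + 1 :=
    Nat.lt_floor_add_one _
  obtain ⟨P, hP⟩ : ∃ P : ℕ, P = n * ∏ k ∈ Finset.Ico 1 y, (n ^ k - 1) := ⟨_, rfl⟩
  have hpow : ∀ k ∈ Finset.Ico 1 y, 0 < n ^ k - 1 := by
    intro k hk
    rw [Finset.mem_Ico] at hk
    have h3 : 2 ^ 1 ≤ n ^ k := (Nat.pow_le_pow_right (by norm_num) hk.1).trans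
      (Nat.pow_le_pow_left hn k)
    omega
  have hPpos : 0 < P := by
    rw [hP]
    exact Nat.mul_pos (by omega) (Finset.prod_pos hpow)
  have hdvd : primorial R ∣ P := by
    rw [primorial]
    refine Finset.prod_primes_dvd _ (fun q hq => (Finset.mem_filter.1 hq).2.prime) ?_
    intro q hq
    rw [Finset.mem_filter, Finset.mem_range] at hq
    obtain ⟨hq1, hq2⟩ := hq
    rw [hP]
    by_cases hqn : q ∣ n
    · exact hqn.mul_right _
    · have hqR : (q : ℝ) ≤ 2 * (y : ℝ) ^ 2 * Real.log n + R0 + 1 := by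
        have h3 : (q : ℝ) ≤ R := by exact_mod_cast (by omega : q ≤ R)
        rw [hR] at h3
        push_cast at h3
        linarith
      have h4 := hcon q hq2 hqR hqn
      have : Fact q.Prime := ⟨hq2⟩
      have h5 : ((n : ℕ) : ZMod q) ≠ 0 := by
        rw [Ne, ZMod.natCast_eq_zero_iff]
        exact hqn
      have h6 : 0 < orderOf ((n : ℕ) : ZMod q) := by
        rw [orderOf_pos_iff, isOfFinOrder_iff_pow_eq_one]
        refine ⟨q - 1, by have := hq2.two_le; omega, ZMod.pow_card_sub_one_eq_one h5⟩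
      have h7 : q ∣ n ^ orderOf ((n : ℕ) : ZMod q) - 1 := by
        rw [← ZMod.natCast_eq_zero_iff, Nat.cast_sub (Nat.one_le_pow _ _ (by omega))]
        push_cast
        rw [pow_orderOf_eq_one, sub_self]
      exact (h7.trans (Finset.dvd_prod_of_mem (fun k => n ^ k - 1)
        (Finset.mem_Ico.2 ⟨h6, h4⟩))).mul_left _
  have hPle : P ≤ n ^ (y ^ 2) := by
    rw [hP]
    calc n * ∏ k ∈ Finset.Ico 1 y, (n ^ k - 1) ≤ n * ∏ _k ∈ Finset.Ico 1 y, n ^ y := by
          refine Nat.mul_le_mul_left _ (Finset.prod_le_prod' fun k hk => ?_)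
          rw [Finset.mem_Ico] at hk
          exact (Nat.sub_le _ _).trans (Nat.pow_le_pow_right (by omega) hk.2.le)
      _ = n ^ (1 + y * (y - 1)) := by
          rw [Finset.prod_const, Nat.card_Ico, ← pow_mul, pow_add, pow_one]
      _ ≤ n ^ (y ^ 2) := by
          apply Nat.pow_le_pow_right (by omega)
          obtain ⟨w, rfl⟩ : ∃ w, y = w + 1 := ⟨y - 1, by omega⟩
          rw [Nat.add_sub_cancel]
          nlinarith
  have h1 : Chebyshev.theta R ≤ (y : ℝ) ^ 2 * Real.log n := by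
    rw [Chebyshev.theta_eq_log_primorial, Nat.floor_natCast]
    have h2 : (primorial R : ℝ) ≤ (n : ℝ) ^ (y ^ 2) := by
      exact_mod_cast (Nat.le_of_dvd hPpos hdvd).trans hPle
    have h3 := Real.log_le_log (by exact_mod_cast primorial_pos R) h2
    rw [Real.log_pow] at h3
    push_cast at h3
    exact h3
  have h2 := hR0 R (by omega)
  have h3 : 2 * (y : ℝ) ^ 2 * Real.log n < R := by
    rw [hR]
    push_cast
    have : (0 : ℝ) ≤ R0 := Nat.cast_nonneg _
    linarith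
  linarith

end AGQ
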