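import Pool.Agent.AGQ.Col2
import Pool.Agent.AGQ.Exr

/-!
# AGQ: the criterion in numbers
-/

open Polynomial

namespace AGQ

variable {n m p R s : ℕ}

theorem orderOf_le_card (hnm : n = p * m) (hmR : m.Coprime R) (hpR : p.Coprime R) (hR : 0 < R) :
    orderOf ((n : ℕ) : ZMod R) ≤ Nat.card (HH R hmR hpR) := by
  have : NeZero R := ⟨hR.ne'⟩
  have h3 : ZMod.unitOfCoprime m hmR * ZMod.unitOfCoprime p hpR ∈ HH R hmR hpR :=
    mul_mem (Subgroup.subset_closure (by simp)) (Subgroup.subset_closure (by simp))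
  have h4 : orderOf (ZMod.unitOfCoprime m hmR * ZMod.unitOfCoprime p hpR) ∣
      Nat.card (HH R hmR hpR) := by
    have := orderOf_dvd_natCard (⟨_, h3⟩ : HH R hmR hpR)
    rwa [Subgroup.orderOf_mk] at this
  have h6 : ((n : ℕ) : ZMod R) =
      ((ZMod.unitOfCoprime m hmR * ZMod.unitOfCoprime p hpR : (ZMod R)ˣ) : ZMod R) := by
    rw [Units.val_mul, ZMod.coe_unitOfCoprime, ZMod.coe_unitOfCoprime, hnm]
    push_cast
    ring
  rw [h6, orderOf_units]
  exact Nat.le_of_dvd Nat.card_pos h4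

/-- the admissible primes up to `J` -/
def PJ (s p J : ℕ) : Finset ℕ :=
  (Finset.range (J + 1)).filter (fun j => j.Prime ∧ ¬ j ∣ s ∧ j ≠ p)

theorem col_num {L G W J0 y : ℕ} [Fact p.Prime] (hnm : n = p * m) (hmp : ∀ j, m ≠ p ^ j)
    (hR : 0 < R) (hsR : s ∣ R) (hmR : m.Coprime R) (hpR : p.Coprime R) (hL : n ≤ 2 ^ L)
    (hm0 : m ≠ 0) (hG : Nat.card ((HH R hmR hpR).map (ZMod.unitsMap hsR)) ≤ G)
    (hy : y ≤ orderOf ((n : ℕ) : ZMod R)) (hJ0 : 1 ≤ J0) (hy2 : G * (s * J0 ^ 2 + 1) ≤ y)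
    (hW : ∀ J, J0 ≤ J → J ≤ R → J ≤ W * (PJ s p J).card) (h3 : 4 * L ^ 2 * W ^ 2 * G ≤ s) :
    ¬ (X ^ R - 1 : (ZMod n)[X]) ∣ (X - 1) ^ n - (X ^ n - 1) := by
  have : NeZero R := ⟨hR.ne'⟩
  have hs : 0 < s := Nat.pos_of_dvd_of_pos hsR hR
  have : NeZero s := ⟨hs.ne'⟩
  obtain ⟨t, ht⟩ : ∃ t : ℕ, t = Nat.card
    (HH R hmR hpR ⊓ (ZMod.unitsMap hsR).ker : Subgroup (ZMod R)ˣ) := ⟨_, rfl⟩
  obtain ⟨g, hg⟩ : ∃ g : ℕ, g = Nat.card ((HH R hmR hpR).map (ZMod.unitsMap hsR)) := ⟨_, rfl⟩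
  have hT : Nat.card (HH R hmR hpR) = t * g := by
    rw [ht, hg]
    exact card_split _ _
  rw [← hg] at hG
  have hg0 : 0 < g := by
    rw [hg]
    exact Nat.card_pos
  have hyT : y ≤ t * g := by
    rw [← hT]
    exact hy.trans (orderOf_le_card hnm hmR hpR hR)
  have hG0 : 0 < G := by omega
  have ht1 : s * J0 ^ 2 + 1 ≤ t := by
    have h4 : G * (s * J0 ^ 2 + 1) ≤ G * t := by
      refine hy2.trans (hyT.trans ?_)
      rw [mul_comm G t]
      exact Nat.mul_le_mul_left _ hG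
    exact Nat.le_of_mul_le_mul_left h4 hG0
  obtain ⟨J, hJ⟩ : ∃ J : ℕ, J = Nat.sqrt ((t - 1) / s) := ⟨_, rfl⟩
  have hJJ0 : J0 ≤ J := by
    rw [hJ, Nat.le_sqrt', Nat.le_div_iff_mul_le hs, mul_comm]
    omega
  have hJt : s * (J * J) ≤ t - 1 := by
    have h4 : J * J ≤ (t - 1) / s := by
      rw [hJ]
      exact Nat.sqrt_le _
    rw [Nat.le_div_iff_mul_le hs] at h4
    rw [mul_comm]
    exact h4
  have hJt2 : t ≤ s * ((J + 1) * (J + 1)) := by
    have h4 : (t - 1) / s < (J + 1) * (J + 1) := by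
      rw [hJ]
      exact Nat.lt_succ_sqrt _
    rw [Nat.div_lt_iff_lt_mul hs] at h4
    rw [mul_comm]
    omega
  have htR : t ≤ R := by
    have h4 : t ≤ Nat.card (ZMod R)ˣ := by
      rw [ht]
      exact Nat.card_le_card_of_injective _ (Subgroup.subtype_injective _)
    refine h4.trans ?_
    rw [Nat.card_eq_fintype_card, ZMod.card_units_eq_totient]
    exact Nat.totient_le R
  have hJR : J ≤ R := by
    have h4 : J ≤ s * (J * J) := by
      have h5 : J ≤ J * J := Nat.le_mul_self J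
      exact h5.trans (Nat.le_mul_of_pos_left _ hs)
    omega
  have hW' := hW J hJJ0 hJR
  apply col hnm hmp hR hsR hmR hpR hL hm0 (PJ s p J)
  · intro j hj
    exact (Finset.mem_filter.1 hj).2
  · rw [← ht]
    have h4 : ∑ j ∈ PJ s p J, j ≤ J * J := by
      calc ∑ j ∈ PJ s p J, j ≤ ∑ j ∈ PJ s p J, J := by
            refine Finset.sum_le_sum fun j hj => ?_
            have := (Finset.mem_filter.1 hj).1
            rw [Finset.mem_range] at this
            omega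
        _ = (PJ s p J).card * J := by rw [Finset.sum_const, smul_eq_mul]
        _ ≤ J * J := by
            apply Nat.mul_le_mul_right
            have h5 : PJ s p J ⊆ Finset.Icc 1 J := by
              intro j hj
              rw [PJ, Finset.mem_filter, Finset.mem_range] at hj
              rw [Finset.mem_Icc]
              exact ⟨hj.2.1.one_le, by omega⟩
            have := Finset.card_le_card h5
            rwa [Nat.card_Icc, Nat.add_sub_cancel] at this
    have h5 := Nat.mul_le_mul_left s h4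
    omega
  · rw [hT]
    obtain ⟨c, hc⟩ : ∃ c : ℕ, c = (PJ s p J).card := ⟨_, rfl⟩
    rw [← hc] at hW' ⊢
    have hJ1 : 1 ≤ J := hJ0.trans hJJ0
    have h4 : (J + 1) * (J + 1) ≤ 4 * (J * J) := by nlinarith
    have h5 : t ≤ s * (4 * (J * J)) := hJt2.trans (Nat.mul_le_mul_left _ h4)
    have h6 : J * J ≤ (W * c) * (W * c) := Nat.mul_le_mul hW' hW'
    calc L ^ 2 * (t * g) ≤ L ^ 2 * ((s * (4 * (J * J))) * G) :=
          Nat.mul_le_mul_left _ (Nat.mul_le_mul h5 hG)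
      _ ≤ L ^ 2 * ((s * (4 * ((W * c) * (W * c)))) * G) := by gcongr
      _ = (4 * L ^ 2 * W ^ 2 * G) * (s * (c * c)) := by ring
      _ ≤ s * (s * (c * c)) := Nat.mul_le_mul_right _ h3
      _ = (s * c) ^ 2 := by ring

/-- many admissible primes -/
theorem pj_card : ∃ R0 : ℕ, ∀ s p lam R J : ℕ, 0 < s → s ≤ 2 ^ lam → R ≤ 2 ^ lam →
    4 * lam * (lam + 1) + R0 + 1 ≤ J → J ≤ R → J ≤ 4 * lam * (PJ s p J).card := by
  classical
  obtain ⟨R0, hR0⟩ := theta_half
  refine ⟨R0, fun s p lam R J hs hsl hRl hJ hJR => ?_⟩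
  have h1 := hR0 J (by omega)
  rw [Chebyshev.theta_eq_log_primorial, Nat.floor_natCast] at h1
  obtain ⟨P, hP⟩ : ∃ P : Finset ℕ, P = (Finset.range (J + 1)).filter Nat.Prime := ⟨_, rfl⟩
  have hJpos : 0 < J := by omega
  have h2 : primorial J ≤ J ^ P.card := by
    rw [hP, primorial]
    apply Finset.prod_le_pow_card
    intro q hq
    rw [Finset.mem_filter, Finset.mem_range] at hq
    omega
  have h3 : Real.log (primorial J) ≤ P.card * Real.log J := by
    rw [← Real.log_pow]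
    apply Real.log_le_log
    · exact_mod_cast primorial_pos J
    · exact_mod_cast h2
  have h4 : Real.log J ≤ lam := by
    have h5 : (J : ℝ) ≤ 2 ^ lam := by exact_mod_cast hJR.trans hRl
    have h6 := Real.log_le_log (by exact_mod_cast hJpos) h5
    rw [Real.log_pow] at h6
    have h7 := Real.log_two_lt_d9
    have h8 : (0 : ℝ) ≤ lam := Nat.cast_nonneg _
    nlinarith
  have h5 : J ≤ 2 * lam * P.card := by
    have h6 : (P.card : ℝ) * Real.log J ≤ P.card * lam :=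
      mul_le_mul_of_nonneg_left h4 (by positivity)
    have h7 : (J : ℝ) ≤ 2 * lam * P.card := by nlinarith
    exact_mod_cast h7
  -- the primes dividing `s`
  have h6 : s.primeFactors.card ≤ lam := by
    have h7 : 2 ^ s.primeFactors.card ≤ s := by
      calc 2 ^ s.primeFactors.card ≤ ∏ q ∈ s.primeFactors, q :=
            Finset.pow_card_le_prod _ _ _ fun q hq => (Nat.prime_of_mem_primeFactors hq).two_le
        _ ≤ s := Nat.le_of_dvd hs (Nat.prod_primeFactors_dvd s)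
    exact (Nat.pow_le_pow_iff_right (by norm_num : 1 < 2)).1 (h7.trans hsl)
  have h7 : P ⊆ PJ s p J ∪ (s.primeFactors ∪ {p}) := by
    intro q hq
    rw [hP, Finset.mem_filter] at hq
    rw [Finset.mem_union, Finset.mem_union, Finset.mem_singleton]
    by_cases h8 : q ∣ s
    · exact Or.inr (Or.inl (Nat.mem_primeFactors.2 ⟨hq.2, h8, hs.ne'⟩))
    · by_cases h9 : q = p
      · exact Or.inr (Or.inr h9)
      · exact Or.inl (Finset.mem_filter.2 ⟨hq.1, hq.2, h8, h9⟩)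
  have h8 : P.card ≤ (PJ s p J).card + (lam + 1) := by
    refine (Finset.card_le_card h7).trans ((Finset.card_union_le _ _).trans ?_)
    refine Nat.add_le_add_left ((Finset.card_union_le _ _).trans ?_) _
    rw [Finset.card_singleton]
    omega
  have h9 : 2 * lam * P.card ≤ 2 * lam * ((PJ s p J).card + (lam + 1)) :=
    Nat.mul_le_mul_left _ h8
  have h10 : 2 * lam * ((PJ s p J).card + (lam + 1)) =
      2 * lam * (PJ s p J).card + 2 * lam * (lam + 1) := by ring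
  have h11 : 4 * lam * (PJ s p J).card = 2 * (2 * lam * (PJ s p J).card) := by ring
  have h12 : 4 * lam * (lam + 1) = 2 * (2 * lam * (lam + 1)) := by ring
  omega

/-- **The criterion.** -/
theorem crit3 : ∃ R0 : ℕ, ∀ (n m p R s L G y lam : ℕ) (hsR : s ∣ R) (hmR : m.Coprime R)
    (hpR : p.Coprime R), p.Prime → n = p * m → (∀ j, m ≠ p ^ j) → 0 < R → n ≤ 2 ^ L → m ≠ 0 →
    Nat.card ((HH R hmR hpR).map (ZMod.unitsMap hsR)) ≤ G →
    y ≤ orderOf ((n : ℕ) : ZMod R) → R ≤ 2 ^ lam →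
    G * (s * (4 * lam * (lam + 1) + R0 + 1) ^ 2 + 1) ≤ y → 64 * L ^ 2 * lam ^ 2 * G ≤ s →
    ¬ (X ^ R - 1 : (ZMod n)[X]) ∣ (X - 1) ^ n - (X ^ n - 1) := by
  obtain ⟨R0, hR0⟩ := pj_card
  refine ⟨R0, ?_⟩
  intro n m p R s L G y lam hsR hmR hpR hp hnm hmp hR hL hm0 hG hy hlam hy2 h3
  have : Fact p.Prime := ⟨hp⟩
  have hs : 0 < s := Nat.pos_of_dvd_of_pos hsR hR
  apply col_num (W := 4 * lam) (J0 := 4 * lam * (lam + 1) + R0 + 1) hnm hmp hR hsR hmR hpR hL hm0
    hG hy (by omega) hy2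
  · intro J hJ hJR
    exact hR0 s p lam R J hs ((Nat.le_of_dvd hR hsR).trans hlam) hlam hJ hJR
  · calc 4 * L ^ 2 * (4 * lam) ^ 2 * G = 64 * L ^ 2 * lam ^ 2 * G := by ring
      _ ≤ s := h3

end AGQ
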