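import Mathlib

/-!
# AGQ: Turan's inequality
-/

open Finset

namespace AGQ

/-- the number of prime factors in `P` -/
def om (P : Finset ℕ) (r : ℕ) : ℕ := (P.filter fun q => q ∣ r).card

theorem om_eq (P : Finset ℕ) (r : ℕ) : (om P r : ℝ) = ∑ q ∈ P, if q ∣ r then (1 : ℝ) else 0 := by
  unfold om
  rw [card_filter]
  push_cast
  rfl

theorem sum_dvd (x q : ℕ) : ∑ r ∈ Icc 1 x, (if q ∣ r then (1 : ℝ) else 0) = ((x / q : ℕ) : ℝ) := by
  rw [← sum_filter, sum_const, nsmul_eq_mul, mul_one]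
  congr 1
  have h : Icc 1 x = Ioc 0 x := rfl
  rw [h, Nat.Ioc_filter_dvd_card_eq_div]

theorem turan (P : Finset ℕ) (hP : ∀ q ∈ P, q.Prime) (x : ℕ) (hPx : P.card ≤ x) {E : ℝ}
    (hE : E = ∑ q ∈ P, 1 / (q : ℝ)) (hE0 : 0 < E) :
    (((Icc 1 x).filter fun r => (om P r : ℝ) < E / 2).card : ℝ) ≤ 12 * x / E := by
  classical
  have hx0 : (0 : ℝ) ≤ x := Nat.cast_nonneg x
  have hPx' : (P.card : ℝ) ≤ x := by exact_mod_cast hPx
  -- first moment
  have h1 : x * E - P.card ≤ ∑ r ∈ Icc 1 x, (om P r : ℝ) := by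
    simp_rw [om_eq]
    rw [sum_comm]
    simp_rw [sum_dvd]
    rw [hE, mul_sum]
    have h2 : ∑ q ∈ P, ((x : ℝ) * (1 / q)) - P.card = ∑ q ∈ P, ((x : ℝ) * (1 / q) - 1) := by
      rw [sum_sub_distrib, sum_const, nsmul_eq_mul, mul_one]
    rw [h2]
    refine sum_le_sum fun q hq => ?_
    have h3 : (0 : ℝ) < q := by exact_mod_cast (hP q hq).pos
    have h4 := Nat.lt_div_mul_add (a := x) (hP q hq).pos
    have h5 : (x : ℝ) < ((x / q : ℕ) : ℝ) * q + q := by exact_mod_cast h4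
    rw [mul_one_div, sub_le_iff_le_add, div_le_iff₀ h3]
    nlinarith
  -- second moment
  have h2 : ∑ r ∈ Icc 1 x, (om P r : ℝ) ^ 2 ≤ x * E ^ 2 + x * E := by
    have h3 : ∀ r : ℕ, (om P r : ℝ) ^ 2 = ∑ q ∈ P, ∑ q' ∈ P,
        (if q ∣ r ∧ q' ∣ r then (1 : ℝ) else 0) := by
      intro r
      rw [om_eq, sq, sum_mul_sum]
      refine sum_congr rfl fun q _ => sum_congr rfl fun q' _ => ?_
      by_cases h4 : q ∣ r <;> by_cases h5 : q' ∣ r <;> simp [h4, h5]
    simp_rw [h3]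
    rw [sum_comm]
    have h4 : ∀ q ∈ P, ∑ r ∈ Icc 1 x, ∑ q' ∈ P, (if q ∣ r ∧ q' ∣ r then (1 : ℝ) else 0) ≤
        ∑ q' ∈ P, (x : ℝ) * (1 / q * (1 / q')) + x * (1 / q) := by
      intro q hq
      rw [sum_comm]
      have hq0 : (0 : ℝ) < q := by exact_mod_cast (hP q hq).pos
      have h5 : ∀ q' ∈ P, ∑ r ∈ Icc 1 x, (if q ∣ r ∧ q' ∣ r then (1 : ℝ) else 0) ≤
          (x : ℝ) * (1 / q * (1 / q')) + if q' = q then (x : ℝ) * (1 / q) else 0 := by
        intro q' hq'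
        have hq'0 : (0 : ℝ) < q' := by exact_mod_cast (hP q' hq').pos
        by_cases h6 : q' = q
        · subst h6
          rw [if_pos rfl]
          simp only [and_self]
          rw [sum_dvd]
          have h7 : ((x / q' : ℕ) : ℝ) ≤ (x : ℝ) / q' := Nat.cast_div_le
          have h8 : (0 : ℝ) ≤ (x : ℝ) * (1 / q' * (1 / q')) := by positivity
          have h9 : (x : ℝ) * (1 / (q' : ℝ)) = (x : ℝ) / q' := mul_one_div _ _
          linarith
        · rw [if_neg h6, add_zero]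
          have h7 : ∀ r, (q ∣ r ∧ q' ∣ r) ↔ q * q' ∣ r := by
            intro r
            constructor
            · rintro ⟨h8, h9⟩
              exact (Nat.Coprime.mul_dvd_of_dvd_of_dvd
                ((Nat.coprime_primes (hP q hq) (hP q' hq')).2 (Ne.symm h6)) h8 h9)
            · intro h8
              exact ⟨(Dvd.intro _ rfl).trans h8, (Dvd.intro_left _ rfl).trans h8⟩
          simp_rw [h7]
          rw [sum_dvd]
          refine Nat.cast_div_le.trans (le_of_eq ?_)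
          push_cast
          field_simp
      refine (sum_le_sum h5).trans ?_
      rw [sum_add_distrib, sum_ite_eq' P q, if_pos hq]
    refine (sum_le_sum h4).trans (le_of_eq ?_)
    rw [sum_add_distrib, ← mul_sum, ← hE]
    congr 1
    have h5 : ∑ q ∈ P, ∑ q' ∈ P, (x : ℝ) * (1 / q * (1 / q')) =
        x * ((∑ q ∈ P, 1 / (q : ℝ)) * ∑ q' ∈ P, 1 / (q' : ℝ)) := by
      rw [sum_mul_sum, mul_sum]
      refine sum_congr rfl fun q _ => ?_
      rw [mul_sum]
    rw [h5, ← hE, sq]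
  -- the variance
  have h3 : ∑ r ∈ Icc 1 x, ((om P r : ℝ) - E) ^ 2 ≤ 3 * x * E := by
    have h4 : ∑ r ∈ Icc 1 x, ((om P r : ℝ) - E) ^ 2 = ∑ r ∈ Icc 1 x, (om P r : ℝ) ^ 2 -
        2 * E * ∑ r ∈ Icc 1 x, (om P r : ℝ) + x * E ^ 2 := by
      have h5 : (x : ℝ) * E ^ 2 = ∑ _r ∈ Icc 1 x, E ^ 2 := by
        rw [sum_const, Nat.card_Icc, nsmul_eq_mul, Nat.add_sub_cancel]
      rw [h5, mul_sum, ← sum_sub_distrib, ← sum_add_distrib]
      refine sum_congr rfl fun r _ => ?_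
      ring
    rw [h4]
    nlinarith [mul_le_mul_of_nonneg_left h1 hE0.le, mul_le_mul_of_nonneg_left hPx' hE0.le]
  -- Chebyshev
  rw [le_div_iff₀ hE0]
  have h4 : (((Icc 1 x).filter fun r => (om P r : ℝ) < E / 2).card : ℝ) * (E / 2) ^ 2 ≤
      ∑ r ∈ Icc 1 x, ((om P r : ℝ) - E) ^ 2 := by
    calc (((Icc 1 x).filter fun r => (om P r : ℝ) < E / 2).card : ℝ) * (E / 2) ^ 2 =
          ∑ _r ∈ (Icc 1 x).filter fun r => (om P r : ℝ) < E / 2, (E / 2) ^ 2 := by
          rw [sum_const, nsmul_eq_mul]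
      _ ≤ ∑ r ∈ (Icc 1 x).filter fun r => (om P r : ℝ) < E / 2, ((om P r : ℝ) - E) ^ 2 := by
          refine sum_le_sum fun r hr => ?_
          rw [mem_filter] at hr
          have h5 := hr.2
          nlinarith
      _ ≤ ∑ r ∈ Icc 1 x, ((om P r : ℝ) - E) ^ 2 :=
          sum_le_sum_of_subset_of_nonneg (filter_subset _ _) fun r _ _ => sq_nonneg _
  have h5 := h4.trans h3
  have h6 : (((Icc 1 x).filter fun r => (om P r : ℝ) < E / 2).card : ℝ) * E * E ≤
      12 * x * E := by nlinarith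
  exact le_of_mul_le_mul_right h6 hE0

end AGQ
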