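import Pool.Agent.AGQ.Rec
import Pool.Agent.AGQ.Tur
import Pool.Agent.AGQ.Num
import Pool.Agent.AGQ.Idx

/-!
# AGQ: selection of the prime factors, small orders, the criterion for `r`
-/

open Finset

namespace AGQ

theorem sel (Λ : Finset ℕ) (hΛ : ∀ l ∈ Λ, l.Prime) (k : ℕ → ℕ) (N r : ℕ)
    (h : ∀ l ∈ Λ, k l ≤ om (P1 l N) r) : ∃ S : Finset ℕ, (∀ q ∈ S, q.Prime ∧ q ≤ N ∧ q ∣ r) ∧
      S.card ≤ ∑ l ∈ Λ, k l ∧
      ∏ l ∈ Λ, l ^ k l ≤ ∏ q ∈ S, Nat.gcd (q - 1) (∏ l ∈ Λ, l) := by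
  classical
  have h1 : ∀ l ∈ Λ, ∃ A : Finset ℕ, A ⊆ (P1 l N).filter (fun q => q ∣ r) ∧ A.card = k l :=
    fun l hl => exists_subset_card_eq (h l hl)
  choose! A hA hAc using h1
  have hAm : ∀ l ∈ Λ, ∀ q ∈ A l, q.Prime ∧ q ≤ N ∧ q ∣ r ∧ (q : ZMod l) = 1 := by
    intro l hl q hq
    have h2 := hA l hl hq
    rw [mem_filter, P1, mem_filter, mem_range] at h2
    exact ⟨h2.1.2.1, by omega, h2.2, h2.1.2.2⟩
  refine ⟨Λ.biUnion A, ?_, ?_, ?_⟩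
  · intro q hq
    obtain ⟨l, hl, hql⟩ := mem_biUnion.1 hq
    obtain ⟨g1, g2, g3, -⟩ := hAm l hl q hql
    exact ⟨g1, g2, g3⟩
  · refine card_biUnion_le.trans (sum_le_sum fun l hl => ?_)
    rw [hAc l hl]
  · have h2 : ∏ l ∈ Λ, l ^ k l = ∏ q ∈ Λ.biUnion A, ∏ l ∈ Λ.filter (fun l => q ∈ A l), l := by
      have h3 : ∀ l ∈ Λ, l ^ k l = ∏ q ∈ Λ.biUnion A, if q ∈ A l then l else 1 := by
        intro l hl
        rw [← prod_filter]
        have h4 : (Λ.biUnion A).filter (fun q => q ∈ A l) = A l := by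
          ext q
          rw [mem_filter, mem_biUnion]
          exact ⟨fun h => h.2, fun h => ⟨⟨l, hl, h⟩, h⟩⟩
        rw [h4, prod_const, hAc l hl]
      rw [prod_congr rfl h3, prod_comm]
      refine prod_congr rfl fun q _ => ?_
      rw [prod_filter]
    rw [h2]
    refine prod_le_prod' fun q hq => ?_
    obtain ⟨l₀, hl₀, hql₀⟩ := mem_biUnion.1 hq
    have hqp := (hAm l₀ hl₀ q hql₀).1
    have hdvd : ∏ l ∈ Λ.filter (fun l => q ∈ A l), l ∣ Nat.gcd (q - 1) (∏ l ∈ Λ, l) := by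
      apply Nat.dvd_gcd
      · refine prod_primes_dvd _ (fun l hl => (hΛ l (mem_filter.1 hl).1).prime) fun l hl => ?_
        rw [mem_filter] at hl
        have h5 := (hAm l hl.1 q hl.2).2.2.2
        rw [← ZMod.natCast_eq_zero_iff, Nat.cast_sub hqp.one_le, h5, Nat.cast_one, sub_self]
      · exact prod_dvd_prod_of_subset _ _ _ (filter_subset _ _)
    refine Nat.le_of_dvd (Nat.gcd_pos_of_pos_right _ ?_) hdvd
    exact prod_pos fun l hl => (hΛ l hl).pos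

/-- few primes modulo which the order is small -/
theorem small_ord_count {n y : ℕ} (hn : 2 ≤ n) (B : Finset ℕ)
    (hB : ∀ q ∈ B, q.Prime ∧ ¬ q ∣ n ∧ orderOf ((n : ℕ) : ZMod q) < y) :
    (B.card : ℝ) ≤ 2 * (y : ℝ) ^ 2 * Real.log n := by
  have hn' : (2 : ℝ) ≤ n := by exact_mod_cast hn
  have hln : 0 < Real.log n := Real.log_pos (by linarith)
  have hpow : ∀ k ∈ Ico 1 y, 0 < n ^ k - 1 := by
    intro k hk
    rw [mem_Ico] at hk
    have h3 : 2 ^ 1 ≤ n ^ k := (Nat.pow_le_pow_right (by norm_num) hk.1).trans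
      (Nat.pow_le_pow_left hn k)
    omega
  have hpos : 0 < ∏ k ∈ Ico 1 y, (n ^ k - 1) := prod_pos hpow
  have h1 : ∏ q ∈ B, q ∣ ∏ k ∈ Ico 1 y, (n ^ k - 1) := by
    refine prod_primes_dvd _ (fun q hq => (hB q hq).1.prime) fun q hq => ?_
    obtain ⟨g1, g2, g3⟩ := hB q hq
    have : Fact q.Prime := ⟨g1⟩
    have h5 : ((n : ℕ) : ZMod q) ≠ 0 := by
      rw [Ne, ZMod.natCast_eq_zero_iff]
      exact g2
    have h6 : 0 < orderOf ((n : ℕ) : ZMod q) := by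
      rw [orderOf_pos_iff, isOfFinOrder_iff_pow_eq_one]
      refine ⟨q - 1, by have := g1.two_le; omega, ZMod.pow_card_sub_one_eq_one h5⟩
    have h7 : q ∣ n ^ orderOf ((n : ℕ) : ZMod q) - 1 := by
      rw [← ZMod.natCast_eq_zero_iff, Nat.cast_sub (Nat.one_le_pow _ _ (by omega))]
      push_cast
      rw [pow_orderOf_eq_one, sub_self]
    exact h7.trans (dvd_prod_of_mem (fun k => n ^ k - 1) (mem_Ico.2 ⟨h6, g3⟩))
  have h2 : 2 ^ B.card ≤ n ^ (y ^ 2) := by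
    calc 2 ^ B.card ≤ ∏ q ∈ B, q := pow_card_le_prod _ _ _ fun q hq => (hB q hq).1.two_le
      _ ≤ ∏ k ∈ Ico 1 y, (n ^ k - 1) := Nat.le_of_dvd hpos h1
      _ ≤ ∏ _k ∈ Ico 1 y, n ^ y := by
          refine prod_le_prod' fun k hk => ?_
          rw [mem_Ico] at hk
          exact (Nat.sub_le _ _).trans (Nat.pow_le_pow_right (by omega) hk.2.le)
      _ = n ^ (y * (y - 1)) := by rw [prod_const, Nat.card_Ico, ← pow_mul]
      _ ≤ n ^ (y ^ 2) := by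
          apply Nat.pow_le_pow_right (by omega)
          rw [sq]
          exact Nat.mul_le_mul_left _ (Nat.sub_le _ _)
  have h3 : ((2 : ℝ)) ^ B.card ≤ (n : ℝ) ^ (y ^ 2) := by exact_mod_cast h2
  have h4 := Real.log_le_log (by positivity) h3
  rw [Real.log_pow, Real.log_pow] at h4
  push_cast at h4
  have h5 := Real.log_two_gt_d9
  have h6 : (0 : ℝ) ≤ B.card := Nat.cast_nonneg _
  nlinarith

/-- numbers divisible by a large element of a set -/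
theorem count_dvd (B : Finset ℕ) {Z : ℝ} (hZ : 0 < Z) (hB : ∀ q ∈ B, Z ≤ q) (x : ℕ) (S : Finset ℕ)
    (hS : ∀ r ∈ S, 0 < r ∧ r ≤ x ∧ ∃ q ∈ B, q ∣ r) : (S.card : ℝ) ≤ B.card * (x / Z) := by
  classical
  have h1 : S ⊆ B.biUnion fun q => (Ioc 0 x).filter fun r => q ∣ r := by
    intro r hr
    obtain ⟨g1, g2, q, hq, g3⟩ := hS r hr
    rw [mem_biUnion]
    exact ⟨q, hq, mem_filter.2 ⟨mem_Ioc.2 ⟨g1, g2⟩, g3⟩⟩
  have h2 : S.card ≤ ∑ q ∈ B, x / q := by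
    refine (card_le_card h1).trans (card_biUnion_le.trans (sum_le_sum fun q _ => ?_))
    rw [Nat.Ioc_filter_dvd_card_eq_div]
  calc (S.card : ℝ) ≤ ((∑ q ∈ B, x / q : ℕ) : ℝ) := by exact_mod_cast h2
    _ ≤ ∑ q ∈ B, (x : ℝ) / Z := by
        rw [Nat.cast_sum]
        refine sum_le_sum fun q hq => ?_
        refine Nat.cast_div_le.trans ?_
        exact div_le_div_of_nonneg_left (by positivity) hZ (hB q hq)
    _ = B.card * (x / Z) := by rw [sum_const, nsmul_eq_mul]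

theorem ord_mono {n q R : ℕ} (hq : q ∣ R) (hR : 0 < R) (hn : n.Coprime R) :
    orderOf ((n : ℕ) : ZMod q) ≤ orderOf ((n : ℕ) : ZMod R) := by
  have : NeZero R := ⟨hR.ne'⟩
  have h1 : 0 < orderOf ((n : ℕ) : ZMod R) := by
    have h2 : ((n : ℕ) : ZMod R) = ((ZMod.unitOfCoprime n hn : (ZMod R)ˣ) : ZMod R) := by
      rw [ZMod.coe_unitOfCoprime]
    rw [h2, orderOf_units]
    exact orderOf_pos _
  apply Nat.le_of_dvd h1
  have h2 : ((n : ℕ) : ZMod q) = ZMod.castHom hq (ZMod q) ((n : ℕ) : ZMod R) := by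
    rw [map_natCast]
  rw [h2]
  exact orderOf_map_dvd (ZMod.castHom hq (ZMod q) : ZMod R →* ZMod q) _

/-- the criterion for `r` -/
theorem crit4 : ∃ R0 : ℕ, ∀ (n p m L y lam Q q₀ r : ℕ) (S : Finset ℕ), p.Prime → n = p * m →
    (∀ j, m ≠ p ^ j) → n ≤ 2 ^ L → m ≠ 0 → 0 < Q → (∀ q ∈ S, q.Prime ∧ q ∣ r ∧ q < q₀) →
    q₀.Prime → q₀ ∣ r → n.Coprime r → (∏ q ∈ S, q) * q₀ ≤ 2 ^ lam →
    64 * L ^ 2 * lam ^ 2 * Q ^ 2 ≤ ∏ q ∈ S, Nat.gcd (q - 1) Q →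
    y ≤ orderOf ((n : ℕ) : ZMod q₀) →
    Q ^ 2 * (∏ q ∈ S, q) * ((∏ q ∈ S, q) * (4 * lam * (lam + 1) + R0 + 1) ^ 2 + 1) ≤ y →
    ¬ (Polynomial.X ^ r - 1 : Polynomial (ZMod n)) ∣
      (Polynomial.X - 1) ^ n - (Polynomial.X ^ n - 1) := by
  obtain ⟨R0, hR0⟩ := crit3
  refine ⟨R0, ?_⟩
  intro n p m L y lam Q q₀ r S hp hnm hmp hL hm0 hQ hS hq₀ hq₀r hnr hlam hgcd hy hyy hst
  obtain ⟨s, hs⟩ : ∃ s : ℕ, s = ∏ q ∈ S, q := ⟨_, rfl⟩
  rw [← hs] at hlam hyy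
  have hs0 : 0 < s := by
    rw [hs]
    exact prod_pos fun q hq => (hS q hq).1.pos
  have hsr : s ∣ r := by
    rw [hs]
    exact prod_primes_dvd _ (fun q hq => (hS q hq).1.prime) fun q hq => (hS q hq).2.1
  have hcop : s.Coprime q₀ := by
    rw [hs]
    apply Nat.Coprime.prod_left
    intro q hq
    rw [Nat.coprime_primes (hS q hq).1 hq₀]
    exact (hS q hq).2.2.ne
  have hRr : s * q₀ ∣ r := hcop.mul_dvd_of_dvd_of_dvd hsr hq₀r
  have hnR : n.Coprime (s * q₀) := hnr.coprime_dvd_right hRr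
  have hmR : m.Coprime (s * q₀) := Nat.Coprime.coprime_dvd_left ⟨p, by rw [hnm, mul_comm]⟩ hnR
  have hpR : p.Coprime (s * q₀) := Nat.Coprime.coprime_dvd_left ⟨m, hnm⟩ hnR
  have hR : 0 < s * q₀ := Nat.mul_pos hs0 hq₀.pos
  obtain ⟨G, hG⟩ : ∃ G : ℕ, G = Q ^ 2 * ∏ q ∈ S, ((q - 1) / Nat.gcd (q - 1) Q) := ⟨_, rfl⟩
  have hGs : G ≤ Q ^ 2 * s := by
    rw [hG, hs]
    refine Nat.mul_le_mul_left _ (prod_le_prod' fun q _ => ?_)
    exact (Nat.div_le_self _ _).trans (Nat.sub_le _ _)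
  have hGg : G * ∏ q ∈ S, Nat.gcd (q - 1) Q ≤ Q ^ 2 * s := by
    rw [hG, mul_assoc, ← prod_mul_distrib, hs]
    refine Nat.mul_le_mul_left _ (prod_le_prod' fun q _ => ?_)
    exact (Nat.div_mul_le_self _ _).trans (Nat.sub_le _ _)
  apply hR0 n m p (s * q₀) s L G y lam (Dvd.intro _ rfl) hmR hpR hp hnm hmp hR hL hm0 _ _ hlam _ _
  · refine dvd_trans ?_ hst
    obtain ⟨k, hk⟩ := hRr
    have h4 := sub_dvd_pow_sub_pow (Polynomial.X ^ (s * q₀) : Polynomial (ZMod n)) 1 k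
    rwa [one_pow, ← pow_mul, ← hk] at h4
  · rw [hG]
    exact card_map_idx _ _ _ hQ S (fun q hq => (hS q hq).1) hs
  · exact hy.trans (ord_mono (Dvd.intro_left _ rfl) hR hnR)
  · refine le_trans ?_ hyy
    exact Nat.mul_le_mul_right _ hGs
  · have h1 : (64 * L ^ 2 * lam ^ 2 * G) * Q ^ 2 ≤ s * Q ^ 2 := by
      calc (64 * L ^ 2 * lam ^ 2 * G) * Q ^ 2 = G * (64 * L ^ 2 * lam ^ 2 * Q ^ 2) := by ring
        _ ≤ G * ∏ q ∈ S, Nat.gcd (q - 1) Q := Nat.mul_le_mul_left _ hgcd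
        _ ≤ Q ^ 2 * s := hGg
        _ = s * Q ^ 2 := by ring
    exact Nat.le_of_mul_le_mul_right h1 (by positivity)

end AGQ
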