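import Pool.Agent.AGQ.Asy
import Pool.Agent.AGQ.Sel
import Pool.Agent.AGQ.Bpp
import Pool.Agent.AGQ.Tur3

/-!
# AGQ: theorem B for numbers which are not prime powers
-/

open Finset Real Filter Topology

namespace AGQ

/-- a finite set of primes with large reciprocal sum -/
theorem exists_primes (K : ℝ) : ∃ Λ : Finset ℕ, (∀ l ∈ Λ, l.Prime) ∧ K ≤ ∑ l ∈ Λ, 1 / (l : ℝ) := by
  have h1 := not_summable_one_div_on_primes
  have h0 : ∀ n : ℕ, 0 ≤ Set.indicator {p : ℕ | p.Prime} (fun n : ℕ => (1 : ℝ) / n) n := by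
    intro n
    exact Set.indicator_nonneg (fun n _ => by positivity) n
  rw [not_summable_iff_tendsto_nat_atTop_of_nonneg h0] at h1
  obtain ⟨N, hN⟩ := (h1.eventually_ge_atTop K).exists
  refine ⟨(range N).filter Nat.Prime, fun l hl => (mem_filter.1 hl).2, hN.trans (le_of_eq ?_)⟩
  simp only [Set.indicator_apply, Set.mem_ofPred_eq]
  rw [← sum_filter]

theorem bnp {ε : ℝ} (hε : 0 < ε) (hε1 : ε ≤ 1) : ∃ c : ℝ, 0 < c ∧ ∃ n₁ : ℕ, ∀ n : ℕ, n₁ ≤ n →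
    ∀ p m : ℕ, p.Prime → n = p * m → (∀ j, m ≠ p ^ j) → ∀ x : ℕ, exp ((log n) ^ ε) ≤ x →
    ∀ S : Finset ℕ, (∀ r ∈ S, 0 < r ∧ r ≤ x ∧ n.Coprime r ∧ AKR.Star n r) →
      (S.card : ℝ) ≤ x / (log n) ^ c := by
  classical
  have hlog2 : 0 < log 2 := log_pos (by norm_num)
  obtain ⟨R0, hR0⟩ := crit4
  obtain ⟨Λ, hΛ, hΛK⟩ := exists_primes (3264 / (ε * log 2))
  obtain ⟨C1, hC1⟩ := range_sum (α := 3 * ε / 4) (β := 7 * ε / 8) (by positivity) (by linarith)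
  obtain ⟨Q, hQ⟩ : ∃ Q : ℕ, Q = ∏ l ∈ Λ, l := ⟨_, rfl⟩
  have hQ0 : 0 < Q := by
    rw [hQ]
    exact prod_pos fun l hl => (hΛ l hl).pos
  have hQ0' : (0 : ℝ) < Q := by exact_mod_cast hQ0
  have hΛpos : ∀ l ∈ Λ, (0 : ℝ) < l := fun l hl => by exact_mod_cast (hΛ l hl).pos
  have hΛQ : ∀ l ∈ Λ, (l : ℝ) ≤ Q := by
    intro l hl
    have h1 : l ∣ Q := by
      rw [hQ]
      exact dvd_prod_of_mem (fun l => l) hl
    exact_mod_cast Nat.le_of_dvd hQ0 h1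
  have hlog : Tendsto (fun n : ℕ => Real.log n) atTop atTop :=
    Real.tendsto_log_atTop.comp tendsto_natCast_atTop_atTop
  -- the eventual conditions
  have e2 : ∀ᶠ l : ℝ in atTop, ∀ l₀ ∈ Λ,
      ε / (16 * (l₀ : ℝ)) * log l ≤ ∑ q ∈ P1 l₀ ⌊exp (l ^ (ε / 4))⌋₊, 1 / (q : ℝ) := by
    rw [Filter.eventually_all_finset]
    intro l₀ hl₀
    filter_upwards [P1_range (α := ε / 4) l₀ (hΛ l₀ hl₀).pos (by positivity)] with l hl
    refine le_trans (le_of_eq ?_) hl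
    have := hΛpos l₀ hl₀
    field_simp
    ring
  have e3 : ∀ᶠ l : ℝ in atTop, 0 + Λ.card * log l + 0 * l ^ (0 : ℝ) ≤ l ^ (ε / 8) :=
    ev_pow (by positivity) (by positivity) _ _ _
  have e4 : ∀ᶠ l : ℝ in atTop, 0 + 0 * log l + 2 * l ^ (7 * ε / 8) ≤ l ^ (1 : ℝ) :=
    ev_pow (by norm_num) (by linarith) _ _ _
  have e5 : ∀ᶠ l : ℝ in atTop, log (2 * Q ^ 2 * (50 + R0) ^ 2) + 4 * log l +
      2 * l ^ (3 * ε / 8) ≤ l ^ (ε / 2) :=
    ev_pow (by positivity) (by linarith) _ _ _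
  have e6 : ∀ᶠ l : ℝ in atTop, log (5184 * Q ^ 2 * 2 ^ Λ.card) ≤ 2 * log l :=
    (Tendsto.const_mul_atTop (by norm_num) Real.tendsto_log_atTop).eventually_ge_atTop _
  have e7 : ∀ᶠ l : ℝ in atTop, log 8 + 2 * log l + 2 * l ^ (ε / 2) ≤ l ^ (3 * ε / 4) :=
    ev_pow (by positivity) (by linarith) _ _ _
  have e8 : ∀ᶠ l : ℝ in atTop, C1 ≤ ε / 16 * log l :=
    (Tendsto.const_mul_atTop (by positivity) Real.tendsto_log_atTop).eventually_ge_atTop _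
  have e9 : ∀ᶠ l : ℝ in atTop, 3 ≤ l := eventually_ge_atTop 3
  have e10 : ∀ᶠ l : ℝ in atTop, ∀ l₀ ∈ Λ, ∀ (x W : ℕ) (P : Finset ℕ),
      (∀ q ∈ P, q.Prime ∧ q ≤ W) → (W : ℝ) ≤ exp (l ^ (ε / 4)) →
      ε / (16 * (l₀ : ℝ)) * log l ≤ ∑ q ∈ P, 1 / (q : ℝ) → exp (l ^ ε) ≤ x →
      (((Icc 1 x).filter fun r => 2 * om P r < ⌊ε / (16 * (l₀ : ℝ)) / 17 * log l⌋₊).card : ℝ) ≤
        x / l ^ (ε / (16 * (l₀ : ℝ)) / 34) := by
    rw [Filter.eventually_all_finset]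
    intro l₀ hl₀
    have := hΛpos l₀ hl₀
    exact few_asy (by positivity) (by positivity) (by linarith)
  have e11 := few_asy (κ := ε / 16) (β := 7 * ε / 8) (ε := ε) (by positivity) (by positivity)
    (by linarith)
  have e12 : ∀ᶠ l : ℝ in atTop, (1 : ℝ) + 1 ≤ ε / 16 / 17 * log l :=
    (Tendsto.const_mul_atTop (by positivity) Real.tendsto_log_atTop).eventually_ge_atTop _
  have e13 : ∀ᶠ l : ℝ in atTop, (Λ.card : ℝ) + 2 ≤ l ^ (ε / (1088 * (Q : ℝ))) :=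
    (tendsto_rpow_atTop (by positivity)).eventually_ge_atTop _
  obtain ⟨n₁, hn₁⟩ := eventually_atTop.1 ((hlog.eventually
    (hC1.and (e2.and (e3.and (e4.and (e5.and (e6.and (e7.and (e8.and (e9.and
      (e10.and (e11.and (e12.and e13))))))))))))).and
    (eventually_ge_atTop 2))
  refine ⟨ε / (1088 * (Q : ℝ)), by positivity, n₁, ?_⟩
  intro n hn p m hp hnm hmp x hx S hS
  obtain ⟨⟨⟨g1, g2, g3⟩, g4, g5, g6, g7, g8, g9, g10, g11, g12, g13, g14, g15⟩, hn2⟩ := hn₁ n hn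
  obtain ⟨l, hl⟩ : ∃ l : ℝ, l = log n := ⟨_, rfl⟩
  rw [← hl] at g1 g2 g3 g4 g5 g6 g7 g8 g9 g10 g11 g12 g13 g14 g15 hx ⊢
  have hl0 : 0 < l := by linarith
  have hl1 : 1 ≤ l := by linarith
  have hll : 0 < log l := Real.log_pos (by linarith)
  have hlll : log l ≤ l := (Real.log_le_sub_one_of_pos hl0).trans (by linarith)
  rw [zero_mul, add_zero, zero_add] at g5
  rw [zero_mul, zero_add, zero_add, Real.rpow_one] at g6
  obtain ⟨N, hN⟩ : ∃ N : ℕ, N = ⌊exp (l ^ (ε / 4))⌋₊ := ⟨_, rfl⟩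
  obtain ⟨Z1, hZ1⟩ : ∃ Z1 : ℕ, Z1 = ⌈exp (l ^ (3 * ε / 4))⌉₊ := ⟨_, rfl⟩
  obtain ⟨Z2, hZ2⟩ : ∃ Z2 : ℕ, Z2 = ⌊exp (l ^ (7 * ε / 8))⌋₊ := ⟨_, rfl⟩
  obtain ⟨y, hy⟩ : ∃ y : ℕ, y = ⌈exp (l ^ (ε / 2))⌉₊ := ⟨_, rfl⟩
  rw [← hZ1] at g1
  rw [← hZ1, ← hZ2] at g2 g3
  rw [← hN] at g4
  have hn0' : (0 : ℝ) < n := by
    have : 0 < n := by omega
    exact_mod_cast this
  have hel : exp l = n := by rw [hl, Real.exp_log hn0']
  have hmono : ∀ {a b : ℝ}, a ≤ b → l ^ a ≤ l ^ b :=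
    fun h => Real.rpow_le_rpow_of_exponent_le hl1 h
  have hN' : (N : ℝ) ≤ exp (l ^ (ε / 4)) := by rw [hN]; exact Nat.floor_le (by positivity)
  have hZ1' : exp (l ^ (3 * ε / 4)) ≤ Z1 := by rw [hZ1]; exact Nat.le_ceil _
  have hZ2' : (Z2 : ℝ) ≤ exp (l ^ (7 * ε / 8)) := by
    rw [hZ2]
    exact Nat.floor_le (by positivity)
  have hy' : exp (l ^ (ε / 2)) ≤ y := by rw [hy]; exact Nat.le_ceil _
  have hy'' : (y : ℝ) ≤ 2 * exp (l ^ (ε / 2)) := by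
    have h1 : (y : ℝ) < exp (l ^ (ε / 2)) + 1 := by
      rw [hy]
      exact Nat.ceil_lt_add_one (by positivity)
    have h2 : 1 ≤ exp (l ^ (ε / 2)) := Real.one_le_exp (by positivity)
    linarith
  have hxpos : (0 : ℝ) < x := lt_of_lt_of_le (Real.exp_pos _) hx
  have hxle : ∀ (v : ℕ) (b : ℝ), b ≤ ε → (v : ℝ) ≤ exp (l ^ b) → v ≤ x := by
    intro v b hb hv
    have h1 : (v : ℝ) ≤ x := hv.trans ((Real.exp_le_exp.2 (hmono hb)).trans hx)
    exact_mod_cast h1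
  -- the numbers `k`
  have hll1 : 1 ≤ log l := by
    rw [← Real.log_exp 1]
    apply Real.log_le_log (Real.exp_pos _)
    have := Real.exp_one_lt_d9
    linarith
  obtain ⟨J, hJ⟩ : ∃ J : ℕ → ℕ, J = fun l₀ : ℕ => ⌊ε / (16 * (l₀ : ℝ)) / 17 * log l⌋₊ := ⟨_, rfl⟩
  obtain ⟨k, hk⟩ : ∃ k : ℕ → ℕ, k = fun l₀ : ℕ => (J l₀ + 1) / 2 := ⟨_, rfl⟩
  have hJ1 : ∀ l₀ ∈ Λ, (J l₀ : ℝ) ≤ ε / (16 * (l₀ : ℝ)) / 17 * log l := by
    intro l₀ hl₀
    have := hΛpos l₀ hl₀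
    rw [hJ]
    exact Nat.floor_le (by positivity)
  have hk2 : ∀ l₀ ∈ Λ, ε / (544 * (l₀ : ℝ)) * log l - 1 ≤ k l₀ := by
    intro l₀ hl₀
    have h1 : ε / (16 * (l₀ : ℝ)) / 17 * log l - 1 ≤ J l₀ := by
      rw [hJ]
      exact (Nat.sub_one_lt_floor _).le
    have h2 : (J l₀ : ℝ) ≤ 2 * k l₀ := by
      have h3 : J l₀ ≤ 2 * k l₀ := by
        rw [hk]
        dsimp only
        omega
      exact_mod_cast h3
    have h4 : ε / (16 * (l₀ : ℝ)) / 17 * log l = 2 * (ε / (544 * (l₀ : ℝ)) * log l) := by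
      have := hΛpos l₀ hl₀
      field_simp
      norm_num
    linarith
  have hksum : ((∑ l₀ ∈ Λ, k l₀ : ℕ) : ℝ) ≤ Λ.card * log l := by
    rw [Nat.cast_sum]
    calc ∑ l₀ ∈ Λ, (k l₀ : ℝ) ≤ ∑ l₀ ∈ Λ, log l := by
          refine sum_le_sum fun l₀ hl₀ => ?_
          have h1 : (2 : ℝ) ≤ l₀ := by exact_mod_cast (hΛ l₀ hl₀).two_le
          have h2 : ε / (16 * (l₀ : ℝ)) / 17 ≤ 1 := by
            rw [div_div, div_le_one (by positivity)]
            linarith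
          have h3 : (J l₀ : ℝ) ≤ log l := by
            refine (hJ1 l₀ hl₀).trans ?_
            nlinarith
          have h4 : 2 * (k l₀ : ℝ) ≤ J l₀ + 1 := by
            have h5 : 2 * k l₀ ≤ J l₀ + 1 := by
              rw [hk]
              dsimp only
              omega
            exact_mod_cast h5
          linarith
      _ = Λ.card * log l := by rw [sum_const, nsmul_eq_mul]
  have hkbig : 5184 * (Q : ℝ) ^ 2 * l ^ 4 ≤ ((∏ l₀ ∈ Λ, l₀ ^ k l₀ : ℕ) : ℝ) := by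
    have h1 : (2 : ℝ) ^ (∑ l₀ ∈ Λ, k l₀) ≤ ((∏ l₀ ∈ Λ, l₀ ^ k l₀ : ℕ) : ℝ) := by
      have h2 : 2 ^ (∑ l₀ ∈ Λ, k l₀) ≤ ∏ l₀ ∈ Λ, l₀ ^ k l₀ := by
        rw [← prod_pow_eq_pow_sum]
        exact prod_le_prod' fun l₀ hl₀ => Nat.pow_le_pow_left (hΛ l₀ hl₀).two_le _
      exact_mod_cast h2
    refine le_trans ?_ h1
    have h3 : 6 * log l - Λ.card * log 2 ≤ ((∑ l₀ ∈ Λ, k l₀ : ℕ) : ℝ) * log 2 := by
      have h4 : ε / 544 * log l * ∑ l₀ ∈ Λ, 1 / (l₀ : ℝ) - Λ.card ≤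
          ((∑ l₀ ∈ Λ, k l₀ : ℕ) : ℝ) := by
        rw [Nat.cast_sum, mul_sum]
        have h5 : ∑ l₀ ∈ Λ, (ε / 544 * log l * (1 / (l₀ : ℝ))) - Λ.card =
            ∑ l₀ ∈ Λ, (ε / 544 * log l * (1 / (l₀ : ℝ)) - 1) := by
          rw [sum_sub_distrib, sum_const, nsmul_eq_mul, mul_one]
        rw [h5]
        refine sum_le_sum fun l₀ hl₀ => le_trans (le_of_eq ?_) (hk2 l₀ hl₀)
        have := hΛpos l₀ hl₀
        field_simp
      have h6 : ε / 544 * log l * (3264 / (ε * log 2)) ≤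
          ε / 544 * log l * ∑ l₀ ∈ Λ, 1 / (l₀ : ℝ) :=
        mul_le_mul_of_nonneg_left hΛK (by positivity)
      have h7 : ε / 544 * log l * (3264 / (ε * log 2)) * log 2 = 6 * log l := by
        field_simp
        norm_num
      have h8 := mul_le_mul_of_nonneg_right (h6.trans (by linarith :
        ε / 544 * log l * ∑ l₀ ∈ Λ, 1 / (l₀ : ℝ) ≤ ((∑ l₀ ∈ Λ, k l₀ : ℕ) : ℝ) + Λ.card)) hlog2.le
      rw [h7] at h8
      linarith
    rw [← Real.log_le_log_iff (by positivity) (by positivity), Real.log_pow]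
    have h9 : log (5184 * (Q : ℝ) ^ 2 * 2 ^ Λ.card) =
        log (5184 * (Q : ℝ) ^ 2) + Λ.card * log 2 := by
      rw [Real.log_mul (by positivity) (by positivity), Real.log_pow]
    rw [Real.log_mul (by positivity) (by positivity), Real.log_pow]
    push_cast
    rw [h9] at g8
    push_cast at h3
    linarith
  -- `L`
  obtain ⟨L, hL⟩ : ∃ L : ℕ, L = Nat.clog 2 n := ⟨_, rfl⟩
  have hnL : n ≤ 2 ^ L := by
    rw [hL]
    exact Nat.le_pow_clog (by norm_num) n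
  have hL1 : 1 ≤ L := by
    rw [hL]
    exact Nat.clog_pos (by norm_num) hn2
  have hLl : (L : ℝ) ≤ 3 * l := by
    have h1 : 2 ^ (L - 1) < n := by
      rw [hL]
      exact Nat.pow_pred_clog_lt_self (by norm_num) (by omega)
    have h2 : ((2 : ℝ) ^ (L - 1)) ≤ n := by exact_mod_cast h1.le
    have h3 := Real.log_le_log (by positivity) h2
    rw [Real.log_pow, ← hl, Nat.cast_sub hL1] at h3
    have h4 := Real.log_two_gt_d9
    push_cast at h3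
    have h5 : (1 : ℝ) ≤ L := by exact_mod_cast hL1
    nlinarith
  have hm0 : m ≠ 0 := by
    rintro rfl
    rw [mul_zero] at hnm
    omega
  -- the exceptional sets
  obtain ⟨E, hE⟩ : ∃ E : ℕ → ℝ, E = fun l₀ : ℕ => ∑ q ∈ P1 l₀ N, 1 / (q : ℝ) := ⟨_, rfl⟩
  obtain ⟨E', hE'⟩ : ∃ E' : ℝ, E' = ∑ q ∈ Pool.Agent.RG.prm Z1 Z2, 1 / (q : ℝ) := ⟨_, rfl⟩
  obtain ⟨B, hB⟩ : ∃ B : Finset ℕ, B = (Pool.Agent.RG.prm Z1 Z2).filter
      (fun q => ¬ q ∣ n ∧ orderOf ((n : ℕ) : ZMod q) < y) := ⟨_, rfl⟩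
  have hEl : ∀ l₀ ∈ Λ, ε / (16 * (l₀ : ℝ)) * log l ≤ E l₀ := by
    intro l₀ hl₀
    rw [hE]
    exact g4 l₀ hl₀
  have hE'l : ε / 16 * log l ≤ E' := by
    rw [hE']
    have h1 : (7 * ε / 8 - 3 * ε / 4) * log l = ε / 16 * log l + ε / 16 * log l := by ring
    rw [h1] at g3
    linarith
  have hEpos : ∀ l₀ ∈ Λ, 0 < E l₀ := by
    intro l₀ hl₀
    have := hΛpos l₀ hl₀
    exact lt_of_lt_of_le (by positivity) (hEl l₀ hl₀)
  have hE'pos : 0 < E' := lt_of_lt_of_le (by positivity) hE'l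
  obtain ⟨J', hJ'⟩ : ∃ J' : ℕ, J' = ⌊ε / 16 / 17 * log l⌋₊ := ⟨_, rfl⟩
  have hJ'1 : 0 < J' := by
    have h1 : ε / 16 / 17 * log l - 1 < J' := by
      rw [hJ']
      exact Nat.sub_one_lt_floor _
    have h2 : (0 : ℝ) < J' := by linarith
    exact_mod_cast h2
  obtain ⟨X, hX⟩ : ∃ X : ℝ, X = x / l ^ (ε / (544 * (Q : ℝ))) := ⟨_, rfl⟩
  have hQ1 : (1 : ℝ) ≤ Q := by exact_mod_cast hQ0
  have hXle : ∀ b : ℝ, ε / (544 * (Q : ℝ)) ≤ b → (x : ℝ) / l ^ b ≤ X := by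
    intro b hb
    rw [hX]
    exact div_le_div_of_nonneg_left hxpos.le (by positivity) (hmono hb)
  have hX1 : ∀ l₀ ∈ Λ, (((Icc 1 x).filter fun r => 2 * om (P1 l₀ N) r < J l₀).card : ℝ) ≤ X := by
    intro l₀ hl₀
    have h0 := hΛpos l₀ hl₀
    have h1 := g12 l₀ hl₀ x N (P1 l₀ N) (fun q hq => by
      rw [P1, mem_filter, mem_range] at hq
      exact ⟨hq.2.1, by omega⟩) hN' (g4 l₀ hl₀) hx
    rw [hJ]
    refine h1.trans (hXle _ ?_)
    rw [div_div]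
    apply div_le_div_of_nonneg_left hε.le (by positivity)
    have := hΛQ l₀ hl₀
    linarith
  have hX2 : (((Icc 1 x).filter fun r =>
      2 * om (Pool.Agent.RG.prm Z1 Z2) r < J').card : ℝ) ≤ X := by
    have h1 := g13 x Z2 (Pool.Agent.RG.prm Z1 Z2) (fun q hq =>
      ⟨(Pool.Agent.RG.mem_prm.1 hq).2, (Pool.Agent.RG.mem_prm.1 hq).1.2⟩) hZ2' (by
        rw [← hE']
        exact hE'l) hx
    rw [hJ']
    refine h1.trans (hXle _ ?_)
    rw [div_div]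
    apply div_le_div_of_nonneg_left hε.le (by positivity)
    linarith
  have hBc : (B.card : ℝ) ≤ 2 * (y : ℝ) ^ 2 * l := by
    rw [hl]
    apply small_ord_count hn2
    intro q hq
    rw [hB, mem_filter, Pool.Agent.RG.mem_prm] at hq
    exact ⟨hq.1.2, hq.2.1, hq.2.2⟩
  have hX3 : ((S.filter fun r => ∃ q ∈ B, q ∣ r).card : ℝ) ≤ X := by
    have h1 := count_dvd B (Z := exp (l ^ (3 * ε / 4))) (Real.exp_pos _) (by
      intro q hq
      rw [hB, mem_filter, Pool.Agent.RG.mem_prm] at hq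
      refine hZ1'.trans ?_
      exact_mod_cast hq.1.1.1.le) x (S.filter fun r => ∃ q ∈ B, q ∣ r) (by
      intro r hr
      rw [mem_filter] at hr
      obtain ⟨k1, k2, -, -⟩ := hS r hr.1
      exact ⟨k1, k2, hr.2⟩)
    refine h1.trans ?_
    have h2 : (B.card : ℝ) * l ≤ exp (l ^ (3 * ε / 4)) := by
      calc (B.card : ℝ) * l ≤ (2 * (y : ℝ) ^ 2 * l) * l :=
            mul_le_mul_of_nonneg_right hBc hl0.le
        _ ≤ (2 * (2 * exp (l ^ (ε / 2))) ^ 2 * l) * l := by gcongr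
        _ = 8 * l ^ 2 * (exp (l ^ (ε / 2))) ^ 2 := by ring
        _ = exp (log 8 + 2 * log l + 2 * l ^ (ε / 2)) := by
            rw [Real.exp_add, Real.exp_add, Real.exp_log (by norm_num)]
            congr 1
            · congr 1
              rw [← Real.log_rpow hl0, Real.exp_log (by positivity)]
              norm_cast
            · rw [← Real.exp_nat_mul]
              norm_num
        _ ≤ exp (l ^ (3 * ε / 4)) := Real.exp_le_exp.2 g9
    refine le_trans ?_ (hXle 1 ?_)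
    · rw [Real.rpow_one, mul_div_assoc', div_le_div_iff₀ (Real.exp_pos _) hl0]
      calc (B.card : ℝ) * x * l = (B.card * l) * x := by ring
        _ ≤ exp (l ^ (3 * ε / 4)) * x := mul_le_mul_of_nonneg_right h2 hxpos.le
        _ = x * exp (l ^ (3 * ε / 4)) := mul_comm _ _
    · rw [div_le_one (by positivity)]
      linarith
  -- all elements of `S` are exceptional
  have hsub : S ⊆ ((Λ.biUnion fun l₀ => (Icc 1 x).filter fun r =>
      2 * om (P1 l₀ N) r < J l₀) ∪ ((Icc 1 x).filter fun r =>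
      2 * om (Pool.Agent.RG.prm Z1 Z2) r < J')) ∪ (S.filter fun r => ∃ q ∈ B, q ∣ r) := by
    intro r hr
    obtain ⟨k1, k2, k3, k4⟩ := hS r hr
    by_contra hcon
    rw [mem_union, mem_union, not_or, not_or] at hcon
    obtain ⟨⟨c1, c2⟩, c3⟩ := hcon
    have hrx : r ∈ Icc 1 x := mem_Icc.2 ⟨k1, k2⟩
    have d1 : ∀ l₀ ∈ Λ, k l₀ ≤ om (P1 l₀ N) r := by
      intro l₀ hl₀
      have h1 : ¬ 2 * om (P1 l₀ N) r < J l₀ := by
        intro h2
        exact c1 (mem_biUnion.2 ⟨l₀, hl₀, mem_filter.2 ⟨hrx, h2⟩⟩)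
      rw [hk]
      dsimp only
      omega
    have d2 : ∃ q₀ ∈ Pool.Agent.RG.prm Z1 Z2, q₀ ∣ r := by
      have h1 : ¬ 2 * om (Pool.Agent.RG.prm Z1 Z2) r < J' := by
        intro h2
        exact c2 (mem_filter.2 ⟨hrx, h2⟩)
      have h2 : 0 < om (Pool.Agent.RG.prm Z1 Z2) r := by omega
      obtain ⟨q₀, hq₀⟩ := card_pos.1 h2
      exact ⟨q₀, (mem_filter.1 hq₀).1, (mem_filter.1 hq₀).2⟩
    obtain ⟨q₀, hq₀, hq₀r⟩ := d2
    rw [Pool.Agent.RG.mem_prm] at hq₀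
    obtain ⟨⟨hq1, hq2⟩, hq3⟩ := hq₀
    have hq₀n : ¬ q₀ ∣ n := by
      intro h1
      have h2 := Nat.dvd_gcd h1 hq₀r
      rw [Nat.coprime_iff_gcd_eq_one.1 k3] at h2
      exact hq3.one_lt.ne' (Nat.dvd_one.1 h2)
    have hyo : y ≤ orderOf ((n : ℕ) : ZMod q₀) := by
      by_contra h1
      push Not at h1
      apply c3
      rw [mem_filter]
      refine ⟨hr, q₀, ?_, hq₀r⟩
      rw [hB, mem_filter, Pool.Agent.RG.mem_prm]
      exact ⟨⟨⟨hq1, hq2⟩, hq3⟩, hq₀n, h1⟩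
    obtain ⟨S', s1, s2, s3⟩ := sel Λ hΛ k N r d1
    rw [← hQ] at s3
    obtain ⟨s, hs⟩ : ∃ s : ℕ, s = ∏ q ∈ S', q := ⟨_, rfl⟩
    have hs0 : 0 < s := by
      rw [hs]
      exact prod_pos fun q hq => (s1 q hq).1.pos
    have hs1 : (1 : ℝ) ≤ s := by exact_mod_cast hs0
    have hsle : (s : ℝ) ≤ exp (l ^ (3 * ε / 8)) := by
      have h1 : s ≤ N ^ S'.card := by
        rw [hs]
        exact prod_le_pow_card S' (fun q => q) N fun q hq => (s1 q hq).2.1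
      have h2 : (S'.card : ℝ) ≤ l ^ (ε / 8) := by
        have h3 : (S'.card : ℝ) ≤ ((∑ l₀ ∈ Λ, k l₀ : ℕ) : ℝ) := by exact_mod_cast s2
        linarith
      calc (s : ℝ) ≤ (N : ℝ) ^ S'.card := by exact_mod_cast h1
        _ ≤ (exp (l ^ (ε / 4))) ^ S'.card := pow_le_pow_left₀ (by positivity) hN' _
        _ = exp (S'.card * l ^ (ε / 4)) := by rw [← Real.exp_nat_mul]
        _ ≤ exp (l ^ (ε / 8) * l ^ (ε / 4)) := by
            apply Real.exp_le_exp.2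
            exact mul_le_mul_of_nonneg_right h2 (by positivity)
        _ = exp (l ^ (3 * ε / 8)) := by
            rw [← Real.rpow_add hl0]
            congr 2
            ring
    refine hR0 n p m L y L Q q₀ r S' hp hnm hmp hnL hm0 hQ0 ?_ hq3 hq₀r k3 ?_ ?_ hyo ?_ k4
    · intro q hq
      obtain ⟨t1, t2, t3⟩ := s1 q hq
      refine ⟨t1, t3, ?_⟩
      have h1 : (N : ℝ) ≤ Z1 :=
        hN'.trans ((Real.exp_le_exp.2 (hmono (by linarith))).trans hZ1')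
      have h2 : N ≤ Z1 := by exact_mod_cast h1
      omega
    · rw [← hs]
      have h1 : ((s * q₀ : ℕ) : ℝ) ≤ ((2 ^ L : ℕ) : ℝ) := by
        have h2 : (q₀ : ℝ) ≤ exp (l ^ (7 * ε / 8)) := by
          refine le_trans ?_ hZ2'
          exact_mod_cast hq2
        have h3 : (n : ℝ) ≤ ((2 ^ L : ℕ) : ℝ) := by exact_mod_cast hnL
        refine le_trans ?_ h3
        rw [← hel]
        push_cast
        calc (s : ℝ) * q₀ ≤ exp (l ^ (3 * ε / 8)) * exp (l ^ (7 * ε / 8)) :=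
              mul_le_mul hsle h2 (by positivity) (by positivity)
          _ = exp (l ^ (3 * ε / 8) + l ^ (7 * ε / 8)) := by rw [Real.exp_add]
          _ ≤ exp l := by
              apply Real.exp_le_exp.2
              have h4 := hmono (show 3 * ε / 8 ≤ 7 * ε / 8 by linarith)
              linarith
      exact_mod_cast h1
    · refine le_trans ?_ s3
      have h1 : ((64 * L ^ 2 * L ^ 2 * Q ^ 2 : ℕ) : ℝ) ≤ ((∏ l₀ ∈ Λ, l₀ ^ k l₀ : ℕ) : ℝ) := by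
        refine le_trans ?_ hkbig
        push_cast
        have h2 : (L : ℝ) ^ 4 ≤ (3 * l) ^ 4 := pow_le_pow_left₀ (by positivity) hLl 4
        calc 64 * (L : ℝ) ^ 2 * (L : ℝ) ^ 2 * (Q : ℝ) ^ 2 = 64 * (Q : ℝ) ^ 2 * (L : ℝ) ^ 4 := by
              ring
          _ ≤ 64 * (Q : ℝ) ^ 2 * (3 * l) ^ 4 :=
              mul_le_mul_of_nonneg_left h2 (by positivity)
          _ = 5184 * (Q : ℝ) ^ 2 * l ^ 4 := by ring
      exact_mod_cast h1
    · rw [← hs]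
      have h1 : ((Q ^ 2 * s * (s * (4 * L * (L + 1) + R0 + 1) ^ 2 + 1) : ℕ) : ℝ) ≤ (y : ℝ) := by
        refine le_trans ?_ hy'
        push_cast
        have h2 : 4 * (L : ℝ) * ((L : ℝ) + 1) + R0 + 1 ≤ (50 + R0) * l ^ 2 := by
          have h3 : (0 : ℝ) ≤ L := Nat.cast_nonneg L
          have h4 : (0 : ℝ) ≤ R0 := Nat.cast_nonneg R0
          have h5 : (L : ℝ) * ((L : ℝ) + 1) ≤ 3 * l * (3 * l + 1) :=
            mul_le_mul hLl (by linarith) (by linarith) (by linarith)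
          have h6 : 1 ≤ l ^ 2 := one_le_pow₀ hl1
          have h7 : (R0 : ℝ) * 1 ≤ R0 * l ^ 2 := mul_le_mul_of_nonneg_left h6 h4
          nlinarith
        have h3 : (0 : ℝ) ≤ 4 * (L : ℝ) * ((L : ℝ) + 1) + R0 + 1 := by positivity
        have h4 : (4 * (L : ℝ) * ((L : ℝ) + 1) + R0 + 1) ^ 2 ≤ ((50 + R0) * l ^ 2) ^ 2 :=
          pow_le_pow_left₀ h3 h2 2
        have h5 : 1 ≤ (s : ℝ) * ((50 + R0) * l ^ 2) ^ 2 := by
          have h6 : (1 : ℝ) ≤ ((50 + R0) * l ^ 2) ^ 2 := by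
            apply one_le_pow₀
            have h7 : 1 ≤ l ^ 2 := one_le_pow₀ hl1
            have h8 : (0 : ℝ) ≤ R0 := Nat.cast_nonneg R0
            nlinarith
          nlinarith
        have h6 : (s : ℝ) * (4 * (L : ℝ) * ((L : ℝ) + 1) + R0 + 1) ^ 2 + 1 ≤
            2 * (s * ((50 + R0) * l ^ 2) ^ 2) := by
          have h7 := mul_le_mul_of_nonneg_left h4 (by linarith : (0 : ℝ) ≤ s)
          linarith
        have h8 : (s : ℝ) ^ 2 ≤ (exp (l ^ (3 * ε / 8))) ^ 2 :=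
          pow_le_pow_left₀ (by linarith) hsle 2
        calc (Q : ℝ) ^ 2 * s * (s * (4 * (L : ℝ) * ((L : ℝ) + 1) + R0 + 1) ^ 2 + 1) ≤
              (Q : ℝ) ^ 2 * s * (2 * (s * ((50 + R0) * l ^ 2) ^ 2)) :=
              mul_le_mul_of_nonneg_left h6 (by positivity)
          _ = (2 * (Q : ℝ) ^ 2 * (50 + R0) ^ 2) * l ^ 4 * (s : ℝ) ^ 2 := by ring
          _ ≤ (2 * (Q : ℝ) ^ 2 * (50 + R0) ^ 2) * l ^ 4 * (exp (l ^ (3 * ε / 8))) ^ 2 :=
              mul_le_mul_of_nonneg_left h8 (by positivity)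
          _ = exp (log (2 * Q ^ 2 * (50 + R0) ^ 2) + 4 * log l + 2 * l ^ (3 * ε / 8)) := by
              rw [Real.exp_add, Real.exp_add, Real.exp_log (by positivity)]
              congr 1
              · congr 1
                rw [← Real.log_rpow hl0, Real.exp_log (by positivity)]
                norm_cast
              · rw [← Real.exp_nat_mul]
                norm_num
          _ ≤ exp (l ^ (ε / 2)) := Real.exp_le_exp.2 g7
      exact_mod_cast h1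
  -- counting
  have hcard : (S.card : ℝ) ≤ (Λ.card : ℝ) * X + X + X := by
    have h1 := (card_le_card hsub).trans (card_union_le _ _)
    have h2 := h1.trans (Nat.add_le_add_right ((card_union_le _ _).trans
      (Nat.add_le_add_right card_biUnion_le _)) _)
    have h3 : (S.card : ℝ) ≤ (∑ l₀ ∈ Λ, (((Icc 1 x).filter fun r =>
        2 * om (P1 l₀ N) r < J l₀).card : ℝ)) +
        (((Icc 1 x).filter fun r => 2 * om (Pool.Agent.RG.prm Z1 Z2) r < J').card : ℝ) +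
        ((S.filter fun r => ∃ q ∈ B, q ∣ r).card : ℝ) := by exact_mod_cast h2
    refine h3.trans (add_le_add (add_le_add ?_ hX2) hX3)
    refine (sum_le_sum hX1).trans (le_of_eq ?_)
    rw [sum_const, nsmul_eq_mul]
  have hXe : X = x / l ^ (ε / (1088 * (Q : ℝ))) / l ^ (ε / (1088 * (Q : ℝ))) := by
    rw [hX, div_div, ← Real.rpow_add hl0]
    congr 2
    field_simp
    norm_num
  have hX' : ((Λ.card : ℝ) + 2) * X ≤ x / l ^ (ε / (1088 * (Q : ℝ))) := by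
    rw [hXe, mul_div_assoc', div_le_iff₀ (by positivity), mul_comm]
    exact mul_le_mul_of_nonneg_left g15 (by positivity)
  refine hcard.trans (le_trans (le_of_eq ?_) hX')
  ring

end AGQ
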