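import Pool.Agent.AGQ.Crit

/-!
# AGQ: the criterion with the polynomials `X ^ j - η`
-/

open Polynomial

namespace AGQ

variable {n m p N : ℕ} {F : Type} [Field F]

/-- Introspection of the linear polynomials `X - η`, `η ^ N = 1`. -/
theorem lin3 [Fact p.Prime] [CharP F p] (hnm : n = p * m)
    (hst : (X ^ N - 1 : (ZMod n)[X]) ∣ (X - 1) ^ n - (X ^ n - 1)) (a b : ℕ) {z η : F}
    (hz : z ^ N = 1) (hη : η ^ N = 1) (hN : N ≠ 0) :
    (z - η) ^ (m ^ a * p ^ b) = z ^ (m ^ a * p ^ b) - η ^ (m ^ a * p ^ b) := by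
  have hη0 : η ≠ 0 := by
    rintro rfl
    rw [zero_pow hN] at hη
    exact zero_ne_one hη
  have h1 : (z / η) ^ N = 1 := by
    rw [div_pow, hz, hη, div_one]
  have h2 := lin_intro hnm hst a b h1
  have h3 : z - η = η * (z / η - 1) := by
    rw [mul_sub, mul_one, mul_div_cancel₀ _ hη0]
  rw [h3, mul_pow, h2, div_pow, mul_sub, mul_one, mul_div_cancel₀ _ (pow_ne_zero _ hη0)]

/-- the product of the `z ^ j - η`, `(j, η) ∈ A` -/
noncomputable def wA (z : F) (A : Finset (ℕ × F)) : F := ∏ q ∈ A, (z ^ q.1 - q.2)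

theorem wA_pow [Fact p.Prime] [CharP F p] (hnm : n = p * m)
    (hst : (X ^ N - 1 : (ZMod n)[X]) ∣ (X - 1) ^ n - (X ^ n - 1)) (a b : ℕ) {z : F}
    (hz : z ^ N = 1) (hN : N ≠ 0) {A : Finset (ℕ × F)} (hA : ∀ q ∈ A, q.2 ^ N = 1) :
    wA z A ^ (m ^ a * p ^ b) =
      ∏ q ∈ A, ((z ^ (m ^ a * p ^ b)) ^ q.1 - q.2 ^ (m ^ a * p ^ b)) := by
  unfold wA
  rw [← Finset.prod_pow]
  refine Finset.prod_congr rfl fun q hq => ?_
  have hz' : (z ^ q.1) ^ N = 1 := by rw [← pow_mul, mul_comm, pow_mul, hz, one_pow]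
  rw [lin3 hnm hst a b hz' (hA q hq) hN]
  congr 1
  rw [← pow_mul, ← pow_mul, mul_comm]

/-- a root which detects the factor `X ^ j - η` -/
theorem exists_detect [Fact p.Prime] [CharP F p] [IsAlgClosed F] {j s : ℕ} (hj : j.Prime)
    (hjs : ¬ j ∣ s) (hjp : j ≠ p) (η : F) : ∃ ω : F, ω ^ j = η ∧ ω ^ s ≠ 1 := by
  obtain ⟨ω, hω⟩ := IsAlgClosed.exists_pow_nat_eq η hj.pos
  by_cases h : ω ^ s = 1
  · have hp : p.Prime := Fact.out
    have hjF : ((j : ℕ) : F) ≠ 0 := by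
      intro h0
      have h1 := (CharP.cast_eq_zero_iff F p j).1 h0
      exact hjp ((Nat.prime_dvd_prime_iff_eq hp hj).1 h1).symm
    have : NeZero ((j : ℕ) : F) := ⟨hjF⟩
    obtain ⟨ζ, hζ0⟩ : ∃ ζ : F, (cyclotomic j F).IsRoot ζ :=
      IsAlgClosed.exists_root _ (by
        rw [degree_cyclotomic]
        have := Nat.totient_pos.2 hj.pos
        exact_mod_cast this.ne')
    have hζ : IsPrimitiveRoot ζ j := isRoot_cyclotomic_iff.1 hζ0
    refine ⟨ω * ζ, ?_, ?_⟩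
    · rw [mul_pow, hζ.pow_eq_one, mul_one, hω]
    · rw [mul_pow, h, one_mul]
      intro h1
      exact hjs (hζ.dvd_of_pow_eq_one s h1)
  · exact ⟨ω, hω, h⟩

/-- the detecting root is no root of the other factors -/
theorem detect_ne {j j' s : ℕ} (hj : j.Prime) (hj' : j'.Prime) {η η' ω : F} (hη : η ^ s = 1)
    (hη' : η' ^ s = 1) (h1 : ω ^ j = η) (h2 : ω ^ s ≠ 1) (h3 : ω ^ j' = η') :
    j' = j ∧ η' = η := by
  have h4 : j' = j := by
    by_contra hne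
    apply h2
    have h5 : ω ^ (j * s) = 1 := by rw [pow_mul, h1, hη]
    have h6 : ω ^ (j' * s) = 1 := by rw [pow_mul, h3, hη']
    have h7 := Nat.dvd_gcd (orderOf_dvd_of_pow_eq_one h5) (orderOf_dvd_of_pow_eq_one h6)
    rw [Nat.gcd_mul_right, (Nat.coprime_primes hj hj').2 (Ne.symm hne), one_mul] at h7
    exact orderOf_dvd_iff_pow_eq_one.1 h7
  refine ⟨h4, ?_⟩
  rw [← h3, h4, h1]

/-- the polynomial of `A` -/
noncomputable def pA (A : Finset (ℕ × F)) : F[X] := ∏ q ∈ A, (X ^ q.1 - C q.2)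

theorem pA_degree {A : Finset (ℕ × F)} (hA : ∀ q ∈ A, q.1.Prime) :
    (pA A).natDegree = ∑ q ∈ A, q.1 := by
  unfold pA
  rw [natDegree_prod_of_monic]
  · refine Finset.sum_congr rfl fun q _ => ?_
    exact natDegree_X_pow_sub_C
  · intro q hq
    exact monic_X_pow_sub_C _ (hA q hq).ne_zero

/-- a polynomial determines `A` -/
theorem pA_inj [Fact p.Prime] [CharP F p] [IsAlgClosed F] {s : ℕ} {A A' : Finset (ℕ × F)}
    (hA : ∀ q ∈ A, q.1.Prime ∧ ¬ q.1 ∣ s ∧ q.1 ≠ p ∧ q.2 ^ s = 1)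
    (hA' : ∀ q ∈ A', q.1.Prime ∧ ¬ q.1 ∣ s ∧ q.1 ≠ p ∧ q.2 ^ s = 1) (h : pA A = pA A') :
    A = A' := by
  have key : ∀ A A' : Finset (ℕ × F), (∀ q ∈ A, q.1.Prime ∧ ¬ q.1 ∣ s ∧ q.1 ≠ p ∧ q.2 ^ s = 1) →
      (∀ q ∈ A', q.1.Prime ∧ ¬ q.1 ∣ s ∧ q.1 ≠ p ∧ q.2 ^ s = 1) → pA A = pA A' → A ⊆ A' := by
    intro A A' hA hA' h q hq
    obtain ⟨h1, h2, h3, h4⟩ := hA q hq
    obtain ⟨ω, h5, h6⟩ := exists_detect (p := p) h1 h2 h3 q.2
    have h7 : (pA A).eval ω = 0 := by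
      unfold pA
      rw [eval_prod]
      apply Finset.prod_eq_zero hq
      rw [eval_sub, eval_pow, eval_X, eval_C, h5, sub_self]
    rw [h] at h7
    unfold pA at h7
    rw [eval_prod, Finset.prod_eq_zero_iff] at h7
    obtain ⟨q', hq', h8⟩ := h7
    rw [eval_sub, eval_pow, eval_X, eval_C, sub_eq_zero] at h8
    obtain ⟨g1, g2, g3, g4⟩ := hA' q' hq'
    obtain ⟨e1, e2⟩ := detect_ne h1 g1 h4 g4 h5 h6 h8
    have : q' = q := Prod.ext e1 e2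
    rw [← this]
    exact hq'
  exact Finset.Subset.antisymm (key A A' hA hA' h) (key A' A hA' hA h.symm)

/-- evaluation at the conjugates -/
theorem pA_eval [Fact p.Prime] [CharP F p] (hnm : n = p * m)
    (hst : (X ^ N - 1 : (ZMod n)[X]) ∣ (X - 1) ^ n - (X ^ n - 1)) {s : ℕ} (hsN : s ∣ N) {z : F}
    (hz : z ^ N = 1) (hN : N ≠ 0) {A : Finset (ℕ × F)} (hA : ∀ q ∈ A, q.2 ^ s = 1) {a b : ℕ}
    (hab : ((m ^ a * p ^ b : ℕ) : ZMod s) = 1) :
    (pA A).eval (z ^ (m ^ a * p ^ b)) = wA z A ^ (m ^ a * p ^ b) := by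
  obtain ⟨k, rfl⟩ := hsN
  rw [wA_pow hnm hst a b hz hN (fun q hq => by rw [pow_mul, hA q hq, one_pow])]
  unfold pA
  rw [eval_prod]
  refine Finset.prod_congr rfl fun q hq => ?_
  rw [eval_sub, eval_pow, eval_X, eval_C]
  congr 1
  have h3 : ((m ^ a * p ^ b : ℕ) : ZMod s) = ((1 : ℕ) : ZMod s) := by rw [hab, Nat.cast_one]
  rw [pow_of_cast (hA q hq) h3, pow_one]

end AGQ
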