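import Pool.Agent.AGQ.Col

/-!
# AGQ: the criterion with the polynomials `X ^ j - η`, part 2
-/

open Polynomial

namespace AGQ

variable {n m p R s : ℕ}

/-- the subgroup generated by `m` and `p` -/
def HH (R : ℕ) (hmR : m.Coprime R) (hpR : p.Coprime R) : Subgroup (ZMod R)ˣ :=
  Subgroup.closure {ZMod.unitOfCoprime m hmR, ZMod.unitOfCoprime p hpR}

theorem card_split {G G2 : Type} [CommGroup G] [CommGroup G2] [Finite G] (H : Subgroup G)
    (φ : G →* G2) : Nat.card H = Nat.card (H ⊓ φ.ker : Subgroup G) * Nat.card (H.map φ) := by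
  obtain ⟨ψ, hψ⟩ : ∃ ψ : H →* G2, ψ = φ.comp H.subtype := ⟨_, rfl⟩
  have h1 : Nat.card H = Nat.card ψ.ker * Nat.card ψ.range := by
    rw [← Subgroup.card_mul_index ψ.ker, Subgroup.index_ker]
  have h2 : Nat.card ψ.ker = Nat.card (H ⊓ φ.ker : Subgroup G) := by
    have e : ψ.ker.map H.subtype = H ⊓ φ.ker := by
      ext x
      rw [Subgroup.mem_map, Subgroup.mem_inf]
      constructor
      · rintro ⟨y, hy, rfl⟩
        rw [hψ] at hy
        exact ⟨y.2, hy⟩
      · rintro ⟨hx1, hx2⟩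
        refine ⟨⟨x, hx1⟩, ?_, rfl⟩
        rw [hψ]
        exact hx2
    rw [← e]
    exact (Nat.card_congr (ψ.ker.equivMapOfInjective H.subtype H.subtype_injective).toEquiv)
  have h3 : ψ.range = H.map φ := by
    rw [hψ, MonoidHom.range_comp, Subgroup.range_subtype]
  rw [h1, h2, h3]

theorem col {L : ℕ} [Fact p.Prime] (hnm : n = p * m) (hmp : ∀ j, m ≠ p ^ j) (hR : 0 < R)
    (hsR : s ∣ R) (hmR : m.Coprime R) (hpR : p.Coprime R) (hL : n ≤ 2 ^ L) (hm0 : m ≠ 0)
    (J : Finset ℕ) (hJ : ∀ j ∈ J, j.Prime ∧ ¬ j ∣ s ∧ j ≠ p)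
    (h1 : s * ∑ j ∈ J, j <
      Nat.card (HH R hmR hpR ⊓ (ZMod.unitsMap hsR).ker : Subgroup (ZMod R)ˣ))
    (h2 : L ^ 2 * Nat.card (HH R hmR hpR) ≤ (s * J.card) ^ 2) :
    ¬ (X ^ R - 1 : (ZMod n)[X]) ∣ (X - 1) ^ n - (X ^ n - 1) := by
  classical
  intro hst
  have hp : p.Prime := Fact.out
  have hs : 0 < s := Nat.pos_of_dvd_of_pos hsR hR
  have hR0 : R ≠ 0 := hR.ne'
  have : NeZero R := ⟨hR0⟩
  have : NeZero s := ⟨hs.ne'⟩
  have hps : p.Coprime s := Nat.Coprime.coprime_dvd_right hsR hpR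
  let F := AlgebraicClosure (ZMod p)
  have : CharP F p := inferInstance
  have hRF : ((R : ℕ) : F) ≠ 0 := by
    intro h
    exact (Nat.Prime.coprime_iff_not_dvd hp).1 hpR ((CharP.cast_eq_zero_iff F p R).1 h)
  have hsF : ((s : ℕ) : F) ≠ 0 := by
    intro h
    exact (Nat.Prime.coprime_iff_not_dvd hp).1 hps ((CharP.cast_eq_zero_iff F p s).1 h)
  have : NeZero ((R : ℕ) : F) := ⟨hRF⟩
  have : NeZero ((s : ℕ) : F) := ⟨hsF⟩
  obtain ⟨z, hz0⟩ : ∃ z : F, (cyclotomic R F).IsRoot z :=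
    IsAlgClosed.exists_root _ (by
      rw [degree_cyclotomic]
      have := Nat.totient_pos.2 hR
      exact_mod_cast this.ne')
  have hz : IsPrimitiveRoot z R := isRoot_cyclotomic_iff.1 hz0
  obtain ⟨w, hw0⟩ : ∃ w : F, (cyclotomic s F).IsRoot w :=
    IsAlgClosed.exists_root _ (by
      rw [degree_cyclotomic]
      have := Nat.totient_pos.2 hs
      exact_mod_cast this.ne')
  have hw : IsPrimitiveRoot w s := isRoot_cyclotomic_iff.1 hw0
  have hS : (nthRootsFinset s (1 : F)).card = s := hw.card_nthRootsFinset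
  -- the group
  let a : (ZMod R)ˣ := ZMod.unitOfCoprime m hmR
  let b : (ZMod R)ˣ := ZMod.unitOfCoprime p hpR
  obtain ⟨K, hK⟩ : ∃ K : Subgroup (ZMod R)ˣ, K = HH R hmR hpR ⊓ (ZMod.unitsMap hsR).ker :=
    ⟨_, rfl⟩
  obtain ⟨T, hT⟩ : ∃ T : ℕ, T = Nat.card (HH R hmR hpR) := ⟨_, rfl⟩
  rw [← hK] at h1
  rw [← hT] at h2
  -- the evaluation points
  have hKfin : Finite K := inferInstance
  let Z : Finset F := ((Set.toFinite (K : Set (ZMod R)ˣ)).toFinset).image
    fun x : (ZMod R)ˣ => z ^ (x : ZMod R).val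
  have hZt : Z.card = Nat.card K := by
    rw [Finset.card_image_of_injOn]
    · rw [← Set.ncard_eq_toFinset_card _ (Set.toFinite _)]
      rfl
    · intro x hx y hy hxy
      have h8 : z ^ (x : ZMod R).val = z ^ (y : ZMod R).val := hxy
      have h9 := hz.pow_inj (ZMod.val_lt _) (ZMod.val_lt _) h8
      exact Units.ext (ZMod.val_injective R h9)
  have hZprop : ∀ x ∈ Z, ∃ a b : ℕ, x = z ^ (m ^ a * p ^ b) ∧
      ((m ^ a * p ^ b : ℕ) : ZMod s) = 1 := by
    intro x hx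
    obtain ⟨y, hy, rfl⟩ := Finset.mem_image.1 hx
    rw [Set.Finite.mem_toFinset] at hy
    have hy1 : y ∈ HH R hmR hpR ⊓ (ZMod.unitsMap hsR).ker := by rw [← hK]; exact hy
    obtain ⟨hyH, hyk⟩ := hy1
    obtain ⟨i, j, hij⟩ := grp_rep hyH
    have e1 : (y : ZMod R) = ((m ^ i * p ^ j : ℕ) : ZMod R) := by
      rw [hij]
      simp [ZMod.coe_unitOfCoprime]
    refine ⟨i, j, ?_, ?_⟩
    · apply pow_of_cast (N := R) hz.pow_eq_one
      rw [ZMod.natCast_zmod_val, e1]
    · have hyk' : ZMod.unitsMap hsR y = 1 := hyk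
      have := congrArg (fun u : (ZMod s)ˣ => (u : ZMod s)) hyk'
      simp only [ZMod.unitsMap_val, Units.val_one] at this
      rw [e1, ZMod.cast_natCast hsR] at this
      exact this
  -- the sets
  obtain ⟨Λ, hΛ⟩ : ∃ Λ : Finset (ℕ × F), Λ = J ×ˢ nthRootsFinset s (1 : F) := ⟨_, rfl⟩
  have hΛc : Λ.card = J.card * s := by rw [hΛ, Finset.card_product, hS]
  have hΛm : ∀ q ∈ Λ, q.1.Prime ∧ ¬ q.1 ∣ s ∧ q.1 ≠ p ∧ q.2 ^ s = 1 := by
    intro q hq
    rw [hΛ, Finset.mem_product] at hq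
    obtain ⟨g1, g2, g3⟩ := hJ q.1 hq.1
    exact ⟨g1, g2, g3, (mem_nthRootsFinset hs _).1 hq.2⟩
  have hdeg : ∀ A : Finset (ℕ × F), A ⊆ Λ → (pA A).natDegree < Z.card := by
    intro A hA
    rw [pA_degree fun q hq => (hΛm q (hA hq)).1, hZt]
    refine lt_of_le_of_lt ?_ h1
    calc ∑ q ∈ A, q.1 ≤ ∑ q ∈ Λ, q.1 := Finset.sum_le_sum_of_subset hA
      _ = s * ∑ j ∈ J, j := by
          rw [hΛ, Finset.sum_product]
          simp only [Finset.sum_const, hS, smul_eq_mul]
          rw [Finset.mul_sum]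
  have hmonic : ∀ A : Finset (ℕ × F), A ⊆ Λ → (pA A).Monic := by
    intro A hA
    apply monic_prod_of_monic
    intro q hq
    exact monic_X_pow_sub_C _ (hΛm q (hA hq)).1.ne_zero
  have hsub : ∀ A : Finset (ℕ × F), A ⊆ Λ → ∀ q ∈ A, q.2 ^ s = 1 :=
    fun A hA q hq => (hΛm q (hA hq)).2.2.2
  -- the values are not zero
  have hne : ∀ A : Finset (ℕ × F), A ⊆ Λ → wA z A ≠ 0 := by
    intro A hA h0
    have h3 : pA A = 0 := by
      apply eq_zero_of_natDegree_lt_card_of_eval_eq_zero' (pA A) Z _ (hdeg A hA)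
      intro x hx
      obtain ⟨i, j, rfl, hij⟩ := hZprop x hx
      rw [pA_eval hnm hst hsR hz.pow_eq_one hR0 (hsub A hA) hij, h0, zero_pow]
      exact (Nat.mul_pos (pow_pos (Nat.pos_of_ne_zero hm0) _) (pow_pos hp.pos _)).ne'
    exact (hmonic A hA).ne_zero h3
  -- injectivity
  have hinj : Set.InjOn (wA z) ((Λ.powerset : Finset (Finset (ℕ × F))) : Set (Finset (ℕ × F))) := by
    intro A hA A' hA' h3
    rw [Finset.mem_coe, Finset.mem_powerset] at hA hA'
    apply pA_inj (p := p) (s := s) (fun q hq => hΛm q (hA hq)) (fun q hq => hΛm q (hA' hq))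
    apply eq_of_degrees_lt_of_eval_finset_eq Z
    · refine lt_of_le_of_lt degree_le_natDegree ?_
      exact_mod_cast hdeg A hA
    · refine lt_of_le_of_lt degree_le_natDegree ?_
      exact_mod_cast hdeg A' hA'
    · intro x hx
      obtain ⟨i, j, rfl, hij⟩ := hZprop x hx
      rw [pA_eval hnm hst hsR hz.pow_eq_one hR0 (hsub A hA) hij,
        pA_eval hnm hst hsR hz.pow_eq_one hR0 (hsub A' hA') hij, h3]
  -- pigeonhole
  obtain ⟨B, hB⟩ : ∃ B : ℕ, B = Nat.sqrt T := ⟨_, rfl⟩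
  have hpig : Nat.card (Subgroup.closure {a, b} : Subgroup (ZMod R)ˣ) < (B + 1) ^ 2 := by
    have h3 : Nat.card (Subgroup.closure {a, b} : Subgroup (ZMod R)ˣ) = T := hT.symm
    rw [h3, hB, sq]
    exact Nat.lt_succ_sqrt T
  have hLB : L * B ≤ J.card * s := by
    have h3 : (L * B) ^ 2 ≤ (s * J.card) ^ 2 := by
      refine le_trans ?_ h2
      have h4 : B * B ≤ T := by
        rw [hB]
        exact Nat.sqrt_le T
      calc (L * B) ^ 2 = L ^ 2 * (B * B) := by ring
        _ ≤ L ^ 2 * T := Nat.mul_le_mul_left _ h4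
    rw [mul_comm J.card s]
    exact (Nat.pow_le_pow_iff_left (by norm_num)).1 h3
  have fin : ∀ i j i' j' : ℕ, i ≤ B → j ≤ B → m ^ i' * p ^ j' < m ^ i * p ^ j →
      a ^ i * b ^ j = a ^ i' * b ^ j' → False := by
    intro i j i' j' hi hj hlt he
    have huv : ((m ^ i * p ^ j : ℕ) : ZMod R) = ((m ^ i' * p ^ j' : ℕ) : ZMod R) := by
      have := congrArg (fun u : (ZMod R)ˣ => (u : ZMod R)) he
      simpa [a, b, ZMod.coe_unitOfCoprime] using this
    obtain ⟨u, hu⟩ : ∃ u, u = m ^ i * p ^ j := ⟨_, rfl⟩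
    obtain ⟨v, hv⟩ : ∃ v, v = m ^ i' * p ^ j' := ⟨_, rfl⟩
    have hpos : 0 < u - v := by
      rw [hu, hv]
      exact Nat.sub_pos_of_lt hlt
    have h3 : ∀ A ∈ Λ.powerset, wA z A ^ (u - v) = 1 := by
      intro A hA
      rw [Finset.mem_powerset] at hA
      have hηR : ∀ q ∈ A, q.2 ^ R = 1 := by
        intro q hq
        obtain ⟨k, hk⟩ := hsR
        rw [hk, pow_mul, hsub A hA q hq, one_pow]
      have h4 : wA z A ^ u = wA z A ^ v := by
        rw [hu, wA_pow hnm hst i j hz.pow_eq_one hR0 hηR, hv,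
          wA_pow hnm hst i' j' hz.pow_eq_one hR0 hηR]
        refine Finset.prod_congr rfl fun q hq => ?_
        rw [pow_of_cast hz.pow_eq_one huv, pow_of_cast (hηR q hq) huv]
      have h5 : wA z A ^ v * wA z A ^ (u - v) = wA z A ^ v * 1 := by
        rw [← pow_add, Nat.add_sub_cancel' (by omega), mul_one, h4]
      exact mul_left_cancel₀ (pow_ne_zero _ (hne A hA)) h5
    have h4 : Λ.powerset.card ≤ u - v := by
      calc Λ.powerset.card = (Λ.powerset.image (wA z)).card :=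
            (Finset.card_image_of_injOn hinj).symm
        _ ≤ (nthRootsFinset (u - v) (1 : F)).card := by
            apply Finset.card_le_card
            intro x hx
            obtain ⟨A, hAm, rfl⟩ := Finset.mem_image.1 hx
            rw [mem_nthRootsFinset hpos]
            exact h3 A hAm
        _ ≤ u - v := by
            refine le_trans ?_ (card_nthRoots (u - v) (1 : F))
            exact @Multiset.toFinset_card_le F (Classical.decEq F) (nthRoots (u - v) (1 : F))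
    rw [Finset.card_powerset, hΛc] at h4
    have hm1 : 0 < m := Nat.pos_of_ne_zero hm0
    have h5 : u ≤ 2 ^ (L * B) := by
      calc u = m ^ i * p ^ j := hu
        _ ≤ m ^ B * p ^ B :=
            Nat.mul_le_mul (Nat.pow_le_pow_right hm1 hi) (Nat.pow_le_pow_right hp.pos hj)
        _ = n ^ B := by rw [hnm, mul_comm p m, mul_pow]
        _ ≤ (2 ^ L) ^ B := Nat.pow_le_pow_left hL B
        _ = 2 ^ (L * B) := by rw [pow_mul]
    have h6 : 0 < v := by
      rw [hv]
      exact Nat.mul_pos (pow_pos hm1 _) (pow_pos hp.pos _)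
    have h7 : 2 ^ (J.card * s) < 2 ^ (L * B) := by omega
    have h8 := (Nat.pow_lt_pow_iff_right (by norm_num : 1 < 2)).1 h7
    omega
  obtain ⟨i, j, i', j', hi, hj, hi', hj', hne', he⟩ := grp_pig hpig
  rcases lt_or_gt_of_ne (exp_ne hp hmp hne' hm0) with h3 | h3
  · exact fin i' j' i j hi' hj' h3 he.symm
  · exact fin i j i' j' hi hj h3 he

end AGQ
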