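import Mathlib

/-!
# AGQ: subgroups generated by two elements
-/

namespace AGQ

variable {G G2 : Type} [CommGroup G] [CommGroup G2]

theorem grp_rep [Finite G] {a b x : G} (hx : x ∈ Subgroup.closure {a, b}) :
    ∃ i j : ℕ, x = a ^ i * b ^ j := by
  obtain ⟨i, j, rfl⟩ := Subgroup.mem_closure_pair.1 hx
  have h1 : a ^ i ∈ Submonoid.powers a :=
    (mem_powers_iff_mem_zpowers).2 (Subgroup.zpow_mem_zpowers a i)
  have h2 : b ^ j ∈ Submonoid.powers b :=
    (mem_powers_iff_mem_zpowers).2 (Subgroup.zpow_mem_zpowers b j)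
  obtain ⟨i', hi⟩ := h1
  obtain ⟨j', hj⟩ := h2
  exact ⟨i', j', by rw [← hi, ← hj]⟩

/-- pigeonhole -/
theorem grp_pig [Finite G] {a b : G} {B : ℕ}
    (h : Nat.card (Subgroup.closure {a, b} : Subgroup G) < (B + 1) ^ 2) :
    ∃ i j i' j' : ℕ, i ≤ B ∧ j ≤ B ∧ i' ≤ B ∧ j' ≤ B ∧ (i, j) ≠ (i', j') ∧
      a ^ i * b ^ j = a ^ i' * b ^ j' := by
  classical
  have : Fintype (Subgroup.closure {a, b} : Subgroup G) := Fintype.ofFinite _
  have ha : a ∈ Subgroup.closure {a, b} := Subgroup.subset_closure (by simp)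
  have hb : b ∈ Subgroup.closure {a, b} := Subgroup.subset_closure (by simp)
  let f : ℕ × ℕ → (Subgroup.closure {a, b} : Subgroup G) := fun q =>
    ⟨a ^ q.1 * b ^ q.2, mul_mem (pow_mem ha _) (pow_mem hb _)⟩
  have hc : (Finset.univ : Finset (Subgroup.closure {a, b} : Subgroup G)).card <
      (Finset.range (B + 1) ×ˢ Finset.range (B + 1)).card := by
    rw [Finset.card_product, Finset.card_range, Finset.card_univ, ← Nat.card_eq_fintype_card,
      ← sq]
    exact h
  obtain ⟨x, hx, y, hy, hxy, hf⟩ := Finset.exists_ne_map_eq_of_card_lt_of_maps_to hc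
    (f := f) (fun x _ => Finset.mem_univ _)
  rw [Finset.mem_product, Finset.mem_range, Finset.mem_range] at hx hy
  refine ⟨x.1, x.2, y.1, y.2, by omega, by omega, by omega, by omega, ?_, ?_⟩
  · simpa using hxy
  · exact congrArg Subtype.val hf

/-- The image of a subgroup generated by two elements in a group of exponent `E` has at most `E ^ 2`
elements. -/
theorem grp_card [Finite G] (φ : G →* G2) (a b : G) {E : ℕ} (hE : 0 < E)
    (hx : ∀ x : G2, x ^ E = 1) :
    Nat.card (Subgroup.closure {a, b} : Subgroup G) ≤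
      Nat.card (Subgroup.closure {a, b} ⊓ φ.ker : Subgroup G) * E ^ 2 := by
  classical
  set H : Subgroup G := Subgroup.closure {a, b} with hH
  set ψ : H →* G2 := φ.comp H.subtype with hψ
  have h1 : Nat.card H = Nat.card ψ.ker * Nat.card ψ.range := by
    rw [← Subgroup.card_mul_index ψ.ker, Subgroup.index_ker]
  have h2 : Nat.card ψ.ker = Nat.card (H ⊓ φ.ker : Subgroup G) := by
    have e : ψ.ker.map H.subtype = H ⊓ φ.ker := by
      ext x
      rw [Subgroup.mem_map, Subgroup.mem_inf]
      constructor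
      · rintro ⟨y, hy, rfl⟩
        exact ⟨y.2, hy⟩
      · rintro ⟨hx1, hx2⟩
        exact ⟨⟨x, hx1⟩, hx2, rfl⟩
    rw [← e]
    exact (Nat.card_congr (ψ.ker.equivMapOfInjective H.subtype H.subtype_injective).toEquiv)
  have h3 : Nat.card ψ.range ≤ E ^ 2 := by
    have hsub : (ψ.range : Set G2) ⊆
        ((Finset.range E ×ˢ Finset.range E).image fun q : ℕ × ℕ => φ a ^ q.1 * φ b ^ q.2 : Finset G2) := by
      rintro _ ⟨y, rfl⟩
      obtain ⟨i, j, hij⟩ := grp_rep y.2
      rw [Finset.coe_image]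
      refine ⟨(i % E, j % E), ?_, ?_⟩
      · rw [Finset.mem_coe, Finset.mem_product, Finset.mem_range, Finset.mem_range]
        exact ⟨Nat.mod_lt _ hE, Nat.mod_lt _ hE⟩
      · have e1 : ∀ (x : G2) (k : ℕ), x ^ (k % E) = x ^ k := by
          intro x k
          conv_rhs => rw [← Nat.div_add_mod k E, pow_add, pow_mul, hx, one_pow, one_mul]
        have e2 : ψ y = φ (y : G) := rfl
        rw [e2, hij, map_mul, map_pow, map_pow]
        simp only [e1]
    have h4 : Nat.card ψ.range ≤ ((Finset.range E ×ˢ Finset.range E).image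
        fun q : ℕ × ℕ => φ a ^ q.1 * φ b ^ q.2 : Finset G2).card := by
      rw [← Set.ncard_coe_finset, ← Nat.card_coe_set_eq]
      exact Nat.card_mono (Finset.finite_toSet _) hsub
    refine h4.trans (Finset.card_image_le.trans ?_)
    rw [Finset.card_product, Finset.card_range, sq]
  rw [h1, h2]
  exact Nat.mul_le_mul_left _ h3

end AGQ
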