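import Mathlib

/-!
# AGQ: a product of different linear factors is determined by its values
-/

open Polynomial

namespace AGQ

theorem prod_inj {F : Type} [Field F] {A A' Z : Finset F} (hA : A.card < Z.card)
    (hA' : A'.card < Z.card) (h : ∀ x ∈ Z, ∏ η ∈ A, (x - η) = ∏ η ∈ A', (x - η)) : A = A' := by
  have hdeg : ∀ B : Finset F, (∏ η ∈ B, (X - C η)).degree = (B.card : WithBot ℕ) := by
    intro B
    rw [degree_prod]
    simp
  have h1 : (∏ η ∈ A, (X - C η)) = ∏ η ∈ A', (X - C η) := by
    apply eq_of_degrees_lt_of_eval_finset_eq Z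
    · rw [hdeg]
      exact_mod_cast hA
    · rw [hdeg]
      exact_mod_cast hA'
    · intro x hx
      rw [eval_prod, eval_prod]
      simpa using h x hx
  have h2 : ∀ B : Finset F, (∏ η ∈ B, (X - C η)).roots = B.val := by
    intro B
    exact roots_prod_X_sub_C B
  apply Finset.val_injective
  rw [← h2 A, ← h2 A', h1]

/-- the number of small subsets -/
theorem card_small {F : Type} [DecidableEq F] (S : Finset F) {t : ℕ} (ht : 1 ≤ t) :
    2 ^ min S.card (t - 1) ≤ (S.powerset.filter fun A => A.card < t).card := by
  obtain ⟨S0, hS0, hc⟩ := Finset.exists_subset_card_eq (min_le_left S.card (t - 1))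
  rw [← hc, ← Finset.card_powerset]
  apply Finset.card_le_card
  intro A hA
  rw [Finset.mem_powerset] at hA
  rw [Finset.mem_filter, Finset.mem_powerset]
  refine ⟨hA.trans hS0, ?_⟩
  have h1 := Finset.card_le_card hA
  have h2 := min_le_right S.card (t - 1)
  omega

end AGQ
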