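import Pool.Agent.AGQ.Intr
import Pool.Agent.AGQ.Grp
import Pool.Agent.AGQ.Inj

/-!
# AGQ: the AKS argument modulo `r s`
-/

open Polynomial

namespace AGQ

variable {n m p r s : ℕ}

/-- the product of the `z - η`, `η ∈ A` -/
noncomputable def vA {F : Type} [Field F] (z : F) (A : Finset F) : F := ∏ η ∈ A, (z - η)

theorem vA_pow [Fact p.Prime] {F : Type} [Field F] [CharP F p] (hnm : n = p * m)
    (hst : (X ^ (r * s) - 1 : (ZMod n)[X]) ∣ (X - 1) ^ n - (X ^ n - 1)) (a b : ℕ) {z : F}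
    (hz : z ^ r = 1) (hs : s ≠ 0) {A : Finset F} (hA : ∀ η ∈ A, η ^ s = 1) :
    vA z A ^ (m ^ a * p ^ b) = ∏ η ∈ A, (z ^ (m ^ a * p ^ b) - η ^ (m ^ a * p ^ b)) := by
  unfold vA
  rw [← Finset.prod_pow]
  exact Finset.prod_congr rfl fun η hη => lin2 hnm hst a b hz (hA η hη) hs

/-- powers of a root of unity only depend on the exponent modulo the order -/
theorem pow_of_cast {F : Type} [Field F] {N u v : ℕ} {x : F} (hx : x ^ N = 1)
    (h : (u : ZMod N) = (v : ZMod N)) : x ^ u = x ^ v := by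
  rw [ZMod.natCast_eq_natCast_iff] at h
  have h1 : ∀ k : ℕ, x ^ k = x ^ (k % N) := by
    intro k
    conv_lhs => rw [← Nat.div_add_mod k N, pow_add, pow_mul, hx, one_pow, one_mul]
  rw [h1 u, h1 v, h]

/-- upper bound: the values are roots of unity of small order -/
theorem card_upper [Fact p.Prime] {F : Type} [Field F] [CharP F p] [DecidableEq F]
    (hnm : n = p * m)
    (hst : (X ^ (r * s) - 1 : (ZMod n)[X]) ∣ (X - 1) ^ n - (X ^ n - 1)) {z : F}
    (hz : z ^ r = 1) (hs : s ≠ 0) (𝒜 : Finset (Finset F)) (hA : ∀ A ∈ 𝒜, ∀ η ∈ A, η ^ s = 1)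
    (h0 : ∀ η : F, η ^ s = 1 → z ≠ η) (hinj : Set.InjOn (vA z) (𝒜 : Set (Finset F)))
    {a b a' b' : ℕ} (hlt : m ^ a' * p ^ b' < m ^ a * p ^ b)
    (huv : ((m ^ a * p ^ b : ℕ) : ZMod (r * s)) = ((m ^ a' * p ^ b' : ℕ) : ZMod (r * s))) :
    𝒜.card ≤ m ^ a * p ^ b - m ^ a' * p ^ b' := by
  set u := m ^ a * p ^ b with hu
  set v := m ^ a' * p ^ b' with hv
  have hpos : 0 < u - v := Nat.sub_pos_of_lt hlt
  have h1 : ∀ A ∈ 𝒜, vA z A ^ (u - v) = 1 := by
    intro A hAm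
    have hne : vA z A ≠ 0 := by
      unfold vA
      rw [Finset.prod_ne_zero_iff]
      intro η hη
      exact sub_ne_zero.2 (h0 η (hA A hAm η hη))
    have hzN : z ^ (r * s) = 1 := by rw [pow_mul, hz, one_pow]
    have h2 : vA z A ^ u = vA z A ^ v := by
      rw [hu, vA_pow hnm hst a b hz hs (hA A hAm), hv, vA_pow hnm hst a' b' hz hs (hA A hAm)]
      refine Finset.prod_congr rfl fun η hη => ?_
      have hηN : η ^ (r * s) = 1 := by rw [mul_comm, pow_mul, hA A hAm η hη, one_pow]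
      rw [pow_of_cast hzN huv, pow_of_cast hηN huv]
    have h3 : vA z A ^ v * vA z A ^ (u - v) = vA z A ^ v * 1 := by
      rw [← pow_add, Nat.add_sub_cancel' hlt.le, mul_one, h2]
    exact mul_left_cancel₀ (pow_ne_zero _ hne) h3
  calc 𝒜.card = (𝒜.image (vA z)).card := (Finset.card_image_of_injOn hinj).symm
    _ ≤ (nthRootsFinset (u - v) (1 : F)).card := by
        apply Finset.card_le_card
        intro x hx
        obtain ⟨A, hAm, rfl⟩ := Finset.mem_image.1 hx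
        rw [mem_nthRootsFinset hpos]
        exact h1 A hAm
    _ ≤ u - v := by
        refine le_trans ?_ (card_nthRoots (u - v) (1 : F))
        exact @Multiset.toFinset_card_le F (Classical.decEq F) (nthRoots (u - v) (1 : F))

/-- lower bound: injectivity -/
theorem inj_lower [Fact p.Prime] {F : Type} [Field F] [CharP F p] [DecidableEq F]
    (hnm : n = p * m)
    (hst : (X ^ (r * s) - 1 : (ZMod n)[X]) ∣ (X - 1) ^ n - (X ^ n - 1)) {z : F}
    (hz : z ^ r = 1) (hs : s ≠ 0) {A A' Z : Finset F} (hA : ∀ η ∈ A, η ^ s = 1)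
    (hA' : ∀ η ∈ A', η ^ s = 1) (hc : A.card < Z.card) (hc' : A'.card < Z.card)
    (hZ : ∀ x ∈ Z, ∃ a b : ℕ, x = z ^ (m ^ a * p ^ b) ∧ ((m ^ a * p ^ b : ℕ) : ZMod s) = 1)
    (h : vA z A = vA z A') : A = A' := by
  apply prod_inj hc hc'
  intro x hx
  obtain ⟨a, b, rfl, h1⟩ := hZ x hx
  have h2 : ∀ η : F, η ^ s = 1 → η ^ (m ^ a * p ^ b) = η := by
    intro η hη
    have h3 : ((m ^ a * p ^ b : ℕ) : ZMod s) = ((1 : ℕ) : ZMod s) := by rw [h1, Nat.cast_one]
    rw [pow_of_cast hη h3, pow_one]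
  have h4 : ∀ B : Finset F, (∀ η ∈ B, η ^ s = 1) →
      ∏ η ∈ B, (z ^ (m ^ a * p ^ b) - η) = vA z B ^ (m ^ a * p ^ b) := by
    intro B hB
    rw [vA_pow hnm hst a b hz hs hB]
    exact Finset.prod_congr rfl fun η hη => by rw [h2 η (hB η hη)]
  rw [h4 A hA, h4 A' hA', h]

end AGQ
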