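import Pool.Agent.AGQ.Core

/-!
# AGQ: the criterion
-/

open Polynomial

namespace AGQ

variable {n m p r s : ℕ}

/-- different exponents give different numbers -/
theorem exp_ne (hp : p.Prime) (hmp : ∀ j, m ≠ p ^ j) {i j i' j' : ℕ} (h : (i, j) ≠ (i', j'))
    (hm : m ≠ 0) : m ^ i * p ^ j ≠ m ^ i' * p ^ j' := by
  have key : ∀ {i j i' j' : ℕ}, i' < i → m ^ i * p ^ j = m ^ i' * p ^ j' → False := by
    intro i j i' j' hi he
    have h1 : m ^ i = m ^ i' * m ^ (i - i') := by rw [← pow_add]; congr 1; omega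
    rw [h1, mul_assoc] at he
    have h2 := Nat.eq_of_mul_eq_mul_left (pow_pos (Nat.pos_of_ne_zero hm) i') he
    have h3 : m ∣ p ^ j' := by
      rw [← h2]
      exact (dvd_pow_self m (by omega)).mul_right _
    obtain ⟨c, -, hc⟩ := (Nat.dvd_prime_pow hp).1 h3
    exact hmp c hc
  intro he
  rcases lt_trichotomy i i' with h1 | h1 | h1
  · exact key h1 he.symm
  · subst h1
    have h2 := Nat.eq_of_mul_eq_mul_left (pow_pos (Nat.pos_of_ne_zero hm) i) he
    have h3 := Nat.pow_right_injective hp.two_le h2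
    exact h (by rw [h3])
  · exact key h1 he

theorem crit {L E : ℕ} [Fact p.Prime] (hnm : n = p * m) (hmp : ∀ j, m ≠ p ^ j) (hr : 1 < r)
    (hs : 0 < s) (hrs : r.Coprime s) (hn : n.Coprime (r * s)) (hE : 0 < E)
    (hE' : ∀ x : (ZMod s)ˣ, x ^ E = 1) (hL : n ≤ 2 ^ L)
    (h1 : E ^ 2 * (E * L + 1) ^ 2 ≤ orderOf ((n : ℕ) : ZMod r)) (h2 : (E * L) ^ 2 * r ≤ s ^ 2) :
    ¬ (X ^ (r * s) - 1 : (ZMod n)[X]) ∣ (X - 1) ^ n - (X ^ n - 1) := by
  classical
  intro hst
  have hp : p.Prime := Fact.out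
  have hm0 : m ≠ 0 := by
    rintro rfl
    rw [mul_zero] at hnm
    rw [hnm, Nat.coprime_zero_left] at hn
    have := Nat.eq_one_of_mul_eq_one_right hn
    omega
  have hN : 0 < r * s := by positivity
  have : NeZero (r * s) := ⟨hN.ne'⟩
  have : NeZero s := ⟨hs.ne'⟩
  have : NeZero r := ⟨by omega⟩
  have hpN : p.Coprime (r * s) := Nat.Coprime.coprime_dvd_left ⟨m, hnm⟩ hn
  have hmN : m.Coprime (r * s) := Nat.Coprime.coprime_dvd_left ⟨p, by rw [hnm, mul_comm]⟩ hn
  have hpr : p.Coprime r := Nat.Coprime.coprime_mul_right_right hpN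
  have hps : p.Coprime s := Nat.Coprime.coprime_mul_left_right hpN
  -- the field
  let F := AlgebraicClosure (ZMod p)
  have : CharP F p := inferInstance
  have hrF : ((r : ℕ) : F) ≠ 0 := by
    intro h
    exact (Nat.Prime.coprime_iff_not_dvd hp).1 hpr ((CharP.cast_eq_zero_iff F p r).1 h)
  have hsF : ((s : ℕ) : F) ≠ 0 := by
    intro h
    exact (Nat.Prime.coprime_iff_not_dvd hp).1 hps ((CharP.cast_eq_zero_iff F p s).1 h)
  have : NeZero ((r : ℕ) : F) := ⟨hrF⟩
  have : NeZero ((s : ℕ) : F) := ⟨hsF⟩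
  obtain ⟨z, hz0⟩ : ∃ z : F, (cyclotomic r F).IsRoot z :=
    IsAlgClosed.exists_root _ (by
      rw [degree_cyclotomic]
      have := Nat.totient_pos.2 (by omega : 0 < r)
      exact_mod_cast this.ne')
  have hz : IsPrimitiveRoot z r := isRoot_cyclotomic_iff.1 hz0
  obtain ⟨w, hw0⟩ : ∃ w : F, (cyclotomic s F).IsRoot w :=
    IsAlgClosed.exists_root _ (by
      rw [degree_cyclotomic]
      have := Nat.totient_pos.2 hs
      exact_mod_cast this.ne')
  have hw : IsPrimitiveRoot w s := isRoot_cyclotomic_iff.1 hw0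
  have hS : (nthRootsFinset s (1 : F)).card = s := hw.card_nthRootsFinset
  have hzs : ∀ η : F, η ^ s = 1 → z ≠ η := by
    rintro η hη rfl
    have h3 := hz.dvd_of_pow_eq_one s hη
    have h4 := Nat.dvd_gcd dvd_rfl h3
    rw [Nat.coprime_iff_gcd_eq_one.1 hrs] at h4
    have := Nat.dvd_one.1 h4
    omega
  -- the group
  let a : (ZMod (r * s))ˣ := ZMod.unitOfCoprime m hmN
  let b : (ZMod (r * s))ˣ := ZMod.unitOfCoprime p hpN
  let φ : (ZMod (r * s))ˣ →* (ZMod s)ˣ := ZMod.unitsMap (Dvd.intro_left r rfl)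
  let ψ : (ZMod (r * s))ˣ →* (ZMod r)ˣ := ZMod.unitsMap (Dvd.intro s rfl)
  obtain ⟨H, hH⟩ : ∃ H : Subgroup (ZMod (r * s))ˣ, H = Subgroup.closure {a, b} := ⟨_, rfl⟩
  obtain ⟨K, hK⟩ : ∃ K : Subgroup (ZMod (r * s))ˣ, K = H ⊓ φ.ker := ⟨_, rfl⟩
  obtain ⟨t, ht⟩ : ∃ t : ℕ, t = Nat.card K := ⟨_, rfl⟩
  obtain ⟨T, hT⟩ : ∃ T : ℕ, T = Nat.card H := ⟨_, rfl⟩
  have hTt : T ≤ t * E ^ 2 := by
    rw [hT, ht, hK, hH]
    exact grp_card φ a b hE hE'
  have hTo : orderOf ((n : ℕ) : ZMod r) ≤ T := by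
    have h3 : a * b ∈ H := by
      rw [hH]
      exact mul_mem (Subgroup.subset_closure (by simp)) (Subgroup.subset_closure (by simp))
    have h4 : orderOf (a * b) ∣ T := by
      rw [hT]
      have := orderOf_dvd_natCard (⟨a * b, h3⟩ : H)
      rwa [Subgroup.orderOf_mk] at this
    have h5 : orderOf ((n : ℕ) : ZMod r) ∣ orderOf (a * b) := by
      have h6 : ((n : ℕ) : ZMod r) = ((ψ (a * b) : (ZMod r)ˣ) : ZMod r) := by
        rw [map_mul, Units.val_mul]
        simp only [ψ, a, b, ZMod.unitsMap_val, ZMod.coe_unitOfCoprime]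
        rw [ZMod.cast_natCast (Dvd.intro s rfl), ZMod.cast_natCast (Dvd.intro s rfl), hnm]
        push_cast
        ring
      rw [h6, orderOf_units]
      exact orderOf_map_dvd ψ (a * b)
    have hTpos : 0 < T := by
      rw [hT]
      exact Nat.card_pos
    exact Nat.le_of_dvd hTpos (h5.trans h4)
  -- the evaluation points
  have hKfin : Finite K := inferInstance
  let Z : Finset F := ((Set.toFinite (K : Set (ZMod (r * s))ˣ)).toFinset).image
    fun x : (ZMod (r * s))ˣ => z ^ (x : ZMod (r * s)).val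
  have hZt : Z.card = t := by
    rw [ht, Finset.card_image_of_injOn]
    · rw [← Set.ncard_eq_toFinset_card _ (Set.toFinite _)]
      rfl
    · intro x hx y hy hxy
      rw [Finset.mem_coe, Set.Finite.mem_toFinset] at hx hy
      have hx1 : x ∈ φ.ker := by
        have : x ∈ H ⊓ φ.ker := by rw [← hK]; exact hx
        exact this.2
      have hy1 : y ∈ φ.ker := by
        have : y ∈ H ⊓ φ.ker := by rw [← hK]; exact hy
        exact this.2
      have e1 : ((x : ZMod (r * s)).val : ZMod r) = ((y : ZMod (r * s)).val : ZMod r) := by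
        rw [ZMod.natCast_eq_natCast_iff]
        have h8 : z ^ (x : ZMod (r * s)).val = z ^ (y : ZMod (r * s)).val := hxy
        have h9 := ((hz.isOfFinOrder (by omega)).pow_eq_pow_iff_modEq).1 h8
        rwa [← hz.eq_orderOf] at h9
      have e2 : ∀ x : (ZMod (r * s))ˣ, x ∈ φ.ker → ((x : ZMod (r * s)).val : ZMod s) = 1 := by
        intro x hx
        rw [MonoidHom.mem_ker] at hx
        have := congrArg (fun u : (ZMod s)ˣ => (u : ZMod s)) hx
        simp only [φ, ZMod.unitsMap_val, Units.val_one] at this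
        rw [ZMod.natCast_val]
        exact this
      have e3 : ((x : ZMod (r * s)).val : ZMod s) = ((y : ZMod (r * s)).val : ZMod s) := by
        rw [e2 x hx1, e2 y hy1]
      rw [ZMod.natCast_eq_natCast_iff] at e1 e3
      have e4 := (Nat.modEq_and_modEq_iff_modEq_mul hrs).1 ⟨e1, e3⟩
      rw [← ZMod.natCast_eq_natCast_iff] at e4
      rw [ZMod.natCast_zmod_val, ZMod.natCast_zmod_val] at e4
      exact Units.ext e4
  have htr : t ≤ r := by
    rw [← hZt]
    have h3 : Z ⊆ nthRootsFinset r (1 : F) := by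
      intro x hx
      obtain ⟨y, -, rfl⟩ := Finset.mem_image.1 hx
      rw [mem_nthRootsFinset (by omega)]
      rw [← pow_mul, mul_comm, pow_mul, hz.pow_eq_one, one_pow]
    refine (Finset.card_le_card h3).trans ?_
    rw [hz.card_nthRootsFinset]
  have hZprop : ∀ x ∈ Z, ∃ a b : ℕ, x = z ^ (m ^ a * p ^ b) ∧
      ((m ^ a * p ^ b : ℕ) : ZMod s) = 1 := by
    intro x hx
    obtain ⟨y, hy, rfl⟩ := Finset.mem_image.1 hx
    rw [Set.Finite.mem_toFinset] at hy
    have hy1 : y ∈ H ⊓ φ.ker := by rw [← hK]; exact hy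
    obtain ⟨hyH, hyk⟩ := hy1
    rw [hH] at hyH
    obtain ⟨i, j, hij⟩ := grp_rep hyH
    have e1 : (y : ZMod (r * s)) = ((m ^ i * p ^ j : ℕ) : ZMod (r * s)) := by
      rw [hij]
      simp [a, b, ZMod.coe_unitOfCoprime]
    refine ⟨i, j, ?_, ?_⟩
    · apply pow_of_cast (N := r) hz.pow_eq_one
      rw [ZMod.natCast_eq_natCast_iff]
      have e2 : ((y : ZMod (r * s)).val : ZMod (r * s)) = ((m ^ i * p ^ j : ℕ) : ZMod (r * s)) := by
        rw [ZMod.natCast_zmod_val, e1]
      rw [ZMod.natCast_eq_natCast_iff] at e2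
      exact e2.of_mul_right s
    · have hyk' : φ y = 1 := hyk
      have := congrArg (fun u : (ZMod s)ˣ => (u : ZMod s)) hyk'
      simp only [φ, ZMod.unitsMap_val, Units.val_one] at this
      rw [e1, ZMod.cast_natCast (Dvd.intro_left r rfl)] at this
      exact this
  -- pigeonhole
  have hpig : Nat.card (Subgroup.closure {a, b} : Subgroup (ZMod (r * s))ˣ) <
      (Nat.sqrt T + 1) ^ 2 := by
    rw [← hH, ← hT, sq]
    exact Nat.lt_succ_sqrt T
  obtain ⟨B, hB⟩ : ∃ B : ℕ, B = Nat.sqrt T := ⟨_, rfl⟩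
  have hBT : B * B ≤ T := by
    rw [hB]
    exact Nat.sqrt_le T
  rw [← hB] at hpig
  have ht1 : (E * L + 1) ^ 2 ≤ t := by
    have h3 : E ^ 2 * (E * L + 1) ^ 2 ≤ E ^ 2 * t := by
      rw [mul_comm (E ^ 2) t]
      exact h1.trans (hTo.trans hTt)
    exact Nat.le_of_mul_le_mul_left h3 (by positivity)
  have ht0 : 1 ≤ t := le_trans (by nlinarith [Nat.zero_le (E * L)]) ht1
  have hLB : (L * B) ^ 2 ≤ (E * L) ^ 2 * t := by
    have h3 : B * B ≤ t * E ^ 2 := hBT.trans hTt
    calc (L * B) ^ 2 = L ^ 2 * (B * B) := by ring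
      _ ≤ L ^ 2 * (t * E ^ 2) := Nat.mul_le_mul_left _ h3
      _ = (E * L) ^ 2 * t := by ring
  have hLBs : L * B ≤ s := by
    have h3 : (L * B) ^ 2 ≤ s ^ 2 := hLB.trans ((Nat.mul_le_mul_left _ htr).trans h2)
    exact (Nat.pow_le_pow_iff_left (by norm_num)).1 h3
  have hLBt : L * B ≤ t - 1 := by
    have h3 : (L * B) ^ 2 ≤ (t - 1) ^ 2 := by
      refine hLB.trans ?_
      obtain ⟨t', rfl⟩ : ∃ t', t = t' + 1 := ⟨t - 1, by omega⟩
      rw [Nat.add_sub_cancel]
      obtain ⟨v, hv⟩ : ∃ v, v = E * L := ⟨_, rfl⟩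
      rw [← hv] at ht1 ⊢
      rcases Nat.eq_zero_or_pos v with h0 | h0
      · rw [h0]
        simp
      · have h4 : v ^ 2 + 2 * v ≤ t' := by nlinarith
        nlinarith [Nat.mul_le_mul_left t' h4, Nat.mul_le_mul_left (v ^ 2) h4, sq_nonneg v]
    exact (Nat.pow_le_pow_iff_left (by norm_num)).1 h3
  have fin : ∀ i j i' j' : ℕ, i ≤ B → j ≤ B → m ^ i' * p ^ j' < m ^ i * p ^ j →
      a ^ i * b ^ j = a ^ i' * b ^ j' → False := by
    intro i j i' j' hi hj hlt he
    have huv : ((m ^ i * p ^ j : ℕ) : ZMod (r * s)) = ((m ^ i' * p ^ j' : ℕ) : ZMod (r * s)) := by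
      have := congrArg (fun u : (ZMod (r * s))ˣ => (u : ZMod (r * s))) he
      simpa [a, b, ZMod.coe_unitOfCoprime] using this
    have hA : ∀ A ∈ (nthRootsFinset s (1 : F)).powerset.filter (fun A => A.card < t),
        ∀ η ∈ A, η ^ s = 1 := by
      intro A hA η hη
      rw [Finset.mem_filter, Finset.mem_powerset] at hA
      exact (mem_nthRootsFinset hs _).1 (hA.1 hη)
    have hinj : Set.InjOn (vA z)
        (((nthRootsFinset s (1 : F)).powerset.filter (fun A => A.card < t) : Finset (Finset F)) :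
          Set (Finset F)) := by
      intro A hA1 A' hA2 h3
      have hA1' := hA1
      have hA2' := hA2
      rw [Finset.mem_coe, Finset.mem_filter] at hA1' hA2'
      exact inj_lower hnm hst hz.pow_eq_one hs.ne' (hA A hA1) (hA A' hA2)
        (by rw [hZt]; exact hA1'.2) (by rw [hZt]; exact hA2'.2) hZprop h3
    have h3 := card_upper hnm hst hz.pow_eq_one hs.ne' _ hA hzs hinj hlt huv
    have h4 := card_small (nthRootsFinset s (1 : F)) ht0
    rw [hS] at h4
    have h5 : m ^ i * p ^ j ≤ 2 ^ (L * B) := by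
      have hm1 : 0 < m := Nat.pos_of_ne_zero hm0
      calc m ^ i * p ^ j ≤ m ^ B * p ^ B :=
            Nat.mul_le_mul (Nat.pow_le_pow_right hm1 hi) (Nat.pow_le_pow_right hp.pos hj)
        _ = n ^ B := by rw [hnm, mul_comm p m, mul_pow]
        _ ≤ (2 ^ L) ^ B := Nat.pow_le_pow_left hL B
        _ = 2 ^ (L * B) := by rw [pow_mul]
    have hm1 : 0 < m := Nat.pos_of_ne_zero hm0
    have h6 : 0 < m ^ i' * p ^ j' := Nat.mul_pos (pow_pos hm1 _) (pow_pos hp.pos _)
    have h7 : 2 ^ min s (t - 1) < 2 ^ (L * B) := by omega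
    have h8 := (Nat.pow_lt_pow_iff_right (by norm_num : 1 < 2)).1 h7
    have h9 : L * B ≤ min s (t - 1) := le_min hLBs hLBt
    omega
  obtain ⟨i, j, i', j', hi, hj, hi', hj', hne, he⟩ := grp_pig hpig
  rcases lt_or_gt_of_ne (exp_ne hp hmp hne hm0) with h3 | h3
  · exact fin i' j' i j hi' hj' h3 he.symm
  · exact fin i j i' j' hi hj h3 he

end AGQ
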