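import Pool.Agent.AGQ.Tur

/-!
# AGQ: divisor sums and almost independence
-/

open Finset

namespace AGQ

/-- `f r = ∑ c_i [D_i ∣ r]` with the `D_i` composed of primes in `P`, mean `M` and total weight `w` -/
def DS (P : Finset ℕ) (f : ℕ → ℝ) (M w : ℝ) : Prop :=
  ∃ (I : Type) (_ : Fintype I) (D : I → ℕ) (c : I → ℝ),
    (∀ i, 0 < D i ∧ ∀ q : ℕ, q.Prime → q ∣ D i → q ∈ P) ∧
    (∀ r, f r = ∑ i, c i * (if D i ∣ r then (1 : ℝ) else 0)) ∧
    M = ∑ i, c i / (D i : ℝ) ∧ w = ∑ i, |c i|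

theorem DS.one (P : Finset ℕ) : DS P (fun _ => 1) 1 1 := by
  refine ⟨Unit, inferInstance, fun _ => 1, fun _ => 1, ?_, ?_, ?_, ?_⟩
  · intro _
    refine ⟨one_pos, fun q hq h => ?_⟩
    exact absurd (Nat.dvd_one.1 h) hq.one_lt.ne'
  · intro r
    simp
  · simp
  · simp

theorem DS.mul {P P' : Finset ℕ} (hPP : Disjoint P P') {f f' : ℕ → ℝ} {M M' w w' : ℝ}
    (h : DS P f M w) (h' : DS P' f' M' w') :
    DS (P ∪ P') (fun r => f r * f' r) (M * M') (w * w') := by
  classical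
  obtain ⟨I, _, D, c, h1, h2, h3, h4⟩ := h
  obtain ⟨I', _, D', c', h1', h2', h3', h4'⟩ := h'
  refine ⟨I × I', inferInstance, fun i => D i.1 * D' i.2, fun i => c i.1 * c' i.2, ?_, ?_, ?_, ?_⟩
  · intro i
    refine ⟨Nat.mul_pos (h1 i.1).1 (h1' i.2).1, fun q hq h => ?_⟩
    rcases (hq.dvd_mul).1 h with h | h
    · exact mem_union_left _ ((h1 i.1).2 q hq h)
    · exact mem_union_right _ ((h1' i.2).2 q hq h)
  · intro r
    dsimp only
    rw [h2, h2', sum_mul_sum, Fintype.sum_prod_type]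
    refine sum_congr rfl fun i _ => sum_congr rfl fun i' _ => ?_
    have hcop : (D i).Coprime (D' i') := by
      apply Nat.coprime_of_dvd
      intro q hq h5 h6
      exact (Finset.disjoint_left.1 hPP) ((h1 i).2 q hq h5) ((h1' i').2 q hq h6)
    have h7 : (D i * D' i' ∣ r) ↔ (D i ∣ r ∧ D' i' ∣ r) :=
      ⟨fun h => ⟨(Dvd.intro _ rfl).trans h, (Dvd.intro_left _ rfl).trans h⟩,
        fun h => hcop.mul_dvd_of_dvd_of_dvd h.1 h.2⟩
    dsimp only
    by_cases h8 : D i ∣ r <;> by_cases h9 : D' i' ∣ r <;> simp [h7, h8, h9]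
  · rw [h3, h3', sum_mul_sum, Fintype.sum_prod_type]
    refine sum_congr rfl fun i _ => sum_congr rfl fun i' _ => ?_
    dsimp only
    push_cast
    rw [div_mul_div_comm]
  · rw [h4, h4', sum_mul_sum, Fintype.sum_prod_type]
    refine sum_congr rfl fun i _ => sum_congr rfl fun i' _ => ?_
    dsimp only
    rw [abs_mul]

theorem DS.sum_le {P : Finset ℕ} {f : ℕ → ℝ} {M w : ℝ} (h : DS P f M w) (x : ℕ) :
    ∑ r ∈ Icc 1 x, f r ≤ x * M + w := by
  obtain ⟨I, _, D, c, h1, h2, h3, h4⟩ := h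
  simp_rw [h2]
  rw [sum_comm]
  simp_rw [← mul_sum, sum_dvd]
  rw [h3, h4, mul_sum, ← sum_add_distrib]
  refine sum_le_sum fun i _ => ?_
  have hD : (0 : ℝ) < D i := by exact_mod_cast (h1 i).1
  have h5 : |((x / D i : ℕ) : ℝ) - (x : ℝ) / D i| ≤ 1 := by
    rw [abs_le]
    constructor
    · have h6 := Nat.lt_div_mul_add (a := x) (h1 i).1
      have h7 : (x : ℝ) < ((x / D i : ℕ) : ℝ) * D i + D i := by exact_mod_cast h6
      have h8 : (x : ℝ) / D i < ((x / D i : ℕ) : ℝ) + 1 := by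
        rw [div_lt_iff₀ hD]
        nlinarith
      linarith
    · have h6 : ((x / D i : ℕ) : ℝ) ≤ (x : ℝ) / D i := Nat.cast_div_le
      linarith
  have h6 : c i * ((x / D i : ℕ) : ℝ) - c i * ((x : ℝ) / D i) ≤ |c i| := by
    calc c i * ((x / D i : ℕ) : ℝ) - c i * ((x : ℝ) / D i) =
          c i * (((x / D i : ℕ) : ℝ) - (x : ℝ) / D i) := by ring
      _ ≤ |c i * (((x / D i : ℕ) : ℝ) - (x : ℝ) / D i)| := le_abs_self _
      _ = |c i| * |((x / D i : ℕ) : ℝ) - (x : ℝ) / D i| := abs_mul _ _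
      _ ≤ |c i| * 1 := mul_le_mul_of_nonneg_left h5 (abs_nonneg _)
      _ = |c i| := mul_one _
  have h7 : (x : ℝ) * (c i / D i) = c i * ((x : ℝ) / D i) := by ring
  rw [h7]
  linarith

/-- the basic divisor sum -/
theorem DS.base (P : Finset ℕ) (hP : ∀ q ∈ P, q.Prime) {E : ℝ} (hE : E = ∑ q ∈ P, 1 / (q : ℝ))
    (hE0 : 0 < E) : ∃ M w : ℝ, DS P (fun r => (1 - (om P r : ℝ) / E) ^ 2) M w ∧ M ≤ 1 / E ∧
      w ≤ (1 + P.card / E) ^ 2 ∧ 0 ≤ M := by
  classical
  obtain ⟨D, hD⟩ : ∃ D : Unit ⊕ ({q // q ∈ P} ⊕ ({q // q ∈ P} × {q // q ∈ P})) → ℕ,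
      D = Sum.elim (fun _ : Unit => 1) (Sum.elim (fun q : {q // q ∈ P} => (q : ℕ))
        (fun i : {q // q ∈ P} × {q // q ∈ P} =>
          if i.1 = i.2 then (i.1 : ℕ) else (i.1 : ℕ) * (i.2 : ℕ))) := ⟨_, rfl⟩
  obtain ⟨c, hc⟩ : ∃ c : Unit ⊕ ({q // q ∈ P} ⊕ ({q // q ∈ P} × {q // q ∈ P})) → ℝ,
      c = Sum.elim (fun _ : Unit => (1 : ℝ)) (Sum.elim (fun _ : {q // q ∈ P} => -(2 / E))
        (fun _ : {q // q ∈ P} × {q // q ∈ P} => 1 / E ^ 2)) := ⟨_, rfl⟩
  have hpos : ∀ q : {q // q ∈ P}, (0 : ℝ) < (q : ℕ) := fun q => by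
    exact_mod_cast (hP q q.2).pos
  have hds : DS P (fun r => (1 - (om P r : ℝ) / E) ^ 2) (∑ i, c i / (D i : ℝ)) (∑ i, |c i|) := by
    refine ⟨_, inferInstance, D, c, ?_, ?_, rfl, rfl⟩
    · rintro (_ | q | ⟨q, q'⟩)
      · rw [hD]
        refine ⟨one_pos, fun q hq h => ?_⟩
        exact absurd (Nat.dvd_one.1 h) hq.one_lt.ne'
      · rw [hD]
        refine ⟨(hP q q.2).pos, fun q' hq' h => ?_⟩
        have : q' = q := (Nat.prime_dvd_prime_iff_eq hq' (hP q q.2)).1 h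
        rw [this]
        exact q.2
      · rw [hD]
        dsimp only [Sum.elim_inr]
        split_ifs with h0
        · refine ⟨(hP q q.2).pos, fun q'' hq'' h => ?_⟩
          have : q'' = q := (Nat.prime_dvd_prime_iff_eq hq'' (hP q q.2)).1 h
          rw [this]
          exact q.2
        · refine ⟨Nat.mul_pos (hP q q.2).pos (hP q' q'.2).pos, fun q'' hq'' h => ?_⟩
          rcases (hq''.dvd_mul).1 h with h | h
          · have : q'' = q := (Nat.prime_dvd_prime_iff_eq hq'' (hP q q.2)).1 h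
            rw [this]
            exact q.2
          · have : q'' = q' := (Nat.prime_dvd_prime_iff_eq hq'' (hP q' q'.2)).1 h
            rw [this]
            exact q'.2
    · intro r
      rw [Fintype.sum_sum_type, Fintype.sum_sum_type, Fintype.sum_prod_type]
      rw [hD, hc]
      simp only [Sum.elim_inl, Sum.elim_inr, univ_unique, sum_singleton, isUnit_one,
        IsUnit.dvd, if_true, mul_one]
      have h1 : (om P r : ℝ) = ∑ q : {q // q ∈ P}, if (q : ℕ) ∣ r then (1 : ℝ) else 0 := by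
        rw [om_eq, ← sum_coe_sort P]
      have h2 : ∀ q q' : {q // q ∈ P},
          (if (if q = q' then (q : ℕ) else (q : ℕ) * (q' : ℕ)) ∣ r then (1 : ℝ) else 0) =
          (if (q : ℕ) ∣ r then (1 : ℝ) else 0) * (if (q' : ℕ) ∣ r then (1 : ℝ) else 0) := by
        intro q q'
        by_cases h3 : q = q'
        · rw [if_pos h3, ← h3]
          by_cases h4 : (q : ℕ) ∣ r <;> simp [h4]
        · rw [if_neg h3]
          have hcop : (q : ℕ).Coprime (q' : ℕ) :=
            (Nat.coprime_primes (hP q q.2) (hP q' q'.2)).2 fun h => h3 (Subtype.ext h)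
          have h7 : ((q : ℕ) * (q' : ℕ) ∣ r) ↔ ((q : ℕ) ∣ r ∧ (q' : ℕ) ∣ r) :=
            ⟨fun h => ⟨(Dvd.intro _ rfl).trans h, (Dvd.intro_left _ rfl).trans h⟩,
              fun h => hcop.mul_dvd_of_dvd_of_dvd h.1 h.2⟩
          by_cases h8 : (q : ℕ) ∣ r <;> by_cases h9 : (q' : ℕ) ∣ r <;> simp [h7, h8, h9]
      simp only [h2]
      simp only [← mul_sum]
      rw [← sum_mul, h1]
      field_simp
      ring_nf
  refine ⟨_, _, hds, ?_, ?_, ?_⟩
  · rw [Fintype.sum_sum_type, Fintype.sum_sum_type, Fintype.sum_prod_type]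
    rw [hD, hc]
    simp only [Sum.elim_inl, Sum.elim_inr, univ_unique, sum_singleton, Nat.cast_one, div_one]
    have hEs : ∑ q : {q // q ∈ P}, 1 / ((q : ℕ) : ℝ) = E := by
      rw [hE, ← sum_coe_sort P]
    have h1 : ∑ q : {q // q ∈ P}, -(2 / E) / ((q : ℕ) : ℝ) = -2 := by
      have h2 : ∀ q : {q // q ∈ P}, -(2 / E) / ((q : ℕ) : ℝ) = -(2 / E) * (1 / ((q : ℕ) : ℝ)) := by
        intro q
        rw [mul_one_div]
      simp_rw [h2]
      rw [← mul_sum, hEs]
      field_simp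
    have h3 : ∑ q : {q // q ∈ P}, ∑ q' : {q // q ∈ P},
        1 / E ^ 2 / (((if q = q' then (q : ℕ) else (q : ℕ) * (q' : ℕ)) : ℕ) : ℝ) ≤
        1 + 1 / E := by
      have h4 : ∀ q q' : {q // q ∈ P},
          1 / E ^ 2 / (((if q = q' then (q : ℕ) else (q : ℕ) * (q' : ℕ)) : ℕ) : ℝ) ≤
          1 / E ^ 2 * ((1 / ((q : ℕ) : ℝ)) * (1 / ((q' : ℕ) : ℝ))) +
            if q = q' then 1 / E ^ 2 * (1 / ((q : ℕ) : ℝ)) else 0 := by
        intro q q'
        have p1 := hpos q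
        have p2 := hpos q'
        by_cases h5 : q = q'
        · rw [if_pos h5, if_pos h5]
          have h6 : 1 / E ^ 2 / ((q : ℕ) : ℝ) = 1 / E ^ 2 * (1 / ((q : ℕ) : ℝ)) := by
            rw [mul_one_div]
          rw [h6]
          have h7 : 0 ≤ 1 / E ^ 2 * ((1 / ((q : ℕ) : ℝ)) * (1 / ((q' : ℕ) : ℝ))) := by positivity
          linarith
        · rw [if_neg h5, if_neg h5, add_zero]
          push_cast
          apply le_of_eq
          field_simp
      refine (sum_le_sum fun q _ => sum_le_sum fun q' _ => h4 q q').trans ?_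
      simp only [sum_add_distrib, sum_ite_eq, mem_univ, if_true, ← mul_sum, ← sum_mul]
      rw [hEs]
      apply le_of_eq
      field_simp
    rw [h1]
    linarith
  · rw [Fintype.sum_sum_type, Fintype.sum_sum_type, Fintype.sum_prod_type]
    rw [hc]
    simp only [Sum.elim_inl, Sum.elim_inr, univ_unique, sum_const, card_univ,
      Fintype.card_coe, nsmul_eq_mul, abs_one, abs_neg, card_singleton, Nat.cast_one]
    rw [abs_of_nonneg (by positivity : 0 ≤ 2 / E), abs_of_nonneg (by positivity : 0 ≤ 1 / E ^ 2)]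
    apply le_of_eq
    field_simp
    ring
  · rw [Fintype.sum_sum_type, Fintype.sum_sum_type, Fintype.sum_prod_type]
    rw [hD, hc]
    simp only [Sum.elim_inl, Sum.elim_inr, univ_unique, sum_singleton, Nat.cast_one, div_one]
    have hEs : ∑ q : {q // q ∈ P}, 1 / ((q : ℕ) : ℝ) = E := by
      rw [hE, ← sum_coe_sort P]
    have h1 : ∑ q : {q // q ∈ P}, -(2 / E) / ((q : ℕ) : ℝ) = -2 := by
      have h2 : ∀ q : {q // q ∈ P}, -(2 / E) / ((q : ℕ) : ℝ) = -(2 / E) * (1 / ((q : ℕ) : ℝ)) := by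
        intro q
        rw [mul_one_div]
      simp_rw [h2]
      rw [← mul_sum, hEs]
      field_simp
    have h3 : 1 ≤ ∑ q : {q // q ∈ P}, ∑ q' : {q // q ∈ P},
        1 / E ^ 2 / (((if q = q' then (q : ℕ) else (q : ℕ) * (q' : ℕ)) : ℕ) : ℝ) := by
      have h4 : ∀ q q' : {q // q ∈ P},
          1 / E ^ 2 * ((1 / ((q : ℕ) : ℝ)) * (1 / ((q' : ℕ) : ℝ))) ≤
          1 / E ^ 2 / (((if q = q' then (q : ℕ) else (q : ℕ) * (q' : ℕ)) : ℕ) : ℝ) := by
        intro q q'
        have p1 := hpos q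
        have p2 := hpos q'
        by_cases h5 : q = q'
        · rw [if_pos h5, ← h5]
          have h6 : 1 / E ^ 2 / ((q : ℕ) : ℝ) = 1 / E ^ 2 * (1 / ((q : ℕ) : ℝ) * 1) := by
            rw [mul_one, mul_one_div]
          rw [h6]
          apply mul_le_mul_of_nonneg_left _ (by positivity)
          apply mul_le_mul_of_nonneg_left _ (by positivity)
          rw [div_le_one p1]
          exact_mod_cast (hP q q.2).one_le
        · rw [if_neg h5]
          push_cast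
          apply le_of_eq
          field_simp
      refine le_trans (le_of_eq ?_) (sum_le_sum fun q _ => sum_le_sum fun q' _ => h4 q q')
      simp only [← mul_sum, ← sum_mul]
      rw [hEs]
      field_simp
    rw [h1]
    linarith

end AGQ
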