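import Pool.Agent.AGQ.Tot
import Pool.Agent.Helper6.PNT

/-!
# AGQ: moduli with small exponent
-/

open Real Filter Topology

namespace AGQ

/-- the product of the primes `q ≤ z`, `q ≡ 1` modulo `D` -/
def sD (D z : ℕ) : ℕ := ∏ q ∈ (Finset.Icc 1 z).filter (fun q : ℕ => q.Prime ∧ (q : ZMod D) = 1), q

theorem sD_pos (D z : ℕ) : 0 < sD D z :=
  Finset.prod_pos fun _ hq => (Finset.mem_filter.1 hq).2.1.pos

theorem log_sD (D z : ℕ) : Real.log (sD D z) =
    ∑ q ∈ (Finset.Icc 1 z).filter (fun q : ℕ => q.Prime ∧ (q : ZMod D) = 1), Real.log q := by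
  unfold sD
  push_cast
  rw [Real.log_prod]
  intro q hq
  have := (Finset.mem_filter.1 hq).2.1.pos
  exact_mod_cast this.ne'

theorem sD_succ (D z : ℕ) : sD D (z + 1) ≤ sD D z * (z + 1) := by
  unfold sD
  rw [← Finset.insert_Icc_right_eq_Icc_add_one (by omega), Finset.filter_insert]
  split_ifs with h
  · rw [Finset.prod_insert (by simp), mul_comm]
  · exact Nat.le_mul_of_pos_right _ (by omega)

theorem prime_dvd_sD {D z q : ℕ} (hq : q.Prime) (h : q ∣ sD D z) :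
    q ≤ z ∧ (q : ZMod D) = 1 := by
  obtain ⟨q', hq', hd⟩ := (hq.prime.dvd_finsetProd_iff _).1 h
  rw [Finset.mem_filter, Finset.mem_Icc] at hq'
  have := (Nat.prime_dvd_prime_iff_eq hq hq'.2.1).1 hd
  rw [this]
  exact ⟨hq'.1.2, hq'.2.2⟩

theorem sD_exp {D z : ℕ} (hD : 0 < D) (x : (ZMod (sD D z))ˣ) :
    x ^ (D * Nat.lcmUpto (z / D)) = 1 := by
  have : NeZero (sD D z) := ⟨(sD_pos D z).ne'⟩
  obtain ⟨E, hE⟩ : ∃ E, E = D * Nat.lcmUpto (z / D) := ⟨_, rfl⟩
  rw [← hE]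
  apply Units.ext
  rw [Units.val_pow_eq_pow_val, Units.val_one]
  have hc : (x : ZMod (sD D z)).val.Coprime (sD D z) := ZMod.val_coe_unit_coprime x
  obtain ⟨a, ha⟩ : ∃ a : ℕ, a = (x : ZMod (sD D z)).val := ⟨_, rfl⟩
  have hxa : (x : ZMod (sD D z)) = (a : ZMod (sD D z)) := by
    rw [ha, ZMod.natCast_zmod_val]
  rw [← ha] at hc
  rw [hxa]
  rcases Nat.eq_zero_or_pos a with h0 | h0
  · rw [h0, Nat.coprime_zero_left] at hc
    have : Subsingleton (ZMod (sD D z)) := by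
      rw [hc]
      infer_instance
    exact Subsingleton.elim _ _
  have hdvd : sD D z ∣ a ^ E - 1 := by
    conv_lhs => rw [sD]
    refine Finset.prod_primes_dvd _ (fun q hq => (Finset.mem_filter.1 hq).2.1.prime) ?_
    intro q hq
    have hq' := hq
    rw [Finset.mem_filter, Finset.mem_Icc] at hq
    obtain ⟨⟨-, hq1⟩, hq2, hq3⟩ := hq
    have : Fact q.Prime := ⟨hq2⟩
    have hqs : q ∣ sD D z := Finset.dvd_prod_of_mem (fun q => q) hq'
    have hqa : ((a : ℕ) : ZMod q) ≠ 0 := by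
      rw [Ne, ZMod.natCast_eq_zero_iff]
      intro h
      have := Nat.dvd_gcd h hqs
      rw [Nat.coprime_iff_gcd_eq_one.1 hc] at this
      exact hq2.one_lt.ne' (Nat.dvd_one.1 this)
    have hDq : D ∣ q - 1 := by
      rw [← ZMod.natCast_eq_zero_iff, Nat.cast_sub hq2.one_le, hq3, Nat.cast_one, sub_self]
    obtain ⟨k, hk⟩ := hDq
    have hk1 : 1 ≤ k := by
      rcases Nat.eq_zero_or_pos k with h | h
      · rw [h, mul_zero] at hk
        have := hq2.two_le
        omega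
      · exact h
    have hk2 : k ≤ z / D := by
      rw [Nat.le_div_iff_mul_le hD]
      rw [mul_comm, ← hk]
      omega
    have hkl : k ∣ Nat.lcmUpto (z / D) := by
      unfold Nat.lcmUpto
      exact Finset.dvd_lcm (f := id) (Finset.mem_Icc.2 ⟨hk1, hk2⟩)
    have hqE : q - 1 ∣ E := by
      rw [hk, hE]
      exact Nat.mul_dvd_mul_left D hkl
    obtain ⟨j, hj⟩ := hqE
    rw [← ZMod.natCast_eq_zero_iff, Nat.cast_sub (Nat.one_le_pow _ _ h0)]
    push_cast
    rw [hj, pow_mul, ZMod.pow_card_sub_one_eq_one hqa, one_pow, sub_self]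
  have h1 : ((a ^ E - 1 : ℕ) : ZMod (sD D z)) = 0 := (ZMod.natCast_eq_zero_iff _ _).2 hdvd
  rw [Nat.cast_sub (Nat.one_le_pow _ _ h0)] at h1
  push_cast at h1
  exact sub_eq_zero.1 h1

theorem exs {ε : ℝ} (hε : 0 < ε) : ∃ Y0 : ℝ, ∀ Y : ℝ, Y0 ≤ Y → ∃ s E : ℕ, 0 < s ∧ 0 < E ∧
    Y ≤ s ∧ (s : ℝ) ≤ Y ^ (1 + ε) ∧ (E : ℝ) ≤ Y ^ ε ∧ (∀ x : (ZMod s)ˣ, x ^ E = 1) ∧
    ∀ q : ℕ, q.Prime → q ∣ s → (q : ℝ) ≤ Y ^ ε := by
  obtain ⟨D, hD, hDφ⟩ := totient_small (δ := ε / 48) (by positivity)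
  have : NeZero D := ⟨hD.ne'⟩
  have hφ : 0 < D.totient := Nat.totient_pos.2 hD
  have hφ' : (0 : ℝ) < (D.totient : ℝ) := by exact_mod_cast hφ
  have hD' : (0 : ℝ) < (D : ℝ) := by exact_mod_cast hD
  have h1 := Pool.Agent.Helper6.theta_ap (q := D) (a := 1) isUnit_one
  have h2 : 1 / (2 * (D.totient : ℝ)) < 1 / (D.totient : ℝ) := by
    apply one_div_lt_one_div_of_lt hφ'
    linarith
  obtain ⟨x1, hx1⟩ := eventually_atTop.1 (h1.eventually_const_lt h2)
  have hlow : ∀ z : ℕ, max x1 1 ≤ (z : ℝ) →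
      (z : ℝ) / (2 * (D.totient : ℝ)) ≤ Real.log (sD D z) := by
    intro z hz
    have h3 := hx1 z ((le_max_left _ _).trans hz)
    rw [Nat.floor_natCast, ← log_sD] at h3
    have hz0 : (0 : ℝ) < z := lt_of_lt_of_le one_pos ((le_max_right _ _).trans hz)
    rw [lt_div_iff₀ hz0] at h3
    have h4 : (z : ℝ) / (2 * (D.totient : ℝ)) = 1 / (2 * (D.totient : ℝ)) * z := by ring
    rw [h4]
    exact h3.le
  -- conditions for large `Y`
  have hlim1 : ∀ᶠ Y : ℝ in atTop, max x1 1 + 2 ≤ (D.totient : ℝ) * Real.log Y :=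
    (Tendsto.const_mul_atTop hφ' Real.tendsto_log_atTop).eventually_ge_atTop _
  have hlim2 : ∀ᶠ Y : ℝ in atTop, 3 * (D.totient : ℝ) * Real.log Y ≤ Y ^ ε := by
    have h3 := (isLittleO_log_rpow_atTop hε).bound
      (c := 1 / (3 * (D.totient : ℝ))) (by positivity)
    filter_upwards [h3, eventually_ge_atTop 1] with Y hY hY1
    rw [Real.norm_of_nonneg (Real.log_nonneg hY1), Real.norm_of_nonneg (by positivity)] at hY
    calc 3 * (D.totient : ℝ) * Real.log Y ≤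
          3 * (D.totient : ℝ) * (1 / (3 * (D.totient : ℝ)) * Y ^ ε) :=
          mul_le_mul_of_nonneg_left hY (by positivity)
      _ = Y ^ ε := by field_simp
  have hlim3 : ∀ᶠ Y : ℝ in atTop, Real.log D ≤ ε / 2 * Real.log Y :=
    (Tendsto.const_mul_atTop (by positivity) Real.tendsto_log_atTop).eventually_ge_atTop _
  obtain ⟨Y0, hY0⟩ := eventually_atTop.1
    (hlim1.and (hlim2.and (hlim3.and (eventually_gt_atTop 1))))
  refine ⟨Y0, fun Y hY => ?_⟩
  obtain ⟨hY1, hY2, hY3, hY4⟩ := hY0 Y hY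
  have hlY : 0 < Real.log Y := Real.log_pos hY4
  have hex : ∃ z : ℕ, Real.log Y ≤ Real.log (sD D z) := by
    obtain ⟨z, hz⟩ := exists_nat_ge (max x1 1 + 2 * (D.totient : ℝ) * Real.log Y)
    refine ⟨z, ?_⟩
    have h3 : 0 ≤ max x1 1 := le_trans zero_le_one (le_max_right _ _)
    have h4 : 0 ≤ 2 * (D.totient : ℝ) * Real.log Y := by positivity
    refine le_trans ?_ (hlow z (by linarith))
    rw [le_div_iff₀ (by positivity)]
    nlinarith
  obtain ⟨z, hz1, hz2⟩ : ∃ z : ℕ, Real.log Y ≤ Real.log (sD D z) ∧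
      ∀ w : ℕ, w < z → Real.log (sD D w) < Real.log Y := by
    classical
    exact ⟨Nat.find hex, Nat.find_spec hex, fun w hw => not_le.1 (Nat.find_min hex hw)⟩
  have hz0 : 0 < z := by
    rcases Nat.eq_zero_or_pos z with h | h
    · exfalso
      rw [h] at hz1
      have : sD D 0 = 1 := by
        unfold sD
        simp
      rw [this, Nat.cast_one, Real.log_one] at hz1
      linarith
    · exact h
  obtain ⟨w, rfl⟩ : ∃ w, z = w + 1 := ⟨z - 1, by omega⟩
  have hw := hz2 w (Nat.lt_succ_self w)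
  have hwb : ((w + 1 : ℕ) : ℝ) ≤ 3 * (D.totient : ℝ) * Real.log Y := by
    push_cast
    by_cases h3 : max x1 1 ≤ (w : ℝ)
    · have h4 := (hlow w h3).trans_lt hw
      rw [div_lt_iff₀ (by positivity)] at h4
      have h5 : (1 : ℝ) ≤ max x1 1 := le_max_right _ _
      nlinarith
    · push Not at h3
      nlinarith
  have hsY : (sD D w : ℝ) < Y := by
    have h3 : (0 : ℝ) < sD D w := by exact_mod_cast sD_pos D w
    exact (Real.log_lt_log_iff h3 (by linarith)).1 hw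
  refine ⟨sD D (w + 1), D * Nat.lcmUpto ((w + 1) / D), sD_pos _ _,
    Nat.mul_pos hD (Nat.lcmUpto_pos _), ?_, ?_, ?_, sD_exp hD, ?_⟩
  · have h3 : (0 : ℝ) < sD D (w + 1) := by exact_mod_cast sD_pos D (w + 1)
    exact (Real.log_le_log_iff (by linarith) h3).1 hz1
  · have h3 : (sD D (w + 1) : ℝ) ≤ (sD D w : ℝ) * ((w + 1 : ℕ) : ℝ) := by
      exact_mod_cast sD_succ D w
    rw [Real.rpow_add (by linarith), Real.rpow_one]
    refine h3.trans (mul_le_mul hsY.le (hwb.trans hY2) (by positivity) (by linarith))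
  · have hE0 : (0 : ℝ) < ((D * Nat.lcmUpto ((w + 1) / D) : ℕ) : ℝ) := by
      exact_mod_cast Nat.mul_pos hD (Nat.lcmUpto_pos _)
    rw [← Real.log_le_log_iff hE0 (by positivity), Real.log_rpow (by linarith)]
    push_cast
    rw [Real.log_mul hD'.ne' (by exact_mod_cast (Nat.lcmUpto_pos _).ne'),
      ← Chebyshev.psi_eq_log_lcmUpto]
    have h3 := Chebyshev.psi_le_const_mul_self
      (x := (((w + 1) / D : ℕ) : ℝ)) (by positivity)
    have h4 : Real.log 4 ≤ 2 := by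
      have : Real.log 4 = 2 * Real.log 2 := by
        rw [show (4 : ℝ) = 2 ^ 2 by norm_num, Real.log_pow]
        norm_num
      rw [this]
      have := Real.log_two_lt_d9
      linarith
    have h5 : (((w + 1) / D : ℕ) : ℝ) ≤ ((w + 1 : ℕ) : ℝ) / D := Nat.cast_div_le
    have h6 : ((w + 1 : ℕ) : ℝ) / D ≤ 3 * (ε / 48) * Real.log Y := by
      rw [div_le_iff₀ hD']
      refine hwb.trans ?_
      have h7 := mul_le_mul_of_nonneg_right hDφ hlY.le
      nlinarith
    have h8 : (Real.log 4 + 4) * (((w + 1) / D : ℕ) : ℝ) ≤ 6 * (3 * (ε / 48) * Real.log Y) := by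
      apply mul_le_mul (by linarith) (h5.trans h6) (by positivity) (by norm_num)
    have h9 : 6 * (3 * (ε / 48) * Real.log Y) ≤ ε / 2 * Real.log Y := by nlinarith
    linarith
  · intro q hq hqd
    have h3 : (q : ℝ) ≤ ((w + 1 : ℕ) : ℝ) := by exact_mod_cast (prime_dvd_sD hq hqd).1
    exact h3.trans (hwb.trans hY2)

end AGQ
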