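import Pool.Agent.AGQ.Exr

/-!
# AGQ: a small prime `q` with `q ^ (p - 1) ≢ 1` modulo `p ^ 2`
-/

open Real Filter Topology

namespace AGQ

/-- counting products of primes which are Teichmüller modulo `p ^ 2` -/
theorem choose_le {p u y : ℕ} (hp : p.Prime) (hp2 : p ≠ 2) (hyp : y < p) (hyu : y ^ u < p ^ 2)
    (h : ∀ q : ℕ, q.Prime → q ≤ y → p ^ 2 ∣ q ^ (p - 1) - 1) :
    ((Finset.range (y + 1)).filter Nat.Prime).card.choose u ≤ p - 1 := by
  classical
  obtain ⟨Q, hQ⟩ : ∃ Q : Finset ℕ, Q = (Finset.range (y + 1)).filter Nat.Prime := ⟨_, rfl⟩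
  rw [← hQ]
  have hQm : ∀ q ∈ Q, q.Prime ∧ q ≤ y := by
    intro q hq
    rw [hQ, Finset.mem_filter, Finset.mem_range] at hq
    exact ⟨hq.2, by omega⟩
  have : Fact p.Prime := ⟨hp⟩
  have hp2' : 0 < p ^ 2 := pow_pos hp.pos 2
  have : NeZero (p ^ 2) := ⟨hp2'.ne'⟩
  have : IsCyclic (ZMod (p ^ 2))ˣ := ZMod.isCyclic_units_of_prime_pow p hp hp2 2
  have hcop : ∀ A : Finset ℕ, A ⊆ Q → (∏ q ∈ A, q).Coprime (p ^ 2) := by
    intro A hA
    apply Nat.Coprime.prod_left
    intro q hq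
    apply Nat.Coprime.pow_right
    rw [Nat.coprime_primes (hQm q (hA hq)).1 hp]
    have := (hQm q (hA hq)).2
    omega
  let f : Finset ℕ → (ZMod (p ^ 2))ˣ := fun A =>
    if hA : A ⊆ Q then ZMod.unitOfCoprime (∏ q ∈ A, q) (hcop A hA) else 1
  have hf : ∀ A : Finset ℕ, A ⊆ Q → ((f A : (ZMod (p ^ 2))ˣ) : ZMod (p ^ 2)) =
      ((∏ q ∈ A, q : ℕ) : ZMod (p ^ 2)) := by
    intro A hA
    simp only [f, dif_pos hA, ZMod.coe_unitOfCoprime]
  have h1 := IsCyclic.card_pow_eq_one_le (α := (ZMod (p ^ 2))ˣ) (n := p - 1)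
    (by have := hp.two_le; omega)
  refine le_trans ?_ h1
  rw [← Finset.card_powersetCard]
  apply Finset.card_le_card_of_injOn f
  · intro A hA
    rw [Finset.mem_coe, Finset.mem_powersetCard] at hA
    rw [Finset.mem_coe, Finset.mem_filter]
    refine ⟨Finset.mem_univ _, ?_⟩
    apply Units.ext
    rw [Units.val_pow_eq_pow_val, hf A hA.1, Units.val_one]
    push_cast
    rw [← Finset.prod_pow]
    refine Finset.prod_eq_one fun q hq => ?_
    obtain ⟨hq1, hq2⟩ := hQm q (hA.1 hq)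
    have h2 := (ZMod.natCast_eq_zero_iff _ _).2 (h q hq1 hq2)
    rw [Nat.cast_sub (Nat.one_le_pow _ _ hq1.pos)] at h2
    push_cast at h2
    exact sub_eq_zero.1 h2
  · intro A hA A' hA' he
    rw [Finset.mem_coe, Finset.mem_powersetCard] at hA hA'
    have hlt : ∀ B : Finset ℕ, B ⊆ Q → B.card = u → ∏ q ∈ B, q < p ^ 2 := by
      intro B hB hBc
      refine lt_of_le_of_lt ?_ hyu
      rw [← hBc]
      exact Finset.prod_le_pow_card B (fun q => q) y fun q hq => (hQm q (hB hq)).2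
    have h2 := congrArg (fun x : (ZMod (p ^ 2))ˣ => (x : ZMod (p ^ 2))) he
    simp only [hf A hA.1, hf A' hA'.1] at h2
    rw [ZMod.natCast_eq_natCast_iff] at h2
    have h3 := Nat.ModEq.eq_of_lt_of_lt h2 (hlt A hA.1 hA.2) (hlt A' hA'.1 hA'.2)
    rw [← Nat.primeFactors_prod fun q hq => (hQm q (hA.1 hq)).1, h3,
      Nat.primeFactors_prod fun q hq => (hQm q (hA'.1 hq)).1]

theorem exists_not_teich : ∃ P0 : ℕ, ∀ p : ℕ, P0 ≤ p → p.Prime → ∃ q : ℕ, q.Prime ∧
    (q : ℝ) ≤ (Real.log p) ^ 5 ∧ ¬ p ^ 2 ∣ q ^ (p - 1) - 1 := by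
  obtain ⟨R0, hR0⟩ := theta_half
  have hlog : Tendsto (fun n : ℕ => Real.log n) atTop atTop :=
    Real.tendsto_log_atTop.comp tendsto_natCast_atTop_atTop
  have hloglog : Tendsto (fun n : ℕ => Real.log (Real.log n)) atTop atTop :=
    Real.tendsto_log_atTop.comp hlog
  have hlo : ∀ᶠ x : ℝ in atTop, 80 * Real.log x ≤ x := by
    have h1 := Real.isLittleO_log_id_atTop.bound (c := 1 / 80) (by norm_num)
    filter_upwards [h1, eventually_ge_atTop 1] with x hx hx1
    rw [Real.norm_of_nonneg (Real.log_nonneg hx1), id, Real.norm_of_nonneg (by linarith)] at hx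
    linarith
  have hev : ∀ᶠ n : ℕ in atTop, 3 ≤ n ∧ max 2 (R0 + 1 : ℝ) ≤ Real.log n ∧
      1 ≤ Real.log (Real.log n) ∧ 80 * Real.log (Real.log n) ≤ Real.log n :=
    (eventually_ge_atTop 3).and ((hlog.eventually_ge_atTop _).and
      ((hloglog.eventually_ge_atTop _).and (hlog.eventually hlo)))
  obtain ⟨P0, hP0⟩ := eventually_atTop.1 hev
  refine ⟨P0, fun p hpP hp => ?_⟩
  obtain ⟨hp3, hl1, hT1, hT2⟩ := hP0 p hpP
  by_contra hcon
  push Not at hcon
  obtain ⟨l, hl⟩ : ∃ l : ℝ, l = Real.log p := ⟨_, rfl⟩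
  rw [← hl] at hl1 hT1 hT2 hcon
  obtain ⟨T, hT⟩ : ∃ T : ℝ, T = Real.log l := ⟨_, rfl⟩
  rw [← hT] at hT1 hT2
  have hl2 : 2 ≤ l := (le_max_left _ _).trans hl1
  have hlR : (R0 : ℝ) + 1 ≤ l := (le_max_right _ _).trans hl1
  have hlpos : 0 < l := by linarith
  have hpp : (0 : ℝ) < p := by exact_mod_cast hp.pos
  have hel : Real.exp l = p := by rw [hl, Real.exp_log hpp]
  have heT : Real.exp T = l := by rw [hT, Real.exp_log hlpos]
  obtain ⟨y, hy⟩ : ∃ y : ℕ, y = ⌊l ^ 5⌋₊ := ⟨_, rfl⟩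
  have hyl : (y : ℝ) ≤ l ^ 5 := by
    rw [hy]
    exact Nat.floor_le (by positivity)
  have hyl2 : l ^ 5 < (y : ℝ) + 1 := by
    rw [hy]
    exact Nat.lt_floor_add_one _
  have hl5 : l ^ 5 = Real.exp (5 * T) := by
    rw [← heT, ← Real.exp_nat_mul]
    norm_num
  have hl4 : (16 : ℝ) ≤ l ^ 4 := by
    calc (16 : ℝ) = 2 ^ 4 := by norm_num
      _ ≤ l ^ 4 := pow_le_pow_left₀ (by norm_num) hl2 4
  have hl54 : l ^ 5 = l ^ 4 * l := by ring
  have hy0 : (1 : ℝ) ≤ y := by nlinarith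
  obtain ⟨u, hu⟩ : ∃ u : ℕ, u = ⌊9 * l / (25 * T)⌋₊ := ⟨_, rfl⟩
  have hT0 : 0 < T := by linarith
  have hul : (u : ℝ) ≤ 9 * l / (25 * T) := by
    rw [hu]
    exact Nat.floor_le (by positivity)
  have hul2 : 9 * l / (25 * T) < (u : ℝ) + 1 := by
    rw [hu]
    exact Nat.lt_floor_add_one _
  rw [le_div_iff₀ (by positivity)] at hul
  rw [div_lt_iff₀ (by positivity)] at hul2
  have hul3 : (u : ℝ) ≤ l := by nlinarith [Nat.cast_nonneg (α := ℝ) u]
  -- `y < p`
  have hyp : y < p := by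
    have h1 : (y : ℝ) < p := by
      refine lt_of_le_of_lt hyl ?_
      rw [hl5, ← hel]
      exact Real.exp_lt_exp.2 (by linarith)
    exact_mod_cast h1
  have hyu : y ^ u < p ^ 2 := by
    have h1 : (y : ℝ) ^ u < (p : ℝ) ^ 2 := by
      calc (y : ℝ) ^ u ≤ (l ^ 5) ^ u := pow_le_pow_left₀ (by positivity) hyl u
        _ = Real.exp (u * (5 * T)) := by rw [hl5, ← Real.exp_nat_mul]
        _ < Real.exp (2 * l) := Real.exp_lt_exp.2 (by nlinarith)
        _ = (p : ℝ) ^ 2 := by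
            rw [← hel, ← Real.exp_nat_mul]
            norm_num
    exact_mod_cast h1
  have hchoose := choose_le hp (by omega) hyp hyu fun q hq hqy =>
    hcon q hq (le_trans (by exact_mod_cast hqy) hyl)
  obtain ⟨k, hk⟩ : ∃ k : ℕ, k = ((Finset.range (y + 1)).filter Nat.Prime).card := ⟨_, rfl⟩
  rw [← hk] at hchoose
  -- `k` is large
  have hkl : 2 * l ^ 4 ≤ k := by
    have hR : R0 ≤ y := by
      have h1 : (R0 : ℝ) ≤ y := by nlinarith
      exact_mod_cast h1
    have h1 := hR0 y hR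
    rw [Chebyshev.theta_eq_log_primorial, Nat.floor_natCast] at h1
    have h2 : primorial y ≤ y ^ k := by
      rw [hk, primorial]
      apply Finset.prod_le_pow_card
      intro q hq
      rw [Finset.mem_filter, Finset.mem_range] at hq
      omega
    have h3 : Real.log (primorial y) ≤ k * Real.log y := by
      rw [← Real.log_pow]
      apply Real.log_le_log
      · exact_mod_cast primorial_pos y
      · exact_mod_cast h2
    have h4 : Real.log y ≤ 5 * T := by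
      have h5 := Real.log_le_log (by linarith) hyl
      rw [hl5, Real.log_exp] at h5
      exact h5
    have h5 : (k : ℝ) * Real.log y ≤ k * (5 * T) := mul_le_mul_of_nonneg_left h4 (by positivity)
    have h6 : l ^ 5 / 2 ≤ y := by nlinarith
    have h7 : l ^ 5 / 4 ≤ k * (5 * T) := by linarith
    have h8 : l ^ 4 * (80 * T) ≤ l ^ 5 := by
      rw [hl54]
      exact mul_le_mul_of_nonneg_left hT2 (by positivity)
    have h9 : 2 * l ^ 4 * (5 * T) ≤ k * (5 * T) := by nlinarith [mul_nonneg (by positivity : 0 ≤ l ^ 4) hT0.le]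
    exact le_of_mul_le_mul_right h9 (by positivity)
  -- the number of subsets is large
  have hbig : (p : ℝ) < (k.choose u : ℝ) := by
    have h1 := Nat.pow_le_choose (α := ℝ) u k
    rw [div_le_iff₀ (by positivity)] at h1
    have h6 : l ≤ l ^ 4 := by
      calc l = l * 1 := by ring
        _ ≤ l * l ^ 3 := mul_le_mul_of_nonneg_left (one_le_pow₀ (by linarith)) hlpos.le
        _ = l ^ 4 := by ring
    have h2 : (u : ℝ) * l ^ 3 ≤ ((k + 1 - u : ℕ) : ℝ) := by
      have h3 : u ≤ k + 1 := by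
        have h4 : (u : ℝ) ≤ k + 1 := by linarith
        exact_mod_cast h4
      rw [Nat.cast_sub h3]
      push_cast
      have h4 : (u : ℝ) * l ^ 3 ≤ l * l ^ 3 := mul_le_mul_of_nonneg_right hul3 (by positivity)
      have h5 : l * l ^ 3 = l ^ 4 := by ring
      linarith
    have h3 : ((u : ℝ) * l ^ 3) ^ u ≤ ((k + 1 - u : ℕ) : ℝ) ^ u :=
      pow_le_pow_left₀ (by positivity) h2 u
    have h4 : ((u.factorial : ℕ) : ℝ) ≤ (u : ℝ) ^ u := by exact_mod_cast Nat.factorial_le_pow u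
    have h5 : (k.choose u : ℝ) * (u.factorial : ℝ) ≤ (k.choose u : ℝ) * (u : ℝ) ^ u :=
      mul_le_mul_of_nonneg_left h4 (by positivity)
    have hu0 : 0 < u := by
      rcases Nat.eq_zero_or_pos u with h | h
      · exfalso
        rw [h] at hul2
        push_cast at hul2
        linarith
      · exact h
    have hu0' : (0 : ℝ) < (u : ℝ) ^ u := by positivity
    have h6 : (l ^ 3) ^ u ≤ (k.choose u : ℝ) := by
      have h7 : (l ^ 3) ^ u * (u : ℝ) ^ u ≤ (k.choose u : ℝ) * (u : ℝ) ^ u := by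
        calc (l ^ 3) ^ u * (u : ℝ) ^ u = ((u : ℝ) * l ^ 3) ^ u := by rw [mul_pow, mul_comm]
          _ ≤ _ := h3.trans (h1.trans h5)
      exact le_of_mul_le_mul_right h7 hu0'
    refine lt_of_lt_of_le ?_ h6
    have h8 : (l ^ 3) ^ u = Real.exp (u * (3 * T)) := by
      rw [← heT, ← Real.exp_nat_mul, ← Real.exp_nat_mul]
      norm_num
    rw [h8, ← hel]
    apply Real.exp_lt_exp.2
    nlinarith
  have h1 : (k.choose u : ℝ) ≤ ((p - 1 : ℕ) : ℝ) := by exact_mod_cast hchoose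
  have h2 : ((p - 1 : ℕ) : ℝ) ≤ p := by exact_mod_cast Nat.sub_le p 1
  linarith

end AGQ
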