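import Pool.Agent.AGQ.ParA
import Pool.Agent.AGQ.Bnp
import Pool.Agent.AGQ.Ppw
import Pool.Agent.AKR.Nrm

/-!
# AGQ: prime powers and the final theorems
-/

open Real Filter Topology

namespace AGQ

/-- a power of `p` which is a Fermat pseudoprime to the base `q` -/
theorem teich_of_fermat {p a q : ℕ} (hp : p.Prime) (ha : 2 ≤ a) (hq : q.Coprime p)
    (h : p ^ a ∣ q ^ (p ^ a - 1) - 1) : p ^ 2 ∣ q ^ (p - 1) - 1 := by
  have hq0 : 0 < q := by
    rcases Nat.eq_zero_or_pos q with h0 | h0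
    · rw [h0, Nat.coprime_zero_left] at hq
      exact absurd hq hp.one_lt.ne'
    · exact h0
  have hpa : 0 < p ^ a := pow_pos hp.pos a
  have h1 : ((q : ℕ) : ZMod (p ^ 2)) ^ (p ^ a - 1) = 1 := by
    have h2 : p ^ 2 ∣ q ^ (p ^ a - 1) - 1 := (pow_dvd_pow p ha).trans h
    have h3 := (ZMod.natCast_eq_zero_iff _ _).2 h2
    rw [Nat.cast_sub (Nat.one_le_pow _ _ hq0)] at h3
    push_cast at h3
    exact sub_eq_zero.1 h3
  have h2 : ((q : ℕ) : ZMod (p ^ 2)) ^ (p * (p - 1)) = 1 := by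
    have h3 := Nat.ModEq.pow_totient (Nat.Coprime.pow_right 2 hq)
    rw [Nat.totient_prime_pow hp (by norm_num)] at h3
    have h4 := (ZMod.natCast_eq_natCast_iff _ _ _).2 h3
    push_cast at h4
    rw [pow_one] at h4
    exact h4
  have h3 := orderOf_dvd_of_pow_eq_one h1
  have h4 := orderOf_dvd_of_pow_eq_one h2
  have h5 : (orderOf ((q : ℕ) : ZMod (p ^ 2))).Coprime p := by
    rw [Nat.coprime_comm, Nat.Prime.coprime_iff_not_dvd hp]
    intro h6
    have h7 : p ∣ p ^ a - 1 := h6.trans h3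
    have h8 : p ∣ p ^ a := dvd_pow_self p (by omega)
    have h9 : p ∣ p ^ a - (p ^ a - 1) := Nat.dvd_sub h8 h7
    rw [Nat.sub_sub_self hpa] at h9
    exact hp.one_lt.ne' (Nat.dvd_one.1 h9)
  have h6 : orderOf ((q : ℕ) : ZMod (p ^ 2)) ∣ p - 1 := h5.dvd_of_dvd_mul_left h4
  have h7 := orderOf_dvd_iff_pow_eq_one.1 h6
  rw [← ZMod.natCast_eq_zero_iff, Nat.cast_sub (Nat.one_le_pow _ _ hq0)]
  push_cast
  rw [h7, sub_self]

theorem mainA {ε : ℝ} (hε : 0 < ε) : ∃ n₀ : ℕ, ∀ n : ℕ, n₀ ≤ n → ¬ n.Prime →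
    (∀ q : ℕ, q.Prime → q ∣ n → (Real.log n) ^ (5 + ε) < q) →
    ∃ M : ℕ, 0 < M ∧ n.Coprime M ∧ (M : ℝ) ≤ (Real.log n) ^ (7 + ε) ∧
      ∀ r : ℕ, M ∣ r → ¬ (Polynomial.X ^ r - 1 : Polynomial (ZMod n)) ∣
        (Polynomial.X - 1) ^ n - (Polynomial.X ^ n - 1) := by
  obtain ⟨δ, hδ⟩ : ∃ δ : ℝ, δ = min ε 1 := ⟨_, rfl⟩
  have hδ0 : 0 < δ := by
    rw [hδ]
    exact lt_min hε one_pos
  have hδ1 : δ ≤ 1 := by
    rw [hδ]
    exact min_le_right _ _
  have hδε : δ ≤ ε := by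
    rw [hδ]
    exact min_le_left _ _
  obtain ⟨n₁, hn₁⟩ := mainA_np hδ0 hδ1
  obtain ⟨P0, hP0⟩ := exists_not_teich
  have hlog : Tendsto (fun n : ℕ => Real.log n) atTop atTop :=
    Real.tendsto_log_atTop.comp tendsto_natCast_atTop_atTop
  obtain ⟨n₂, hn₂⟩ := eventually_atTop.1
    ((eventually_ge_atTop 2).and (hlog.eventually_ge_atTop (max 1 P0)))
  refine ⟨max n₁ n₂, fun n hn hnp hq => ?_⟩
  obtain ⟨hn2, hl⟩ := hn₂ n ((le_max_right _ _).trans hn)
  have hl1 : 1 ≤ Real.log n := (le_max_left _ _).trans hl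
  have hlP : (P0 : ℝ) ≤ Real.log n := (le_max_right _ _).trans hl
  have hl5 : Real.log n ≤ Real.log n ^ (5 + ε) := by
    calc Real.log n = Real.log n ^ (1 : ℝ) := (Real.rpow_one _).symm
      _ ≤ Real.log n ^ (5 + ε) := Real.rpow_le_rpow_of_exponent_le hl1 (by linarith)
  -- it suffices to treat `r = M`
  suffices hs : ∃ M : ℕ, 0 < M ∧ n.Coprime M ∧ (M : ℝ) ≤ (Real.log n) ^ (7 + ε) ∧
      ¬ (Polynomial.X ^ M - 1 : Polynomial (ZMod n)) ∣
        (Polynomial.X - 1) ^ n - (Polynomial.X ^ n - 1) by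
    obtain ⟨M, h1, h1', h2, h3⟩ := hs
    refine ⟨M, h1, h1', h2, fun r hr hst => h3 (dvd_trans ?_ hst)⟩
    obtain ⟨k, rfl⟩ := hr
    have h4 := sub_dvd_pow_sub_pow (Polynomial.X ^ M : Polynomial (ZMod n)) 1 k
    rwa [one_pow, ← pow_mul] at h4
  obtain ⟨p, hpd⟩ : ∃ p : ℕ, p = n.minFac := ⟨_, rfl⟩
  have hp : p.Prime := by
    rw [hpd]
    exact Nat.minFac_prime (by omega)
  have hpn : p ∣ n := by
    rw [hpd]
    exact Nat.minFac_dvd n
  obtain ⟨m, hm⟩ := hpn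
  by_cases hmp : ∀ j, m ≠ p ^ j
  · obtain ⟨M, h1, h1', h2, h3⟩ := hn₁ n ((le_max_left _ _).trans hn) p m hp hm hmp (by
      intro q hq1 hq2
      refine lt_of_le_of_lt ?_ (hq q hq1 hq2)
      exact Real.rpow_le_rpow_of_exponent_le hl1 (by linarith))
    refine ⟨M, h1, h1', h2.trans ?_, h3⟩
    exact Real.rpow_le_rpow_of_exponent_le hl1 (by linarith)
  · push Not at hmp
    obtain ⟨j, hj⟩ := hmp
    have hnj : n = p ^ (j + 1) := by
      rw [hm, hj, pow_succ, mul_comm]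
    have hj1 : 1 ≤ j := by
      rcases Nat.eq_zero_or_pos j with h | h
      · exfalso
        apply hnp
        rw [hnj, h, zero_add, pow_one]
        exact hp
      · exact h
    have hpq := hq p hp ⟨m, hm⟩
    have hpP : P0 ≤ p := by
      have h1 : (P0 : ℝ) ≤ p := by linarith
      exact_mod_cast h1
    obtain ⟨q, hq1, hq2, hq3⟩ := hP0 p hpP hp
    have hpn' : Real.log p ≤ Real.log n := by
      apply Real.log_le_log (by exact_mod_cast hp.pos)
      have h1 : p ≤ n := Nat.le_of_dvd (by omega) ⟨m, hm⟩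
      exact_mod_cast h1
    have hp0 : 0 ≤ Real.log p := Real.log_natCast_nonneg p
    have hq4 : (q : ℝ) ≤ Real.log n ^ (5 : ℕ) := hq2.trans (pow_le_pow_left₀ hp0 hpn' 5)
    rw [← Real.rpow_natCast] at hq4
    push_cast at hq4
    have hqp : q.Coprime p := by
      rw [Nat.coprime_primes hq1 hp]
      rintro rfl
      have h1 : Real.log n ^ (5 : ℝ) ≤ Real.log n ^ (5 + ε) :=
        Real.rpow_le_rpow_of_exponent_le hl1 (by linarith)
      linarith
    have hnq : n.Coprime q := by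
      rw [hnj]
      exact (Nat.Coprime.pow_right (j + 1) hqp).symm
    refine ⟨q, hq1.pos, hnq, ?_, ?_⟩
    · refine hq4.trans ?_
      exact Real.rpow_le_rpow_of_exponent_le hl1 (by linarith)
    · intro hst
      apply hq3
      have h1 := AKR.fermat_of_star (by omega) hq1 hnq hst
      rw [hnj] at h1
      exact teich_of_fermat hp (by omega) hqp h1

theorem mainB {ε : ℝ} (hε : 0 < ε) : ∃ c : ℝ, 0 < c ∧ ∃ n₀ : ℕ, ∀ n : ℕ, n₀ ≤ n → ¬ n.Prime →
    ∀ x : ℕ, Real.exp ((Real.log n) ^ ε) ≤ x →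
    ∀ S : Finset ℕ, (∀ r ∈ S, 0 < r ∧ r ≤ x ∧ n.Coprime r ∧
      (Polynomial.X ^ r - 1 : Polynomial (ZMod n)) ∣
        (Polynomial.X - 1) ^ n - (Polynomial.X ^ n - 1)) →
      (S.card : ℝ) ≤ x / (Real.log n) ^ c := by
  obtain ⟨δ, hδ⟩ : ∃ δ : ℝ, δ = min ε 1 := ⟨_, rfl⟩
  have hδ0 : 0 < δ := by
    rw [hδ]
    exact lt_min hε one_pos
  have hδ1 : δ ≤ 1 := by
    rw [hδ]
    exact min_le_right _ _
  have hδε : δ ≤ ε := by
    rw [hδ]
    exact min_le_left _ _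
  obtain ⟨c₁, hc₁, n₁, hn₁⟩ := bnp hδ0 hδ1
  obtain ⟨c₂, hc₂, n₂, hn₂⟩ := bpp hδ0 hδ1
  refine ⟨min c₁ c₂, lt_min hc₁ hc₂, max 3 (max n₁ n₂), fun n hn hnp x hx S hS => ?_⟩
  have hn3 : 3 ≤ n := (le_max_left _ _).trans hn
  have hn1' : n₁ ≤ n := (le_max_left _ _).trans ((le_max_right _ _).trans hn)
  have hn2' : n₂ ≤ n := (le_max_right _ _).trans ((le_max_right _ _).trans hn)
  have hl1 : 1 ≤ Real.log n := by
    rw [← Real.log_exp 1]
    apply Real.log_le_log (Real.exp_pos _)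
    have h1 := Real.exp_one_lt_d9
    have h2 : (3 : ℝ) ≤ n := by exact_mod_cast hn3
    linarith
  have hl0 : 0 < Real.log n := by linarith
  have hx' : Real.exp ((Real.log n) ^ δ) ≤ x :=
    (Real.exp_le_exp.2 (Real.rpow_le_rpow_of_exponent_le hl1 hδε)).trans hx
  have hxpos : (0 : ℝ) < x := lt_of_lt_of_le (Real.exp_pos _) hx
  have hle : ∀ b : ℝ, min c₁ c₂ ≤ b → (x : ℝ) / (Real.log n) ^ b ≤
      x / (Real.log n) ^ (min c₁ c₂) := by
    intro b hb
    exact div_le_div_of_nonneg_left hxpos.le (by positivity)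
      (Real.rpow_le_rpow_of_exponent_le hl1 hb)
  obtain ⟨p, hpd⟩ : ∃ p : ℕ, p = n.minFac := ⟨_, rfl⟩
  have hp : p.Prime := by
    rw [hpd]
    exact Nat.minFac_prime (by omega)
  have hpn : p ∣ n := by
    rw [hpd]
    exact Nat.minFac_dvd n
  obtain ⟨m, hm⟩ := hpn
  by_cases hmp : ∀ j, m ≠ p ^ j
  · exact (hn₁ n hn1' p m hp hm hmp x hx' S hS).trans (hle _ (min_le_left _ _))
  · push Not at hmp
    obtain ⟨j, hj⟩ := hmp
    have hnj : n = p ^ (j + 1) := by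
      rw [hm, hj, pow_succ, mul_comm]
    have hj1 : 1 ≤ j := by
      rcases Nat.eq_zero_or_pos j with h | h
      · exfalso
        apply hnp
        rw [hnj, h, zero_add, pow_one]
        exact hp
      · exact h
    exact (hn₂ n hn2' p (j + 1) hp (by omega) hnj x hx' S hS).trans (hle _ (min_le_right _ _))

end AGQ
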