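import Pool.Agent.AKW.Intr

/-!
# AGQ (MP_2867b3_nt, architect helper7): introspection modulo `r s`

`F` is a field of characteristic `p`, `n = p m` and `(X - 1) ^ n = X ^ n - 1` modulo `(n, X ^ (r s) - 1)`.
For `z ^ r = 1`, `η ^ s = 1` and `u = m ^ a p ^ b`: `(z - η) ^ u = z ^ u - η ^ u`.
-/

open Polynomial

namespace AGQ

variable {n m p N : ℕ} {F : Type} [Field F]

theorem lin_p [Fact p.Prime] [CharP F p] (x : F) : (x - 1) ^ p = x ^ p - 1 := by
  rw [sub_pow_char, one_pow]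

theorem lin_m [Fact p.Prime] [CharP F p] (hnm : n = p * m)
    (hst : (X ^ N - 1 : (ZMod n)[X]) ∣ (X - 1) ^ n - (X ^ n - 1)) {x : F} (hx : x ^ N = 1) :
    (x - 1) ^ m = x ^ m - 1 := by
  apply frobenius_inj F p
  have h1 : (x ^ m - 1) ^ p = (x ^ m) ^ p - 1 := lin_p (x ^ m)
  rw [frobenius_def, frobenius_def, h1, ← pow_mul, ← pow_mul, mul_comm m p, ← hnm]
  exact AKW.star_eval (Dvd.intro m hnm.symm) hst hx

theorem lin_intro [Fact p.Prime] [CharP F p] (hnm : n = p * m)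
    (hst : (X ^ N - 1 : (ZMod n)[X]) ∣ (X - 1) ^ n - (X ^ n - 1)) (a b : ℕ) {x : F}
    (hx : x ^ N = 1) : (x - 1) ^ (m ^ a * p ^ b) = x ^ (m ^ a * p ^ b) - 1 := by
  have hpow : ∀ (k : ℕ) {y : F}, y ^ N = 1 → (y ^ k) ^ N = 1 := by
    intro k y hy
    rw [← pow_mul, mul_comm, pow_mul, hy, one_pow]
  have h1 : ∀ {y : F}, y ^ N = 1 → (y - 1) ^ (m ^ a) = y ^ (m ^ a) - 1 := by
    induction a with
    | zero =>
      intro y _
      rw [pow_zero, pow_one, pow_one]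
    | succ a ih =>
      intro y hy
      rw [pow_succ, pow_mul, ih hy, lin_m hnm hst (hpow _ hy), ← pow_mul]
  have h2 : ∀ {y : F}, y ^ N = 1 → (y - 1) ^ (p ^ b) = y ^ (p ^ b) - 1 := by
    intro y _
    rw [sub_pow_char_pow, one_pow]
  rw [pow_mul, h1 hx, h2 (hpow _ hx), ← pow_mul]

/-- Introspection of the linear polynomials `X - η`. -/
theorem lin2 [Fact p.Prime] [CharP F p] {r s : ℕ} (hnm : n = p * m)
    (hst : (X ^ (r * s) - 1 : (ZMod n)[X]) ∣ (X - 1) ^ n - (X ^ n - 1)) (a b : ℕ) {z η : F}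
    (hz : z ^ r = 1) (hη : η ^ s = 1) (hs : s ≠ 0) :
    (z - η) ^ (m ^ a * p ^ b) = z ^ (m ^ a * p ^ b) - η ^ (m ^ a * p ^ b) := by
  have hη0 : η ≠ 0 := by
    rintro rfl
    rw [zero_pow hs] at hη
    exact zero_ne_one hη
  have h1 : (z / η) ^ (r * s) = 1 := by
    rw [div_pow, pow_mul, hz, one_pow, mul_comm r s, pow_mul, hη, one_pow, div_one]
  have h2 := lin_intro hnm hst a b h1
  have h3 : z - η = η * (z / η - 1) := by
    rw [mul_sub, mul_one, mul_div_cancel₀ _ hη0]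
  rw [h3, mul_pow, h2, div_pow, mul_sub, mul_one, mul_div_cancel₀ _ (pow_ne_zero _ hη0)]

end AGQ
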