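import Pool.Agent.AGQ.Sel
import Pool.Agent.AGQ.Exs

/-!
# AGQ: the choice of the parameters, exponent 7
-/

open Real Filter Topology

namespace AGQ

theorem mainA_np {ε : ℝ} (hε : 0 < ε) (hε1 : ε ≤ 1) : ∃ n₀ : ℕ, ∀ n : ℕ, n₀ ≤ n →
    ∀ p m : ℕ, p.Prime → n = p * m → (∀ j, m ≠ p ^ j) →
    (∀ q : ℕ, q.Prime → q ∣ n → (Real.log n) ^ (5 + ε) < q) →
    ∃ M : ℕ, 0 < M ∧ n.Coprime M ∧ (M : ℝ) ≤ (Real.log n) ^ (7 + ε) ∧
      ¬ (Polynomial.X ^ M - 1 : Polynomial (ZMod n)) ∣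
        (Polynomial.X - 1) ^ n - (Polynomial.X ^ n - 1) := by
  obtain ⟨Y0, hY0⟩ := exs (ε := ε / 200) (by positivity)
  obtain ⟨R0, hR0⟩ := exr
  obtain ⟨R1, hR1⟩ := crit3
  have hlog : Tendsto (fun n : ℕ => Real.log n) atTop atTop :=
    Real.tendsto_log_atTop.comp tendsto_natCast_atTop_atTop
  have e1 : ∀ᶠ l : ℝ in atTop, Y0 ≤ l ^ (2 + ε / 10) :=
    (tendsto_rpow_atTop (by positivity)).eventually_ge_atTop _
  have e2 : ∀ᶠ l : ℝ in atTop, 3000 + R1 ≤ l ^ (ε / 50) :=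
    (tendsto_rpow_atTop (by positivity)).eventually_ge_atTop _
  have e3 : ∀ᶠ l : ℝ in atTop, 1 + 20 * Real.log l + 0 * l ^ (0 : ℝ) ≤ l ^ (ε / 50) := by
    have h1 : (fun l : ℝ => Real.log l) =o[atTop] fun l : ℝ => l ^ (ε / 50) :=
      isLittleO_log_rpow_atTop (by positivity)
    have h2 := h1.bound (c := 1 / 40) (by norm_num)
    have h3 : ∀ᶠ l : ℝ in atTop, 2 ≤ l ^ (ε / 50) :=
      (tendsto_rpow_atTop (by positivity)).eventually_ge_atTop _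
    filter_upwards [h2, h3, eventually_ge_atTop 1] with l h2 h3 h4
    rw [Real.norm_of_nonneg (Real.log_nonneg h4), Real.norm_of_nonneg (by positivity)] at h2
    linarith
  obtain ⟨n₀, hn₀⟩ := eventually_atTop.1 ((eventually_ge_atTop 2).and (hlog.eventually
    ((eventually_ge_atTop (max 2 (R0 + 1 : ℝ))).and (e1.and (e2.and e3)))))
  refine ⟨n₀, fun n hn p m hp hnm hmp hq => ?_⟩
  obtain ⟨hn2, hl1, hY, hx, hlam'⟩ := hn₀ n hn
  obtain ⟨l, hl⟩ : ∃ l : ℝ, l = Real.log n := ⟨_, rfl⟩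
  rw [← hl] at hl1 hY hx hq hlam' ⊢
  rw [zero_mul, add_zero] at hlam'
  have hl2 : 2 ≤ l := (le_max_left _ _).trans hl1
  have hl0 : 1 ≤ l := by linarith
  have hlR : (R0 : ℝ) + 1 ≤ l := (le_max_right _ _).trans hl1
  have hlpos : 0 < l := by linarith
  have hll : 0 < Real.log l := Real.log_pos (by linarith)
  obtain ⟨x, hxd⟩ : ∃ x : ℝ, x = l ^ (ε / 50) := ⟨_, rfl⟩
  rw [← hxd] at hx hlam'
  have hR1' : (0 : ℝ) ≤ R1 := Nat.cast_nonneg _
  have hx3 : 3000 ≤ x := by linarith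
  have hx1 : 1 ≤ x := by linarith
  have hx0 : 0 < x := by linarith
  have hxk : ∀ k : ℕ, x ^ k = l ^ (ε / 50 * k) := by
    intro k
    rw [hxd, ← Real.rpow_natCast, ← Real.rpow_mul hlpos.le]
  obtain ⟨Y, hYd⟩ : ∃ Y : ℝ, Y = l ^ (2 + ε / 10) := ⟨_, rfl⟩
  rw [← hYd] at hY
  have hYpos : 0 < Y := by
    rw [hYd]
    positivity
  have hYx : Y = l ^ (2 : ℕ) * x ^ 5 := by
    rw [hYd, hxk, ← Real.rpow_natCast l, ← Real.rpow_add hlpos]
    congr 1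
    push_cast
    ring
  obtain ⟨s, E, hs0, hE0, hYs, hsY, hEY, hexp, hqs⟩ := hY0 Y hY
  have hYη : Y ^ (ε / 200) ≤ x := by
    rw [hYd, hxd, ← Real.rpow_mul hlpos.le]
    apply Real.rpow_le_rpow_of_exponent_le hl0
    nlinarith
  have hEx : (E : ℝ) ≤ x := hEY.trans hYη
  have hsx : (s : ℝ) ≤ l ^ (2 : ℕ) * x ^ 6 := by
    refine hsY.trans ?_
    rw [Real.rpow_add hYpos, Real.rpow_one]
    calc Y * Y ^ (ε / 200) ≤ Y * x := mul_le_mul_of_nonneg_left hYη hYpos.le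
      _ = l ^ (2 : ℕ) * x ^ 6 := by rw [hYx]; ring
  -- `L`
  obtain ⟨L, hL⟩ : ∃ L : ℕ, L = Nat.clog 2 n := ⟨_, rfl⟩
  have hnL : n ≤ 2 ^ L := by
    rw [hL]
    exact Nat.le_pow_clog (by norm_num) n
  have hL1 : 1 ≤ L := by
    rw [hL]
    exact Nat.clog_pos (by norm_num) hn2
  have hLl : (L : ℝ) ≤ 3 * l := by
    have h1 : 2 ^ (L - 1) < n := by
      rw [hL]
      exact Nat.pow_pred_clog_lt_self (by norm_num) (by omega)
    have h2 : ((2 : ℝ) ^ (L - 1)) ≤ n := by exact_mod_cast h1.le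
    have h3 := Real.log_le_log (by positivity) h2
    rw [Real.log_pow, ← hl, Nat.cast_sub hL1] at h3
    have h4 := Real.log_two_gt_d9
    push_cast at h3
    have h5 : (1 : ℝ) ≤ L := by exact_mod_cast hL1
    nlinarith
  -- `lam`
  obtain ⟨lam, hlam⟩ : ∃ lam : ℕ, lam = ⌈20 * Real.log l⌉₊ := ⟨_, rfl⟩
  have hlamx : (lam : ℝ) ≤ x := by
    have h1 : (lam : ℝ) < 20 * Real.log l + 1 := by
      rw [hlam]
      exact Nat.ceil_lt_add_one (by positivity)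
    linarith
  have hlam2 : 20 * Real.log l ≤ lam := by
    rw [hlam]
    exact Nat.le_ceil _
  have hpow8 : l ^ (8 : ℝ) ≤ ((2 ^ lam : ℕ) : ℝ) := by
    rw [← Real.log_le_log_iff (by positivity) (by positivity), Real.log_rpow hlpos]
    push_cast
    rw [Real.log_pow]
    have h4 := Real.log_two_gt_d9
    nlinarith
  -- `D`
  obtain ⟨D, hD⟩ : ∃ D : ℕ, D = 4 * lam * (lam + 1) + R1 + 1 := ⟨_, rfl⟩
  have hDx : (D : ℝ) ≤ x ^ 3 := by
    rw [hD]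
    push_cast
    have h1 : (lam : ℝ) * ((lam : ℝ) + 1) ≤ x * (x + 1) :=
      mul_le_mul hlamx (by linarith) (by positivity) hx0.le
    have h2 : x ^ 3 = x * x ^ 2 := by ring
    nlinarith [sq_nonneg x]
  have hD1 : (1 : ℝ) ≤ D := by
    rw [hD]
    push_cast
    have : (0 : ℝ) ≤ lam := Nat.cast_nonneg _
    nlinarith [mul_nonneg this this]
  -- `y`, `r`
  obtain ⟨y, hy⟩ : ∃ y : ℕ, y = E ^ 2 * (s * D ^ 2 + 1) := ⟨_, rfl⟩
  have hy1 : 1 ≤ y := by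
    rw [hy]
    exact Nat.mul_pos (by positivity) (by positivity)
  have hsy : s < y := by
    have h1 : 1 ≤ D := by exact_mod_cast hD1
    have h2 : s ≤ s * D ^ 2 := Nat.le_mul_of_pos_right _ (by positivity)
    rw [hy]
    calc s < s * D ^ 2 + 1 := by omega
      _ ≤ E ^ 2 * (s * D ^ 2 + 1) := Nat.le_mul_of_pos_left _ (by positivity)
  have hyx : (y : ℝ) ≤ l ^ 2 * x ^ 15 := by
    have h1 : (E : ℝ) ^ 2 ≤ x ^ 2 := pow_le_pow_left₀ (by positivity) hEx 2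
    have h2 : (D : ℝ) ^ 2 ≤ (x ^ 3) ^ 2 := pow_le_pow_left₀ (by positivity) hDx 2
    have h3 : (s : ℝ) * (D : ℝ) ^ 2 ≤ (l ^ 2 * x ^ 6) * (x ^ 3) ^ 2 :=
      mul_le_mul hsx h2 (by positivity) (by positivity)
    have h4 : 1 ≤ l ^ 2 * x ^ 12 := one_le_mul_of_one_le_of_one_le (one_le_pow₀ hl0)
      (one_le_pow₀ hx1)
    have h5 : (s : ℝ) * (D : ℝ) ^ 2 + 1 ≤ 2 * (l ^ 2 * x ^ 12) := by
      have : (l ^ 2 * x ^ 6) * (x ^ 3) ^ 2 = l ^ 2 * x ^ 12 := by ring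
      linarith
    rw [hy]
    push_cast
    calc (E : ℝ) ^ 2 * ((s : ℝ) * (D : ℝ) ^ 2 + 1) ≤ x ^ 2 * (2 * (l ^ 2 * x ^ 12)) :=
          mul_le_mul h1 h5 (by positivity) (by positivity)
      _ = 2 * (l ^ 2 * x ^ 14) := by ring
      _ ≤ x * (l ^ 2 * x ^ 14) := mul_le_mul_of_nonneg_right (by linarith) (by positivity)
      _ = l ^ 2 * x ^ 15 := by ring
  obtain ⟨r, hr, hrle, hrn, hyr⟩ := hR0 n y hn2 hy1
  rw [← hl] at hrle
  have hrx : (r : ℝ) ≤ x ^ 31 * l ^ 5 := by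
    have h1 : (y : ℝ) ^ 2 ≤ (l ^ 2 * x ^ 15) ^ 2 := pow_le_pow_left₀ (by positivity) hyx 2
    have h2 : 2 * (y : ℝ) ^ 2 * l ≤ 2 * (x ^ 30 * l ^ 5) := by
      calc 2 * (y : ℝ) ^ 2 * l ≤ 2 * (l ^ 2 * x ^ 15) ^ 2 * l := by
            apply mul_le_mul_of_nonneg_right _ hlpos.le
            linarith
        _ = 2 * (x ^ 30 * l ^ 5) := by ring
    have h3 : l ≤ x ^ 30 * l ^ 5 := by
      have h6 : 1 ≤ x ^ 30 * l ^ 4 := one_le_mul_of_one_le_of_one_le (one_le_pow₀ hx1)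
        (one_le_pow₀ hl0)
      calc l = 1 * l := by ring
        _ ≤ (x ^ 30 * l ^ 4) * l := mul_le_mul_of_nonneg_right h6 hlpos.le
        _ = x ^ 30 * l ^ 5 := by ring
    have h4 : 0 < x ^ 30 * l ^ 5 := by positivity
    calc (r : ℝ) ≤ 3 * (x ^ 30 * l ^ 5) := by linarith
      _ ≤ x * (x ^ 30 * l ^ 5) := mul_le_mul_of_nonneg_right (by linarith) h4.le
      _ = x ^ 31 * l ^ 5 := by ring
  have hr5 : (r : ℝ) ≤ l ^ (5 + ε) := by
    refine hrx.trans ?_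
    rw [hxk, ← Real.rpow_natCast l 5, ← Real.rpow_add hlpos]
    apply Real.rpow_le_rpow_of_exponent_le hl0
    push_cast
    linarith
  have : Fact r.Prime := ⟨hr⟩
  have hxl5 : x ≤ l ^ (5 + ε) := by
    rw [hxd]
    apply Real.rpow_le_rpow_of_exponent_le hl0
    linarith
  have hrs' : s < r := by
    have h1 : orderOf ((n : ℕ) : ZMod r) ≤ r := by
      have := Nat.le_of_dvd (by have := hr.two_le; omega) (ZMod.orderOf_dvd_card_sub_one (p := r)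
        (a := ((n : ℕ) : ZMod r)) (by
          rw [Ne, ZMod.natCast_eq_zero_iff]
          exact hrn))
      omega
    omega
  have hrs : r.Coprime s := by
    rw [Nat.Prime.coprime_iff_not_dvd hr]
    intro h
    have := Nat.le_of_dvd hs0 h
    omega
  have hnc : n.Coprime (r * s) := by
    apply Nat.Coprime.mul_right
    · rw [Nat.coprime_comm, Nat.Prime.coprime_iff_not_dvd hr]
      exact hrn
    · apply Nat.coprime_of_dvd
      intro q hq1 hq2 hq3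
      have h1 := hq q hq1 hq2
      have h2 := (hqs q hq1 hq3).trans hYη
      linarith
  have hMle : ((r * s : ℕ) : ℝ) ≤ l ^ (7 + ε) := by
    push_cast
    calc (r : ℝ) * s ≤ (x ^ 31 * l ^ 5) * (l ^ (2 : ℕ) * x ^ 6) :=
          mul_le_mul hrx hsx (by positivity) (by positivity)
      _ = x ^ 37 * l ^ (7 : ℕ) := by ring
      _ ≤ l ^ (7 + ε) := by
          rw [hxk, ← Real.rpow_natCast l 7, ← Real.rpow_add hlpos]
          apply Real.rpow_le_rpow_of_exponent_le hl0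
          push_cast
          linarith
  have hR : 0 < r * s := Nat.mul_pos hr.pos hs0
  have hmc : m.Coprime (r * s) := Nat.Coprime.coprime_dvd_left ⟨p, by rw [hnm, mul_comm]⟩ hnc
  have hpc : p.Coprime (r * s) := Nat.Coprime.coprime_dvd_left ⟨m, hnm⟩ hnc
  have hm0 : m ≠ 0 := by
    rintro rfl
    rw [mul_zero] at hnm
    omega
  refine ⟨r * s, hR, hnc, hMle, ?_⟩
  refine hR1 n m p (r * s) s L (E ^ 2) y lam (Dvd.intro_left _ rfl) hmc hpc hp hnm hmp hR hnL hm0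
    (card_map_exp _ _ _ hs0 hE0 hexp) (hyr.trans (ord_mono (Dvd.intro _ rfl) hR hnc)) ?_ ?_ ?_
  · have h1 : ((r * s : ℕ) : ℝ) ≤ ((2 ^ lam : ℕ) : ℝ) := by
      refine hMle.trans (le_trans ?_ hpow8)
      exact Real.rpow_le_rpow_of_exponent_le hl0 (by linarith)
    exact_mod_cast h1
  · rw [← hD, ← hy]
  · have h1 : ((64 * L ^ 2 * lam ^ 2 * E ^ 2 : ℕ) : ℝ) ≤ (s : ℝ) := by
      refine le_trans ?_ hYs
      rw [hYx]
      push_cast
      have h2 : (L : ℝ) ^ 2 ≤ (3 * l) ^ 2 := pow_le_pow_left₀ (by positivity) hLl 2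
      have h3 : (lam : ℝ) ^ 2 ≤ x ^ 2 := pow_le_pow_left₀ (by positivity) hlamx 2
      have h4 : (E : ℝ) ^ 2 ≤ x ^ 2 := pow_le_pow_left₀ (by positivity) hEx 2
      calc 64 * (L : ℝ) ^ 2 * (lam : ℝ) ^ 2 * (E : ℝ) ^ 2 ≤ 64 * (3 * l) ^ 2 * x ^ 2 * x ^ 2 := by
            gcongr
        _ = 576 * (l ^ 2 * x ^ 4) := by ring
        _ ≤ x * (l ^ 2 * x ^ 4) := mul_le_mul_of_nonneg_right (by linarith) (by positivity)
        _ = l ^ (2 : ℕ) * x ^ 5 := by ring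
    exact_mod_cast h1

end AGQ
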