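import Pool.Agent.Helper6.PNT
import Pool.Agent.Helper27.IS.Primes
import Pool.Agent.RG.Mer

/-!
# AGQ: reciprocal sums over primes
-/

open Finset Real Filter Topology

namespace AGQ

/-- primes `q ≤ N`, `q ≡ 1` modulo `l` -/
def P1 (l N : ℕ) : Finset ℕ := (range (N + 1)).filter fun q => q.Prime ∧ (q : ZMod l) = 1

theorem P1_lower (l : ℕ) (hl : 0 < l) : ∃ C : ℝ, ∀ N : ℕ, 3 ≤ N →
    1 / (2 * (l.totient : ℝ)) * log (log N) - C ≤ ∑ q ∈ P1 l N, 1 / (q : ℝ) := by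
  classical
  have : NeZero l := ⟨hl.ne'⟩
  have hφ : (0 : ℝ) < l.totient := by exact_mod_cast Nat.totient_pos.2 hl
  obtain ⟨g, hg⟩ : ∃ g : ℕ → ℝ, g = fun i : ℕ => if i.Prime ∧ (i : ZMod l) = 1 then 1 else 0 :=
    ⟨_, rfl⟩
  have hg0 : ∀ i, 0 ≤ g i := by
    intro i
    rw [hg]
    dsimp only
    split_ifs <;> norm_num
  have hgz : g 0 = 0 := by
    rw [hg]
    simp [Nat.not_prime_zero]
  have h1 := Pool.Agent.Helper6.pi_ap_nat (q := l) (a := 1) isUnit_one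
  have h2 : 1 / (2 * (l.totient : ℝ)) < 1 / (l.totient : ℝ) := by
    apply one_div_lt_one_div_of_lt hφ
    linarith
  have h3 : ∀ᶠ n : ℕ in atTop, 1 / (2 * (l.totient : ℝ)) * n / log n ≤
      ∑ i ∈ range (n + 1), g i := by
    filter_upwards [h1.eventually_const_lt h2, eventually_ge_atTop 2] with n hn hn2
    have hn0 : (0 : ℝ) < n := by
      have : 0 < n := by omega
      exact_mod_cast this
    have hlog : 0 < log (n : ℝ) := log_pos (by exact_mod_cast (by omega : 1 < n))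
    rw [lt_div_iff₀ hn0] at hn
    rw [div_le_iff₀ hlog]
    refine hn.le.trans (le_of_eq ?_)
    congr 1
    rw [hg]
    simp only
    rw [← sum_filter, sum_const, nsmul_eq_mul, mul_one]
  obtain ⟨C, hC⟩ := Pool.Agent.Helper27.IS.sum_lower g hg0 hgz _ (by positivity) h3
  refine ⟨C, fun N hN => (hC N hN).trans (le_of_eq ?_)⟩
  unfold P1
  rw [sum_filter]
  refine sum_congr rfl fun i _ => ?_
  rw [hg]
  dsimp only
  split_ifs <;> simp

/-- the primes between `exp (l ^ α)` and `exp (l ^ β)` -/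
theorem range_sum {α β : ℝ} (hα : 0 < α) (hαβ : α < β) : ∃ C : ℝ, ∀ᶠ l : ℝ in atTop,
    2 ≤ ⌈exp (l ^ α)⌉₊ ∧ ⌈exp (l ^ α)⌉₊ ≤ ⌊exp (l ^ β)⌋₊ ∧
      (β - α) * log l - C ≤ ∑ q ∈ Pool.Agent.RG.prm ⌈exp (l ^ α)⌉₊ ⌊exp (l ^ β)⌋₊, 1 / (q : ℝ) := by
  obtain ⟨C, hC, hrec⟩ := Pool.Agent.RG.recip_bounds
  refine ⟨2 * log 2 + C / log 2, ?_⟩
  have hβ : 0 < β := hα.trans hαβ
  have h1 : ∀ᶠ l : ℝ in atTop, 2 ≤ l ^ α := (tendsto_rpow_atTop hα).eventually_ge_atTop 2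
  have h2 : ∀ᶠ l : ℝ in atTop, 2 ≤ l ^ (β - α) :=
    (tendsto_rpow_atTop (by linarith)).eventually_ge_atTop 2
  filter_upwards [h1, h2, eventually_ge_atTop 1] with l h1 h2 h3
  have hl0 : 0 < l := by linarith
  have hlog2 : 0 < log 2 := log_pos (by norm_num)
  have e1 : l ^ β = l ^ α * l ^ (β - α) := by
    rw [← Real.rpow_add hl0]
    congr 1
    ring
  have h4 : l ^ α + 2 ≤ l ^ β := by
    rw [e1]
    nlinarith
  obtain ⟨a, ha⟩ : ∃ a : ℝ, a = l ^ α := ⟨_, rfl⟩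
  obtain ⟨b, hb⟩ : ∃ b : ℝ, b = l ^ β := ⟨_, rfl⟩
  rw [← ha, ← hb] at h4
  rw [← ha] at h1
  rw [← ha, ← hb]
  have hea : (3 : ℝ) ≤ exp a := by
    have := Real.add_one_le_exp a
    linarith
  have h5 : exp a + 2 ≤ exp b := by
    have h6 : exp (a + 2) ≤ exp b := Real.exp_le_exp.2 h4
    rw [Real.exp_add] at h6
    have h7 : (3 : ℝ) ≤ exp 2 := by
      have := Real.add_one_le_exp (2 : ℝ)
      linarith
    nlinarith
  have h6 : (⌈exp a⌉₊ : ℝ) < exp a + 1 := Nat.ceil_lt_add_one (by positivity)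
  have h7 : exp a ≤ (⌈exp a⌉₊ : ℝ) := Nat.le_ceil _
  have h8 : (⌊exp b⌋₊ : ℝ) ≤ exp b := Nat.floor_le (by positivity)
  have h9 : exp b < (⌊exp b⌋₊ : ℝ) + 1 := Nat.lt_floor_add_one _
  have g1 : 2 ≤ ⌈exp a⌉₊ := by
    have : (2 : ℝ) ≤ (⌈exp a⌉₊ : ℝ) := by linarith
    exact_mod_cast this
  have g2 : ⌈exp a⌉₊ ≤ ⌊exp b⌋₊ := by
    have : (⌈exp a⌉₊ : ℝ) ≤ (⌊exp b⌋₊ : ℝ) := by linarith
    exact_mod_cast this
  refine ⟨g1, g2, ?_⟩
  have g3 := (abs_le.1 (hrec _ _ g1 g2)).1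
  have g4 : C / log ⌈exp a⌉₊ ≤ C / log 2 := by
    apply div_le_div_of_nonneg_left hC.le hlog2
    exact Real.log_le_log (by norm_num) (by exact_mod_cast g1)
  have g5 : log (log ⌈exp a⌉₊) ≤ log 2 + α * log l := by
    have k1 : log (⌈exp a⌉₊ : ℝ) ≤ 2 * a := by
      have k2 : (⌈exp a⌉₊ : ℝ) ≤ exp (2 * a) := by
        have k3 : exp (2 * a) = exp a * exp a := by rw [← Real.exp_add]; congr 1; ring
        rw [k3]
        nlinarith
      have := Real.log_le_log (by linarith) k2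
      rwa [Real.log_exp] at this
    have k0 : 0 < log (⌈exp a⌉₊ : ℝ) := Real.log_pos (by
      have : (2 : ℝ) ≤ (⌈exp a⌉₊ : ℝ) := by exact_mod_cast g1
      linarith)
    have k4 := Real.log_le_log k0 k1
    rw [Real.log_mul (by norm_num) (by linarith), ha, Real.log_rpow hl0] at k4
    rwa [← ha] at k4
  have g6 : β * log l - log 2 ≤ log (log ⌊exp b⌋₊) := by
    have k1 : b / 2 ≤ log (⌊exp b⌋₊ : ℝ) := by
      have k2 : exp (b / 2) ≤ (⌊exp b⌋₊ : ℝ) := by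
        have k3 : exp b = exp (b / 2) * exp (b / 2) := by rw [← Real.exp_add]; congr 1; ring
        have k4 : 1 + b / 2 ≤ exp (b / 2) := by
          have := Real.add_one_le_exp (b / 2)
          linarith
        nlinarith
      have := Real.log_le_log (by positivity) k2
      rwa [Real.log_exp] at this
    have k4 := Real.log_le_log (by linarith) k1
    rw [Real.log_div (by linarith) (by norm_num), hb, Real.log_rpow hl0] at k4
    rwa [← hb] at k4
  linarith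

end AGQ
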