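import Mathlib

/-!
# AGQ: integers with small totient quotient
-/

open Real

namespace AGQ

theorem totient_small {δ : ℝ} (hδ : 0 < δ) : ∃ D : ℕ, 0 < D ∧ (D.totient : ℝ) ≤ δ * D := by
  have h1 := not_summable_one_div_on_primes
  have h0 : ∀ n : ℕ, 0 ≤ Set.indicator {p : ℕ | p.Prime} (fun n : ℕ => (1 : ℝ) / n) n := by
    intro n
    exact Set.indicator_nonneg (fun n _ => by positivity) n
  rw [not_summable_iff_tendsto_nat_atTop_of_nonneg h0] at h1
  obtain ⟨N, hN⟩ := (h1.eventually_ge_atTop (-Real.log δ)).exists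
  refine ⟨primorial N, primorial_pos N, ?_⟩
  have h2 := Nat.totient_eq_mul_prod_factors (primorial N)
  have h3 : ((primorial N).totient : ℝ) =
      (primorial N : ℝ) * ∏ p ∈ (primorial N).primeFactors, (1 - (p : ℝ)⁻¹) := by
    have := congrArg (fun q : ℚ => (q : ℝ)) h2
    push_cast at this
    exact this
  rw [h3, mul_comm]
  refine mul_le_mul_of_nonneg_right ?_ (by positivity)
  have h4 : ∏ p ∈ (primorial N).primeFactors, (1 - (p : ℝ)⁻¹) ≤
      ∏ p ∈ (primorial N).primeFactors, Real.exp (-(p : ℝ)⁻¹) := by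
    refine Finset.prod_le_prod (fun p hp => ?_) (fun p _ => ?_)
    · have h5 : (1 : ℝ) ≤ p := by exact_mod_cast (Nat.prime_of_mem_primeFactors hp).one_le
      have h6 := inv_le_one_of_one_le₀ h5
      linarith
    · have := Real.add_one_le_exp (-(p : ℝ)⁻¹)
      linarith
  refine h4.trans ?_
  rw [← Real.exp_sum, Finset.sum_neg_distrib]
  have h5 : ∑ i ∈ Finset.range N, Set.indicator {p : ℕ | p.Prime} (fun n : ℕ => (1 : ℝ) / n) i ≤
      ∑ p ∈ (primorial N).primeFactors, (p : ℝ)⁻¹ := by
    simp only [Set.indicator_apply, Set.mem_ofPred_eq]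
    rw [← Finset.sum_filter]
    simp only [one_div]
    refine Finset.sum_le_sum_of_subset_of_nonneg ?_ (fun p _ _ => by positivity)
    intro p hp
    rw [Finset.mem_filter, Finset.mem_range] at hp
    rw [Nat.mem_primeFactors]
    refine ⟨hp.2, ?_, (primorial_pos N).ne'⟩
    rw [primorial]
    exact Finset.dvd_prod_of_mem (fun q => q)
      (Finset.mem_filter.2 ⟨Finset.mem_range.2 (by omega), hp.2⟩)
  calc Real.exp (-∑ p ∈ (primorial N).primeFactors, (p : ℝ)⁻¹) ≤ Real.exp (Real.log δ) := by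
        apply Real.exp_le_exp.2
        linarith
    _ = δ := Real.exp_log hδ

end AGQ
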