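import Pool.Agent.AGQ.Div

/-!
# AGQ: few numbers have few prime factors in a given set, with a power saving
-/

open Finset

namespace AGQ

/-- disjoint groups with large reciprocal sums -/
theorem groups (J : ℕ) : ∀ P : Finset ℕ, (∀ q ∈ P, 2 ≤ q) →
    17 * (J : ℝ) ≤ ∑ q ∈ P, 1 / (q : ℝ) →
    ∃ G : ℕ → Finset ℕ, (∀ j < J, G j ⊆ P ∧ 16 ≤ ∑ q ∈ G j, 1 / (q : ℝ)) ∧
      (∀ i < J, ∀ j < J, i ≠ j → Disjoint (G i) (G j)) := by
  classical
  induction J with
  | zero =>
    intro P _ _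
    exact ⟨fun _ => ∅, fun j hj => absurd hj (Nat.not_lt_zero j),
      fun i hi => absurd hi (Nat.not_lt_zero i)⟩
  | succ J ih =>
    intro P hP hsum
    push_cast at hsum
    have hJ0 : (0 : ℝ) ≤ J := Nat.cast_nonneg J
    have hne : (P.powerset.filter fun A : Finset ℕ => 16 ≤ ∑ q ∈ A, 1 / (q : ℝ)).Nonempty := by
      refine ⟨P, mem_filter.2 ⟨mem_powerset_self P, ?_⟩⟩
      linarith
    obtain ⟨A, hA, hmin⟩ := exists_min_image _ card hne
    rw [mem_filter, mem_powerset] at hA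
    have hAne : A.Nonempty := by
      rw [nonempty_iff_ne_empty]
      intro h
      have h1 := hA.2
      rw [h, sum_empty] at h1
      norm_num at h1
    obtain ⟨q, hq⟩ := hAne
    have h1 : ¬ 16 ≤ ∑ q' ∈ A.erase q, 1 / (q' : ℝ) := by
      intro h
      have h2 := hmin (A.erase q) (mem_filter.2 ⟨mem_powerset.2 ((erase_subset q A).trans hA.1), h⟩)
      have h3 := card_erase_lt_of_mem hq
      omega
    push Not at h1
    have h2 : 1 / (q : ℝ) ≤ 1 / 2 := by
      apply one_div_le_one_div_of_le (by norm_num)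
      exact_mod_cast hP q (hA.1 hq)
    have h3 : ∑ q' ∈ A, 1 / (q' : ℝ) ≤ 17 := by
      rw [← add_sum_erase A _ hq]
      linarith
    have h4 : ∑ q' ∈ P \ A, 1 / (q' : ℝ) + ∑ q' ∈ A, 1 / (q' : ℝ) = ∑ q' ∈ P, 1 / (q' : ℝ) :=
      sum_sdiff hA.1
    obtain ⟨G, g1, g2⟩ := ih (P \ A) (fun q hq => hP q (mem_sdiff.1 hq).1) (by linarith)
    refine ⟨fun j => if j < J then G j else A, ?_, ?_⟩
    · intro j hj
      dsimp only
      split_ifs with h5
      · exact ⟨(g1 j h5).1.trans sdiff_subset, (g1 j h5).2⟩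
      · exact hA
    · intro i hi j hj hij
      dsimp only
      split_ifs with h5 h6 h6
      · exact g2 i h5 j h6 hij
      · exact disjoint_of_subset_left (g1 i h5).1 sdiff_disjoint
      · exact (disjoint_of_subset_left (g1 j h6).1 sdiff_disjoint).symm
      · omega

theorem DS.prod (T : Finset ℕ) (G : ℕ → Finset ℕ) (f : ℕ → ℕ → ℝ) (M w : ℕ → ℝ)
    (h : ∀ j ∈ T, DS (G j) (f j) (M j) (w j))
    (hd : ∀ i ∈ T, ∀ j ∈ T, i ≠ j → Disjoint (G i) (G j)) :
    DS (T.biUnion G) (fun r => ∏ j ∈ T, f j r) (∏ j ∈ T, M j) (∏ j ∈ T, w j) := by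
  classical
  induction T using Finset.induction_on with
  | empty =>
    simp only [biUnion_empty, prod_empty]
    exact DS.one ∅
  | insert a s ha ih =>
    simp only [biUnion_insert, prod_insert ha]
    apply DS.mul
    · rw [disjoint_biUnion_right]
      intro j hj
      exact hd a (mem_insert_self a s) j (mem_insert_of_mem hj) fun h => ha (h ▸ hj)
    · exact h a (mem_insert_self a s)
    · exact ih (fun j hj => h j (mem_insert_of_mem hj))
        fun i hi j hj => hd i (mem_insert_of_mem hi) j (mem_insert_of_mem hj)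

theorem DS.w_nonneg {P : Finset ℕ} {f : ℕ → ℝ} {M w : ℝ} (h : DS P f M w) : 0 ≤ w := by
  obtain ⟨I, _, D, c, h1, h2, h3, h4⟩ := h
  rw [h4]
  exact sum_nonneg fun i _ => abs_nonneg _

theorem few (P : Finset ℕ) (W : ℕ) (hP : ∀ q ∈ P, q.Prime ∧ q ≤ W) (J : ℕ)
    (hsum : 17 * (J : ℝ) ≤ ∑ q ∈ P, 1 / (q : ℝ)) (x : ℕ) :
    (((Icc 1 x).filter fun r => 2 * om P r < J).card : ℝ) ≤
      x / 2 ^ J + 2 ^ J * (1 + W) ^ (J + 1) := by
  classical
  obtain ⟨G, hG, hGd⟩ := groups J P (fun q hq => (hP q hq).1.two_le) hsum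
  obtain ⟨E, hE⟩ : ∃ E : ℕ → ℝ, E = fun j => ∑ q ∈ G j, 1 / (q : ℝ) := ⟨_, rfl⟩
  have hE16 : ∀ j < J, 16 ≤ E j := by
    intro j hj
    rw [hE]
    exact (hG j hj).2
  have hbase : ∀ j : ℕ, ∃ M w : ℝ, j < J → DS (G j) (fun r => (1 - (om (G j) r : ℝ) / E j) ^ 2) M w ∧
      M ≤ 1 / E j ∧ w ≤ (1 + (G j).card / E j) ^ 2 ∧ 0 ≤ M := by
    intro j
    by_cases hj : j < J
    · obtain ⟨M, w, h⟩ := DS.base (G j) (fun q hq => (hP q ((hG j hj).1 hq)).1) (E := E j)
        (by rw [hE]) (by have := hE16 j hj; linarith)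
      exact ⟨M, w, fun _ => h⟩
    · exact ⟨0, 0, fun h => absurd h hj⟩
  choose M w hMw using hbase
  obtain ⟨f, hf⟩ : ∃ f : ℕ → ℕ → ℝ, f = fun j r => (1 - (om (G j) r : ℝ) / E j) ^ 2 := ⟨_, rfl⟩
  have hf0 : ∀ j r, 0 ≤ f j r := by
    intro j r
    rw [hf]
    exact sq_nonneg _
  have hds : ∀ j < J, DS (G j) (f j) (M j) (w j) := by
    intro j hj
    rw [hf]
    exact (hMw j hj).1
  have hM : ∀ j < J, 0 ≤ M j ∧ M j ≤ 1 / 16 := by
    intro j hj
    obtain ⟨-, h2, -, h4⟩ := hMw j hj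
    refine ⟨h4, h2.trans ?_⟩
    exact one_div_le_one_div_of_le (by norm_num) (hE16 j hj)
  have hw : ∀ j < J, 0 ≤ w j ∧ w j ≤ (1 + (W : ℝ)) ^ 2 := by
    intro j hj
    obtain ⟨h1, -, h3, -⟩ := hMw j hj
    refine ⟨h1.w_nonneg, h3.trans ?_⟩
    have h5 : (G j).card ≤ W := by
      have h6 : G j ⊆ Icc 1 W := by
        intro q hq
        rw [mem_Icc]
        exact ⟨(hP q ((hG j hj).1 hq)).1.one_le, (hP q ((hG j hj).1 hq)).2⟩
      have h7 := card_le_card h6
      rwa [Nat.card_Icc, Nat.add_sub_cancel] at h7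
    have h6 : ((G j).card : ℝ) ≤ W := by exact_mod_cast h5
    have h7 := hE16 j hj
    have h8 : ((G j).card : ℝ) / E j ≤ W := by
      rw [div_le_iff₀ (by linarith)]
      have h9 : (0 : ℝ) ≤ W := Nat.cast_nonneg W
      nlinarith
    apply pow_le_pow_left₀ (add_nonneg zero_le_one (div_nonneg (Nat.cast_nonneg _) (by linarith)))
    linarith
  obtain ⟨h, hh⟩ : ∃ h : ℕ, h = (J + 1) / 2 := ⟨_, rfl⟩
  have hpt : ∀ r, (if 2 * om P r < J then (1 : ℝ) else 0) ≤
      ∑ T ∈ powersetCard h (range J), ∏ j ∈ T, f j r := by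
    intro r
    split_ifs with h1
    · have h2 : h ≤ ((range J).filter fun j => om (G j) r = 0).card := by
        have h3 : ((range J).filter fun j => om (G j) r = 0).card +
            ((range J).filter fun j => ¬ om (G j) r = 0).card = J := by
          rw [card_filter_add_card_filter_not, card_range]
        have h4 : ((range J).filter fun j => ¬ om (G j) r = 0).card ≤ om P r := by
          have h5 : ((range J).filter fun j => ¬ om (G j) r = 0).card ≤
              ∑ j ∈ range J, om (G j) r := by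
            rw [card_filter]
            refine sum_le_sum fun j _ => ?_
            split_ifs with h6
            · omega
            · omega
          refine h5.trans ?_
          unfold om
          rw [← card_biUnion]
          · apply card_le_card
            intro q hq
            obtain ⟨j, hj, hq⟩ := mem_biUnion.1 hq
            rw [mem_filter] at hq ⊢
            exact ⟨(hG j (mem_range.1 hj)).1 hq.1, hq.2⟩
          · intro i hi j hj hij
            exact disjoint_filter_filter (hGd i (mem_range.1 hi) j (mem_range.1 hj) hij)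
        omega
      obtain ⟨T, hT, hTc⟩ := exists_subset_card_eq h2
      have hT' : T ∈ powersetCard h (range J) :=
        mem_powersetCard.2 ⟨hT.trans (filter_subset _ _), hTc⟩
      have h3 : ∏ j ∈ T, f j r = 1 := by
        apply prod_eq_one
        intro j hj
        have h4 := (mem_filter.1 (hT hj)).2
        rw [hf]
        dsimp only
        rw [h4]
        simp
      rw [← h3]
      exact single_le_sum (f := fun T => ∏ j ∈ T, f j r)
        (fun T _ => prod_nonneg fun j _ => hf0 j r) hT'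
    · exact sum_nonneg fun T _ => prod_nonneg fun j _ => hf0 j r
  have hT : ∀ T ∈ powersetCard h (range J), ∑ r ∈ Icc 1 x, ∏ j ∈ T, f j r ≤
      x * (1 / 16) ^ h + ((1 + (W : ℝ)) ^ 2) ^ h := by
    intro T hT
    rw [mem_powersetCard] at hT
    have hTJ : ∀ j ∈ T, j < J := fun j hj => mem_range.1 (hT.1 hj)
    have h1 := (DS.prod T G f M w (fun j hj => hds j (hTJ j hj))
      (fun i hi j hj hij => hGd i (hTJ i hi) j (hTJ j hj) hij)).sum_le x
    refine h1.trans (add_le_add (mul_le_mul_of_nonneg_left ?_ (Nat.cast_nonneg x)) ?_)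
    · rw [← hT.2, ← prod_const]
      exact prod_le_prod (fun j hj => (hM j (hTJ j hj)).1) fun j hj => (hM j (hTJ j hj)).2
    · rw [← hT.2, ← prod_const]
      exact prod_le_prod (fun j hj => (hw j (hTJ j hj)).1) fun j hj => (hw j (hTJ j hj)).2
  have hchoose : ((J.choose h : ℕ) : ℝ) ≤ 2 ^ J := by
    have h1 : J.choose h ≤ 2 ^ J := by
      rcases Nat.lt_or_ge J h with h2 | h2
      · rw [Nat.choose_eq_zero_of_lt h2]
        exact Nat.zero_le _
      · exact Nat.choose_le_two_pow J h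
    exact_mod_cast h1
  have hW1 : (1 : ℝ) ≤ 1 + W := by
    have : (0 : ℝ) ≤ W := Nat.cast_nonneg W
    linarith
  calc (((Icc 1 x).filter fun r => 2 * om P r < J).card : ℝ) =
        ∑ r ∈ Icc 1 x, (if 2 * om P r < J then (1 : ℝ) else 0) := by
        rw [card_filter]
        push_cast
        rfl
    _ ≤ ∑ r ∈ Icc 1 x, ∑ T ∈ powersetCard h (range J), ∏ j ∈ T, f j r :=
        sum_le_sum fun r _ => hpt r
    _ = ∑ T ∈ powersetCard h (range J), ∑ r ∈ Icc 1 x, ∏ j ∈ T, f j r := sum_comm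
    _ ≤ ∑ _T ∈ powersetCard h (range J), (x * (1 / 16) ^ h + ((1 + (W : ℝ)) ^ 2) ^ h) :=
        sum_le_sum hT
    _ = (J.choose h : ℕ) * (x * (1 / 16) ^ h + ((1 + (W : ℝ)) ^ 2) ^ h) := by
        rw [sum_const, card_powersetCard, card_range, nsmul_eq_mul]
    _ ≤ 2 ^ J * (x * (1 / 16) ^ h + ((1 + (W : ℝ)) ^ 2) ^ h) :=
        mul_le_mul_of_nonneg_right hchoose (by positivity)
    _ ≤ 2 ^ J * (x * (1 / 4) ^ J + (1 + (W : ℝ)) ^ (J + 1)) := by
        apply mul_le_mul_of_nonneg_left _ (by positivity)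
        apply add_le_add
        · apply mul_le_mul_of_nonneg_left _ (Nat.cast_nonneg x)
          have h1 : ((1 : ℝ) / 16) ^ h = (1 / 4) ^ (2 * h) := by
            rw [pow_mul]
            norm_num
          rw [h1]
          exact pow_le_pow_of_le_one (by norm_num) (by norm_num) (by omega)
        · rw [← pow_mul]
          exact pow_le_pow_right₀ hW1 (by omega)
    _ = x / 2 ^ J + 2 ^ J * (1 + W) ^ (J + 1) := by
        have h1 : (2 : ℝ) ^ J * (x * (1 / 4) ^ J) = x / 2 ^ J := by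
          have h2 : (2 : ℝ) * (1 / 4) = 1 / 2 := by norm_num
          rw [mul_left_comm, ← mul_pow, h2, one_div, inv_pow, div_eq_mul_inv]
        rw [mul_add, h1]

end AGQ
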